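import Pool.Agent.H77.Col.Tail

/-! The constant of the tail of the law of the maximum excursion, explicitly. -/

set_option autoImplicit false

namespace Pool.Agent.H77.Col

open Finset Filter Topology MeasureTheory Set

/-- the ratio `3^s / 2^k` -/
noncomputable def rat (p : ℕ × ℕ) : ℝ := (3 : ℝ) ^ p.2 / 2 ^ p.1

theorem rat_pos (p : ℕ × ℕ) : 0 < rat p := by unfold rat; positivity

theorem gen_hasSum {σ z : ℝ} (hσ : σ < 1) (hz : 0 ≤ z) (hz1 : z ≤ 1) :
    HasSum (fun p : ℕ × ℕ => mass p * z ^ p.1 * rat p ^ σ)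
      (varpi * Real.exp (∑' k : ℕ, z ^ (k + 1) / (k + 1) * up (k + 1) σ)) := by
  obtain ⟨h1, _, h3⟩ := rs_gen hσ hz hz1
  have h2 := h1.hasSum.mul_left varpi
  rw [h3] at h2
  have h4 : HasSum (fun k => ∑ s ∈ Finset.range (k + 1),
      varpi * ((rising k s : ℝ) / 2 ^ k) * z ^ k * ((3 : ℝ) ^ s / 2 ^ k) ^ σ)
      (varpi * Real.exp (∑' k : ℕ, z ^ (k + 1) / (k + 1) * up (k + 1) σ)) := by
    have e : (fun k => ∑ s ∈ Finset.range (k + 1),
      varpi * ((rising k s : ℝ) / 2 ^ k) * z ^ k * ((3 : ℝ) ^ s / 2 ^ k) ^ σ) = fun k => varpi * (z ^ k * rs k σ) := by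
      funext k
      unfold rs
      rw [mul_sum, mul_sum]
      apply Finset.sum_congr rfl
      intro s _
      ring
    rw [e]
    exact h2
  exact hasSum_tri (f := fun k s => varpi * ((rising k s : ℝ) / 2 ^ k) * z ^ k * ((3 : ℝ) ^ s / 2 ^ k) ^ σ)
    (fun k s => by have := varpi_pos; positivity) (fun k s hs => by rw [rising_gt k s hs]; simp) h4

theorem rising_pos_lt {k s : ℕ} (h : rising k s ≠ 0) : 1 ≤ rat (k, s) := by
  unfold rat
  rcases k with _ | k
  · simp only [pow_zero, div_one]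
    exact one_le_pow₀ (by norm_num)
  · rw [rising] at h
    by_cases h1 : 2 ^ (k + 1) < 3 ^ s
    · rw [le_div_iff₀ (by positivity), one_mul]
      exact_mod_cast h1.le
    · simp [h1] at h

/-- the Mellin transform of the tail -/
theorem mellin {σ : ℝ} (h0 : 0 < σ) (h1 : σ < 1) :
    varpi * Real.exp (∑' k : ℕ, up (k + 1) σ / (k + 1)) =
      1 + σ * ∫ u in Ioi (0 : ℝ), Real.exp (-((1 - σ) * u)) * Pool.Agent.W36.SL.h u := by
  classical
  have hE := gen_hasSum (σ := σ) (z := 1) h1 (by norm_num) le_rfl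
  simp only [one_pow, mul_one] at hE
  have e0 : ∑' k : ℕ, (1 : ℝ) / (k + 1) * up (k + 1) σ = ∑' k : ℕ, up (k + 1) σ / (k + 1) :=
    tsum_congr fun k => by ring
  rw [e0] at hE
  set F : ℕ × ℕ → ℝ → ℝ := fun p => (Iic (Real.log (rat p))).indicator
    (fun u => mass p * (σ * Real.exp (σ * u))) with hF
  have hint : ∀ p, IntegrableOn (F p) (Ioi 0) := by
    intro p
    rw [hF]
    simp only
    rw [IntegrableOn, integrable_indicator_iff measurableSet_Iic, IntegrableOn,
      Measure.restrict_restrict measurableSet_Iic, Set.inter_comm, Ioi_inter_Iic]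
    exact (Continuous.integrableOn_Ioc (by fun_prop))
  have hval : ∀ p, ∫ u in Ioi (0 : ℝ), F p u = mass p * rat p ^ σ - mass p := by
    intro p
    rw [hF]
    simp only
    rw [setIntegral_indicator measurableSet_Iic, Ioi_inter_Iic]
    by_cases hm : rising p.1 p.2 = 0
    · have : mass p = 0 := by unfold mass; rw [hm]; simp
      simp [this]
    · have h2 : 0 ≤ Real.log (rat p) := Real.log_nonneg (rising_pos_lt hm)
      rw [← intervalIntegral.integral_of_le h2, intervalIntegral.integral_const_mul]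
      have h3 : ∫ x in (0 : ℝ)..Real.log (rat p), σ * Real.exp (σ * x) =
          Real.exp (σ * Real.log (rat p)) - Real.exp (σ * 0) := by
        have h5 : ∀ x ∈ Set.uIcc (0 : ℝ) (Real.log (rat p)),
            HasDerivAt (fun x => Real.exp (σ * x)) (σ * Real.exp (σ * x)) x := by
          intro x _
          have := ((hasDerivAt_id x).const_mul σ).exp
          simpa [mul_comm] using this
        exact intervalIntegral.integral_eq_sub_of_hasDerivAt h5
          (Continuous.intervalIntegrable (by fun_prop) _ _)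
      rw [h3, mul_zero, Real.exp_zero, Real.rpow_def_of_pos (rat_pos p), mul_comm σ]
      ring
  have hnn : ∀ p u, 0 ≤ F p u := by
    intro p u
    rw [hF]
    simp only
    apply indicator_nonneg
    intro x _
    have := mass_nonneg p
    positivity
  have hsum : Summable (fun p => ∫ u in Ioi (0 : ℝ), ‖F p u‖) := by
    have : (fun p => ∫ u in Ioi (0 : ℝ), ‖F p u‖) = fun p => mass p * rat p ^ σ - mass p := by
      funext p
      rw [← hval p]
      congr 1
      funext u
      rw [Real.norm_eq_abs, abs_of_nonneg (hnn p u)]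
    rw [this]
    exact hE.summable.sub mass_hasSum.summable
  have hmain := hasSum_integral_of_summable_integral_norm (μ := volume.restrict (Ioi (0 : ℝ))) hint hsum
  have hmain2 : HasSum (fun p => ∫ u in Ioi (0 : ℝ), F p u)
      (varpi * Real.exp (∑' k : ℕ, up (k + 1) σ / (k + 1)) - 1) := by
    simp only [hval]
    exact hE.sub mass_hasSum
  have heq := hmain.unique hmain2
  have hint2 : ∫ u in Ioi (0 : ℝ), ∑' p, F p u =
      σ * ∫ u in Ioi (0 : ℝ), Real.exp (-((1 - σ) * u)) * Pool.Agent.W36.SL.h u := by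
    rw [← integral_const_mul]
    apply setIntegral_congr_fun measurableSet_Ioi
    intro u hu
    have hu' : (0 : ℝ) < u := hu
    simp only
    have e1 : ∀ p, F p u = (σ * Real.exp (σ * u)) * (if Real.exp u * 2 ^ p.1 ≤ 3 ^ p.2 then mass p else 0) := by
      intro p
      rw [hF]
      simp only [indicator_apply, Set.mem_Iic]
      have : u ≤ Real.log (rat p) ↔ Real.exp u * 2 ^ p.1 ≤ 3 ^ p.2 := by
        rw [Real.le_log_iff_exp_le (rat_pos p)]
        unfold rat
        rw [le_div_iff₀ (by positivity)]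
      simp only [this]
      split_ifs <;> ring
    rw [tsum_congr e1, tsum_mul_left]
    have e2 : (∑' p : ℕ × ℕ, if Real.exp u * 2 ^ p.1 ≤ 3 ^ p.2 then mass p else 0) = tail (Real.exp u) := rfl
    rw [e2, tail_eq (Real.one_lt_exp_iff.2 hu')]
    unfold Pool.Agent.W36.SL.h
    rw [← mul_assoc (Real.exp (-((1 - σ) * u))), ← Real.exp_add]
    have e3 : -((1 - σ) * u) + u = σ * u := by ring
    rw [e3]
    ring
  rw [hint2] at heq
  linarith

theorem abel_limit : Tendsto (fun σ : ℝ => (1 - σ) * (varpi * Real.exp (∑' k : ℕ, up (k + 1) σ / (k + 1))))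
    (𝓝[<] 1) (𝓝 Pool.Agent.W36.SL.C) := by
  have hC : Tendsto Pool.Agent.W36.SL.h atTop (𝓝 Pool.Agent.W36.SL.C) := by
    rw [← Pool.Agent.W36.SL.A0_eq]; exact Pool.Agent.W36.SL.h_tendsto
  have h1 : Tendsto (fun σ : ℝ => ∫ v in Ioi (0 : ℝ), Real.exp (-v) * Pool.Agent.W36.SL.h (v / (1 - σ)))
      (𝓝[<] 1) (𝓝 (∫ v in Ioi (0 : ℝ), Real.exp (-v) * Pool.Agent.W36.SL.C)) := by
    apply tendsto_integral_filter_of_dominated_convergence (fun v => Real.exp (-v))
    · filter_upwards with σ
      apply AEStronglyMeasurable.mul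
      · exact (Continuous.aestronglyMeasurable (by fun_prop))
      · exact (Pool.Agent.W36.SL.h_meas.comp (measurable_id.div_const _)).aestronglyMeasurable
    · filter_upwards with σ
      filter_upwards with v
      rw [norm_mul, Real.norm_eq_abs, Real.norm_eq_abs, abs_of_pos (Real.exp_pos _),
        abs_of_nonneg (Pool.Agent.W36.SL.h_nonneg _)]
      exact mul_le_of_le_one_right (Real.exp_pos _).le (Pool.Agent.W36.SL.h_le_one _)
    · exact integrableOn_exp_neg_Ioi 0
    · rw [ae_restrict_iff' measurableSet_Ioi]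
      filter_upwards with v hv
      have hv' : (0 : ℝ) < v := hv
      apply Tendsto.const_mul
      apply hC.comp
      have h2 : Tendsto (fun σ : ℝ => 1 - σ) (𝓝[<] 1) (𝓝[>] 0) := by
        rw [tendsto_nhdsWithin_iff]
        constructor
        · have : Tendsto (fun σ : ℝ => 1 - σ) (𝓝 1) (𝓝 (1 - 1)) := (continuous_const.sub continuous_id).tendsto 1
          rw [sub_self] at this
          exact this.mono_left nhdsWithin_le_nhds
        · filter_upwards [self_mem_nhdsWithin] with σ hσ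
          have : σ < 1 := hσ
          simp only [Set.mem_Ioi]
          linarith
      have h3 := (tendsto_inv_nhdsGT_zero.comp h2).const_mul_atTop hv'
      refine h3.congr fun σ => ?_
      rw [div_eq_mul_inv]; rfl
  have h2 : ∫ v in Ioi (0 : ℝ), Real.exp (-v) * Pool.Agent.W36.SL.C = Pool.Agent.W36.SL.C := by
    rw [integral_mul_const, integral_exp_neg_Ioi_zero, one_mul]
  rw [h2] at h1
  have h3 : Tendsto (fun σ : ℝ => (1 - σ) + σ * ∫ v in Ioi (0 : ℝ), Real.exp (-v) *
      Pool.Agent.W36.SL.h (v / (1 - σ))) (𝓝[<] 1) (𝓝 ((1 - 1) + 1 * Pool.Agent.W36.SL.C)) := by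
    apply Tendsto.add
    · exact ((continuous_const.sub continuous_id).tendsto 1).mono_left nhdsWithin_le_nhds
    · exact (continuous_id.tendsto 1).mono_left nhdsWithin_le_nhds |>.mul h1
  rw [sub_self, zero_add, one_mul] at h3
  refine h3.congr' ?_
  filter_upwards [Ioo_mem_nhdsLT (show (0 : ℝ) < 1 by norm_num)] with σ hσ
  rw [mellin hσ.1 hσ.2]
  have hd : 0 < 1 - σ := by linarith [hσ.2]
  have h4 := integral_comp_mul_left_Ioi (fun x => Real.exp (-x) * Pool.Agent.W36.SL.h (x / (1 - σ))) 0 hd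
  rw [mul_zero] at h4
  have h5 : ∫ x in Ioi (0 : ℝ), Real.exp (-((1 - σ) * x)) * Pool.Agent.W36.SL.h (((1 - σ) * x) / (1 - σ)) =
      ∫ u in Ioi (0 : ℝ), Real.exp (-((1 - σ) * u)) * Pool.Agent.W36.SL.h u := by
    congr 1
    funext x
    rw [mul_div_cancel_left₀ _ hd.ne']
  rw [h5, smul_eq_mul] at h4
  rw [h4]
  field_simp

/-- the constant of the tail -/
noncomputable def Csp : ℝ :=
  4 / Real.log (27 / 16) * Real.exp (-∑' k : ℕ, (up (k + 1) 0 + dn (k + 1) 1) / (k + 1))

theorem phi_deriv : HasDerivAt phi (Real.log (27 / 16) / 4) 1 := by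
  have h1 := (Real.hasStrictDerivAt_const_rpow (a := (1 / 2 : ℝ)) (by norm_num) 1).hasDerivAt
  have h2 := (Real.hasStrictDerivAt_const_rpow (a := (3 / 2 : ℝ)) (by norm_num) 1).hasDerivAt
  have h3 := (h1.add h2).div_const 2
  have e : Real.log (27 / 16) / 4 = ((1 / 2 : ℝ) ^ (1 : ℝ) * Real.log (1 / 2) +
      (3 / 2 : ℝ) ^ (1 : ℝ) * Real.log (3 / 2)) / 2 := by
    rw [Real.rpow_one, Real.rpow_one]
    have e1 : Real.log (27 / 16) = 3 * Real.log 3 - 4 * Real.log 2 := by
      rw [Real.log_div (by norm_num) (by norm_num), show (27 : ℝ) = 3 ^ 3 by norm_num,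
        show (16 : ℝ) = 2 ^ 4 by norm_num, Real.log_pow, Real.log_pow]
      norm_num
    rw [e1, Real.log_div (by norm_num) (by norm_num), Real.log_div (by norm_num) (by norm_num), Real.log_one]
    ring
  rw [e]
  exact h3

theorem dn_summable {σ : ℝ} (hσ : 1 / 2 ≤ σ) : Summable fun k : ℕ => dn (k + 1) σ / (k + 1) := by
  have hphi := phi_lt (σ := 1 / 2) (by norm_num) (by norm_num)
  refine Summable.of_nonneg_of_le (fun k => div_nonneg (dn_nonneg _ _) (by positivity)) (fun k => ?_)
    ((summable_geometric_of_lt_one (phi_nonneg _) hphi))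
  calc dn (k + 1) σ / (k + 1) ≤ dn (k + 1) σ := div_le_self (dn_nonneg _ _) (by
        have : (0 : ℝ) ≤ k := Nat.cast_nonneg k
        linarith)
    _ ≤ phi (1 / 2) ^ (k + 1) := dn_le hσ _
    _ ≤ phi (1 / 2) ^ k := pow_le_pow_of_le_one (phi_nonneg _) hphi.le (by omega)

theorem spitzer_limit : Tendsto (fun σ : ℝ => (1 - σ) * (varpi * Real.exp (∑' k : ℕ, up (k + 1) σ / (k + 1))))
    (𝓝[<] 1) (𝓝 Csp) := by
  have hlog : 0 < Real.log (27 / 16) := Real.log_pos (by norm_num)
  have hphi := phi_lt (σ := 1 / 2) (by norm_num) (by norm_num)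
  have h1 : Tendsto (fun σ => (1 - σ) / (1 - phi σ)) (𝓝[<] 1) (𝓝 (4 / Real.log (27 / 16))) := by
    have h2 := (hasDerivAt_iff_tendsto_slope.1 phi_deriv).mono_left
      (nhdsWithin_mono (1 : ℝ) (fun x (hx : x < 1) => ne_of_lt hx) : 𝓝[<] (1 : ℝ) ≤ 𝓝[≠] 1)
    have h3 := h2.inv₀ (by positivity)
    rw [inv_div] at h3
    refine h3.congr' ?_
    filter_upwards [Ioo_mem_nhdsLT (show (0 : ℝ) < 1 by norm_num)] with σ hσ
    rw [slope_def_field, phi_one, inv_div, ← neg_sub 1 σ, ← neg_sub 1 (phi σ), neg_div_neg_eq]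
  have h2 : Tendsto (fun σ => Real.exp (-∑' k : ℕ, dn (k + 1) σ / (k + 1))) (𝓝[<] 1)
      (𝓝 (Real.exp (-∑' k : ℕ, dn (k + 1) 1 / (k + 1)))) := by
    apply (Real.continuous_exp.tendsto _).comp
    apply Tendsto.neg
    apply tendsto_tsum_of_dominated_convergence (bound := fun k : ℕ => phi (1 / 2) ^ k)
      (summable_geometric_of_lt_one (phi_nonneg _) hphi)
    · intro k
      apply Tendsto.div_const
      unfold dn
      apply tendsto_finsetSum
      intro s _
      split_ifs with h
      · apply Tendsto.const_mul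
        have h4 : Tendsto (fun σ : ℝ => ((3 : ℝ) ^ s / 2 ^ (k + 1)) ^ σ) (𝓝 1)
            (𝓝 (((3 : ℝ) ^ s / 2 ^ (k + 1)) ^ (1 : ℝ))) :=
          (Real.continuous_const_rpow (by positivity)).tendsto 1
        exact h4.mono_left nhdsWithin_le_nhds
      · exact tendsto_const_nhds
    · filter_upwards [Ioo_mem_nhdsLT (show (1 / 2 : ℝ) < 1 by norm_num)] with σ hσ k
      rw [Real.norm_eq_abs, abs_of_nonneg (div_nonneg (dn_nonneg _ _) (by positivity))]
      calc dn (k + 1) σ / (k + 1) ≤ dn (k + 1) σ := div_le_self (dn_nonneg _ _) (by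
            have : (0 : ℝ) ≤ k := Nat.cast_nonneg k
            linarith)
        _ ≤ phi (1 / 2) ^ (k + 1) := dn_le hσ.1.le _
        _ ≤ phi (1 / 2) ^ k := pow_le_pow_of_le_one (phi_nonneg _) hphi.le (by omega)
  have h3 := (h1.mul h2).const_mul varpi
  have e : varpi * (4 / Real.log (27 / 16) * Real.exp (-∑' k : ℕ, dn (k + 1) 1 / (k + 1))) = Csp := by
    unfold Csp varpi
    have h4 : ∑' k : ℕ, (up (k + 1) 0 + dn (k + 1) 1) / (k + 1) =
        ∑' k : ℕ, up (k + 1) 0 / (k + 1) + ∑' k : ℕ, dn (k + 1) 1 / (k + 1) := by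
      rw [← (up_summable 0 (by norm_num)).tsum_add (dn_summable (by norm_num))]
      apply tsum_congr
      intro k
      ring
    rw [h4, neg_add, Real.exp_add]
    ring
  rw [e] at h3
  refine h3.congr' ?_
  filter_upwards [Ioo_mem_nhdsLT (show (1 / 2 : ℝ) < 1 by norm_num)] with σ hσ
  have hs0 : 0 < σ := by linarith [hσ.1]
  have hp := phi_lt hs0 hσ.2
  have hpn := phi_nonneg σ
  have hlog := Real.hasSum_pow_div_log_of_abs_lt_one (x := phi σ) (by rw [abs_of_nonneg hpn]; exact hp)
  have h5 : ∑' k : ℕ, up (k + 1) σ / (k + 1) = -Real.log (1 - phi σ) - ∑' k : ℕ, dn (k + 1) σ / (k + 1) := by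
    rw [← hlog.tsum_eq, ← hlog.summable.tsum_sub (dn_summable hσ.1.le)]
    apply tsum_congr
    intro k
    rw [← up_add_dn (k := k + 1) (by omega) σ]
    ring
  rw [h5, Real.exp_sub, Real.exp_neg (Real.log _), Real.exp_log (by linarith), Real.exp_neg]
  ring

theorem C_eq : Pool.Agent.W36.SL.C = Csp := tendsto_nhds_unique abel_limit spitzer_limit

end Pool.Agent.H77.Col
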