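import Mathlib

/-! The tilted walk: central limit theorem in the form needed for first passage times. -/

set_option autoImplicit false

namespace Pool.Agent.H77.Col

open MeasureTheory ProbabilityTheory Filter Topology

/-- the standardized step: `1/√3` with probability `3/4`, `-√3` with probability `1/4` -/
noncomputable def nu : Measure ℝ :=
  ENNReal.ofReal (3 / 4) • Measure.dirac (1 / √3) + ENNReal.ofReal (1 / 4) • Measure.dirac (-√3)

instance nu_prob : IsProbabilityMeasure nu := by
  constructor
  unfold nu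
  simp only [Measure.coe_add, Measure.coe_smul, Pi.add_apply, Pi.smul_apply, measure_univ, smul_eq_mul, mul_one]
  rw [← ENNReal.ofReal_add (by norm_num) (by norm_num)]
  norm_num

theorem integral_nu (f : ℝ → ℝ) : ∫ x, f x ∂nu = 3 / 4 * f (1 / √3) + 1 / 4 * f (-√3) := by
  unfold nu
  have h : ∀ (c : ENNReal) (x : ℝ), c ≠ ⊤ → Integrable f (c • Measure.dirac x) := by
    intro c x hc
    exact (integrable_dirac (by simp [enorm_lt_top])).smul_measure hc
  rw [integral_add_measure (h _ _ ENNReal.ofReal_ne_top) (h _ _ ENNReal.ofReal_ne_top), integral_smul_measure,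
    integral_smul_measure, integral_dirac, integral_dirac, ENNReal.toReal_ofReal (by norm_num),
    ENNReal.toReal_ofReal (by norm_num)]
  simp

theorem lintegral_nu {f : ℝ → ENNReal} (hf : Measurable f) :
    ∫⁻ x, f x ∂nu = ENNReal.ofReal (3 / 4) * f (1 / √3) + ENNReal.ofReal (1 / 4) * f (-√3) := by
  unfold nu
  rw [lintegral_add_measure, lintegral_smul_measure, lintegral_smul_measure, lintegral_dirac' _ hf,
    lintegral_dirac' _ hf]
  rfl

/-- the probability space of the tilted walk -/
noncomputable def P0 : Measure (ℕ → ℝ) := Measure.infinitePi (fun _ => nu)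

instance P0_prob : IsProbabilityMeasure P0 := by unfold P0; infer_instance

theorem X_indep : iIndepFun (fun (i : ℕ) (ω : ℕ → ℝ) => ω i) P0 :=
  iIndepFun_infinitePi (X := fun _ ω => ω) (fun _ => measurable_id)

theorem X_law (i : ℕ) : P0.map (fun ω => ω i) = nu := Measure.infinitePi_map_eval (fun _ : ℕ => nu) i

/-- the walk -/
def S (K : ℕ) (ω : ℕ → ℝ) : ℝ := ∑ i ∈ Finset.range K, ω i

theorem S_meas (K : ℕ) : Measurable (S K) := by
  unfold S
  exact Finset.measurable_sum _ fun i _ => measurable_pi_apply i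

/-- `P(S_K ≥ y)` -/
noncomputable def G (K : ℕ) (y : ℝ) : ℝ := P0.real {ω | y ≤ S K ω}

theorem G_nonneg (K : ℕ) (y : ℝ) : 0 ≤ G K y := measureReal_nonneg
theorem G_le_one (K : ℕ) (y : ℝ) : G K y ≤ 1 := measureReal_le_one

theorem G_anti (K : ℕ) : Antitone (G K) := by
  intro a b hab
  exact measureReal_mono (fun ω hω => hab.trans hω)

theorem G_zero (y : ℝ) : G 0 y = if y ≤ 0 then 1 else 0 := by
  unfold G S
  simp only [Finset.range_zero, Finset.sum_empty]
  split_ifs with h
  · simp [h]
  · simp [h]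

theorem G_succ (K : ℕ) (y : ℝ) : G (K + 1) y = 3 / 4 * G K (y - 1 / √3) + 1 / 4 * G K (y + √3) := by
  have hind : IndepFun (S K) (fun ω : ℕ → ℝ => ω K) P0 := by
    have := X_indep.indepFun_finsetSum_of_notMem (fun i => measurable_pi_apply i) (s := Finset.range K) (i := K)
      Finset.notMem_range_self
    convert this using 1
    funext ω
    unfold S
    simp
  have hlaw : P0.map (S (K + 1)) = (P0.map (S K)).conv nu := by
    have h1 : S (K + 1) = S K + (fun ω : ℕ → ℝ => ω K) := by
      funext ω
      unfold S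
      rw [Finset.sum_range_succ]
      rfl
    rw [h1, hind.map_add_eq_map_conv_map₀ (S_meas K).aemeasurable (measurable_pi_apply K).aemeasurable, X_law]
  have hE : ∀ K y, P0 {ω | y ≤ S K ω} = P0.map (S K) (Set.Ici y) := by
    intro K y
    rw [Measure.map_apply (S_meas K) measurableSet_Ici]
    rfl
  have h2 : P0 {ω | y ≤ S (K + 1) ω} = ENNReal.ofReal (3 / 4) * P0 {ω | y - 1 / √3 ≤ S K ω} +
      ENNReal.ofReal (1 / 4) * P0 {ω | y + √3 ≤ S K ω} := by
    rw [hE, hlaw, ← lintegral_indicator_one measurableSet_Ici, Measure.lintegral_conv (by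
      exact (measurable_one.indicator measurableSet_Ici))]
    have h3 : ∀ x : ℝ, ∫⁻ z, (Set.Ici y).indicator 1 (x + z) ∂nu =
        ENNReal.ofReal (3 / 4) * (Set.Ici (y - 1 / √3)).indicator 1 x +
        ENNReal.ofReal (1 / 4) * (Set.Ici (y + √3)).indicator 1 x := by
      intro x
      have hm : Measurable (fun z : ℝ => (Set.Ici y).indicator (1 : ℝ → ENNReal) (x + z)) :=
        (measurable_one.indicator measurableSet_Ici).comp (measurable_const_add x)
      rw [lintegral_nu hm]
      congr 2
      · simp only [Set.indicator_apply, Set.mem_Ici, sub_le_iff_le_add, Pi.one_apply]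
      · simp only [Set.indicator_apply, Set.mem_Ici, Pi.one_apply]
        congr 1
        apply propext
        constructor <;> intro h <;> linarith
    simp only [h3]
    rw [lintegral_add_left, lintegral_const_mul, lintegral_const_mul, lintegral_indicator_one measurableSet_Ici,
      lintegral_indicator_one measurableSet_Ici, ← hE, ← hE]
    · exact measurable_one.indicator measurableSet_Ici
    · exact measurable_one.indicator measurableSet_Ici
    · exact (measurable_one.indicator measurableSet_Ici).const_mul _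
  unfold G Measure.real
  rw [h2, ENNReal.toReal_add (by finiteness) (by finiteness), ENNReal.toReal_mul, ENNReal.toReal_mul,
    ENNReal.toReal_ofReal (by norm_num), ENNReal.toReal_ofReal (by norm_num)]

theorem mean0 : ∫ ω, (fun ω : ℕ → ℝ => ω 0) ω ∂P0 = 0 := by
  have h : ∫ ω, (fun ω : ℕ → ℝ => ω 0) ω ∂P0 = ∫ x, x ∂nu := by
    rw [← X_law 0]
    have h5 : Measurable (fun ω : ℕ → ℝ => ω 0) := measurable_pi_apply 0
    exact (integral_map (μ := P0) h5.aemeasurable (f := fun x : ℝ => x) aestronglyMeasurable_id).symm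
  rw [h, integral_nu]
  have h3 : √3 * √3 = 3 := Real.mul_self_sqrt (by norm_num)
  have h4 : √3 ≠ 0 := by positivity
  field_simp
  nlinarith

theorem var1 : ∫ ω, ((fun ω : ℕ → ℝ => ω 0) ^ 2) ω ∂P0 = 1 := by
  have h : ∫ ω, ((fun ω : ℕ → ℝ => ω 0) ^ 2) ω ∂P0 = ∫ x, x ^ 2 ∂nu := by
    rw [← X_law 0, integral_map (measurable_pi_apply 0).aemeasurable (by fun_prop)]
    rfl
  rw [h, integral_nu (fun x => x ^ 2)]
  have h3 : √3 ^ 2 = 3 := Real.sq_sqrt (by norm_num)
  rw [div_pow, neg_sq, h3]
  norm_num

/-- the tail of the standard normal law -/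
noncomputable def PhiBar (a : ℝ) : ℝ := (gaussianReal 0 1).real (Set.Ici a)

theorem clt_tendsto (a : ℝ) : Tendsto (fun K : ℕ => G K (a * √(K : ℝ))) atTop (𝓝 (PhiBar a)) := by
  have hY : HasLaw (id : ℝ → ℝ) (gaussianReal 0 1) (gaussianReal 0 1) :=
    ⟨aemeasurable_id, Measure.map_id⟩
  have hident : ∀ i : ℕ, IdentDistrib (fun ω : ℕ → ℝ => ω i) (fun ω : ℕ → ℝ => ω 0) P0 P0 := fun i =>
    ⟨(measurable_pi_apply i).aemeasurable, (measurable_pi_apply 0).aemeasurable, by rw [X_law, X_law]⟩
  have h := tendstoInDistribution_inv_sqrt_mul_sum (P := P0) (X := fun i ω => ω i) hY mean0 var1 X_indep hident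
  have h2 := h.tendsto
  have h3 := ProbabilityMeasure.tendsto_measure_of_null_frontier_of_tendsto' h2 (E := Set.Ici a) (by
    rw [frontier_Ici]
    simp only [ProbabilityMeasure.coe_mk, Measure.map_id]
    exact (nullSingletonClass_gaussianReal (by norm_num)).measure_singleton a)
  have h4 : Tendsto (fun K : ℕ => P0 {ω | a * √(K : ℝ) ≤ S K ω}) atTop (𝓝 ((gaussianReal 0 1) (Set.Ici a))) := by
    have h5 : ∀ᶠ K : ℕ in atTop, (P0.map (fun ω => (√(K : ℝ))⁻¹ * ∑ k ∈ Finset.range K, ω k)) (Set.Ici a) =
        P0 {ω | a * √(K : ℝ) ≤ S K ω} := by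
      filter_upwards [eventually_gt_atTop 0] with K hK
      have hK' : 0 < √(K : ℝ) := Real.sqrt_pos.2 (by exact_mod_cast hK)
      rw [Measure.map_apply (show Measurable (fun ω : ℕ → ℝ => (√(K : ℝ))⁻¹ * ∑ k ∈ Finset.range K, ω k) from
        (S_meas K).const_mul _) measurableSet_Ici]
      congr 1
      ext ω
      simp only [Set.mem_preimage, Set.mem_Ici, Set.mem_ofPred_eq]
      rw [inv_mul_eq_div, le_div_iff₀ hK']
      rfl
    refine Tendsto.congr' h5 ?_
    simpa using h3
  exact (ENNReal.tendsto_toReal (measure_ne_top _ _)).comp h4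

theorem PhiBar_cont : Continuous PhiBar := by
  have h : PhiBar = fun a => 1 - (gaussianReal 0 1).real (Set.Iio a) := by
    funext a
    unfold PhiBar
    rw [← Set.compl_Iio, measureReal_compl measurableSet_Iio, probReal_univ]
  have hna := nullSingletonClass_gaussianReal (μ := 0) (v := 1) (by norm_num)
  have h2 : ∀ a, (gaussianReal 0 1).real (Set.Iio a) = cdf (gaussianReal 0 1) a := by
    intro a
    rw [cdf_eq_real]
    unfold Measure.real
    rw [measure_congr Iio_ae_eq_Iic]
  rw [h]
  simp only [h2]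
  apply Continuous.sub continuous_const
  rw [continuous_iff_continuousAt]
  intro a
  have h3 := (monotone_cdf (gaussianReal 0 1))
  rw [h3.continuousAt_iff_leftLim_eq_rightLim, StieltjesFunction.rightLim_eq]
  have h4 : (cdf (gaussianReal 0 1)).measure {a} = 0 := by
    rw [measure_cdf]; exact measure_singleton a
  rw [StieltjesFunction.measure_singleton] at h4
  have h5 : (cdf (gaussianReal 0 1)) a - Function.leftLim (cdf (gaussianReal 0 1)) a ≤ 0 := ENNReal.ofReal_eq_zero.1 h4
  have h6 : Function.leftLim (cdf (gaussianReal 0 1)) a ≤ (cdf (gaussianReal 0 1)) a := h3.leftLim_le le_rfl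
  linarith

/-- the central limit theorem with moving thresholds -/
theorem clt_moving {ι : Type*} {l : Filter ι} {K : ι → ℕ} {y : ι → ℝ} {a : ℝ} (hK : Tendsto K l atTop)
    (hy : Tendsto (fun i => y i / √(K i : ℝ)) l (𝓝 a)) : Tendsto (fun i => G (K i) (y i)) l (𝓝 (PhiBar a)) := by
  rw [tendsto_order]
  have hpos : ∀ᶠ i in l, 0 < √(K i : ℝ) := by
    filter_upwards [hK.eventually_gt_atTop 0] with i hi
    exact Real.sqrt_pos.2 (by exact_mod_cast hi)
  constructor
  · intro c hc
    have h1 : ∀ᶠ b in 𝓝 a, c < PhiBar b := PhiBar_cont.continuousAt.eventually (lt_mem_nhds hc)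
    obtain ⟨δ, hδ, h2⟩ := Metric.eventually_nhds_iff.1 h1
    have h3 := h2 (y := a + δ / 2) (by rw [Real.dist_eq, add_sub_cancel_left, abs_of_pos (by linarith)]; linarith)
    have h4 := ((clt_tendsto (a + δ / 2)).comp hK).eventually (lt_mem_nhds h3)
    have h5 := hy.eventually (gt_mem_nhds (show a < a + δ / 2 by linarith))
    filter_upwards [h4, h5, hpos] with i h6 h7 h8
    rw [div_lt_iff₀ h8] at h7
    exact lt_of_lt_of_le h6 (G_anti _ h7.le)
  · intro c hc
    have h1 : ∀ᶠ b in 𝓝 a, PhiBar b < c := PhiBar_cont.continuousAt.eventually (gt_mem_nhds hc)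
    obtain ⟨δ, hδ, h2⟩ := Metric.eventually_nhds_iff.1 h1
    have h3 := h2 (y := a - δ / 2) (by
      rw [Real.dist_eq, show a - δ / 2 - a = -(δ / 2) by ring, abs_neg, abs_of_pos (by linarith)]; linarith)
    have h4 := ((clt_tendsto (a - δ / 2)).comp hK).eventually (gt_mem_nhds h3)
    have h5 := hy.eventually (lt_mem_nhds (show a - δ / 2 < a by linarith))
    filter_upwards [h4, h5, hpos] with i h6 h7 h8
    rw [lt_div_iff₀ h8] at h7
    exact lt_of_le_of_lt (G_anti _ h7.le) h6

/-- `PhiBar (-u)` is the normal distribution function at `u` -/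
theorem PhiBar_neg (u : ℝ) : PhiBar (-u) = cdf (gaussianReal 0 1) u := by
  rw [cdf_eq_real]
  unfold PhiBar Measure.real
  congr 1
  have h : (gaussianReal 0 1).map (fun x => -x) = gaussianReal 0 1 := by
    have := gaussianReal_map_neg (μ := 0) (v := 1)
    simpa using this
  conv_lhs => rw [← h]
  rw [Measure.map_apply measurable_neg measurableSet_Ici]
  congr 1
  ext x
  simp

end Pool.Agent.H77.Col
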