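import Mathlib

/-! Sequences with `n g_n = ∑ b_k g_(n-k)` have the generating function `exp (∑ b_k z^k / k)`. -/

set_option autoImplicit false

namespace Pool.Agent.H77.Col

open Finset

theorem rec_le {g b : ℕ → ℝ} (g0 : g 0 = 1)
    (hrec : ∀ n : ℕ, (n : ℝ) * g n = ∑ i ∈ range n, b (i + 1) * g (n - 1 - i))
    (hb : ∀ n, |b (n + 1)| ≤ 1) : ∀ n, |g n| ≤ 1 := by
  intro n
  induction n using Nat.strong_induction_on with
  | _ n ih =>
    rcases Nat.eq_zero_or_pos n with h | h
    · subst h; rw [g0]; norm_num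
    · have h1 : |(n : ℝ) * g n| ≤ n := by
        rw [hrec n]
        refine (abs_sum_le_sum_abs _ _).trans ?_
        calc ∑ i ∈ range n, |b (i + 1) * g (n - 1 - i)| ≤ ∑ _i ∈ range n, (1 : ℝ) := by
              apply sum_le_sum
              intro i hi
              rw [mem_range] at hi
              rw [abs_mul]
              have h2 := ih (n - 1 - i) (by omega)
              have h3 := hb i
              calc |b (i + 1)| * |g (n - 1 - i)| ≤ 1 * 1 :=
                    mul_le_mul h3 h2 (abs_nonneg _) (by norm_num)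
                _ = 1 := by norm_num
          _ = n := by simp
      have hn : (0 : ℝ) < n := by exact_mod_cast h
      rw [abs_mul, abs_of_pos hn] at h1
      by_contra hcon
      push Not at hcon
      nlinarith

theorem summable_bdd {c : ℕ → ℝ} (hc : ∀ n, |c n| ≤ 1) {t : ℝ} (ht : |t| < 1) :
    Summable fun n => ‖c n * t ^ n‖ := by
  refine Summable.of_nonneg_of_le (fun n => norm_nonneg _) (fun n => ?_)
    (summable_geometric_of_lt_one (abs_nonneg t) ht)
  rw [Real.norm_eq_abs, abs_mul, abs_pow]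
  exact mul_le_of_le_one_left (by positivity) (hc n)

theorem hasDerivAt_ser {c : ℕ → ℝ} (hc : ∀ n, |c n| ≤ 1) {t : ℝ} (ht : |t| < 1) :
    HasDerivAt (fun t => ∑' n, c n * t ^ n) (∑' n : ℕ, (c (n + 1) * (n + 1)) * t ^ n) t := by
  obtain ⟨r, hr1, hr2⟩ := exists_between ht
  have hr0 : 0 ≤ r := (abs_nonneg t).trans hr1.le
  have hu : Summable (fun n : ℕ => (n : ℝ) * r ^ (n - 1)) := by
    rw [← summable_nat_add_iff 1]
    have h1 : Summable (fun n : ℕ => ((n : ℝ) ^ 1 * r ^ n)) :=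
      summable_pow_mul_geometric_of_norm_lt_one 1 (by rw [Real.norm_eq_abs, abs_of_nonneg hr0]; exact hr2)
    have h2 : Summable (fun n : ℕ => r ^ n) := summable_geometric_of_lt_one hr0 hr2
    refine (h1.add h2).congr fun n => ?_
    push_cast
    simp
    ring
  have key := hasDerivAt_tsum_of_isPreconnected (g := fun n (t : ℝ) => c n * t ^ n)
    (g' := fun n (t : ℝ) => c n * ((n : ℝ) * t ^ (n - 1))) (t := Metric.ball (0 : ℝ) r) (y₀ := t) (y := t) hu
    Metric.isOpen_ball (convex_ball (0 : ℝ) r).isPreconnected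
    (fun n y _ => (hasDerivAt_pow n y).const_mul (c n)) (fun n y hy => ?_) (by simpa using hr1)
    (summable_bdd hc ht).of_norm (by simpa using hr1)
  · have e : ∑' n : ℕ, (c (n + 1) * (n + 1)) * t ^ n = ∑' n, c n * ((n : ℝ) * t ^ (n - 1)) := by
      have hs : Summable (fun n : ℕ => c n * ((n : ℝ) * t ^ (n - 1))) := by
        refine Summable.of_norm_bounded hu fun n => ?_
        rw [Real.norm_eq_abs, abs_mul, abs_mul, abs_pow, abs_of_nonneg (Nat.cast_nonneg n : (0 : ℝ) ≤ (n : ℝ))]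
        calc |c n| * ((n : ℝ) * |t| ^ (n - 1)) ≤ 1 * ((n : ℝ) * r ^ (n - 1)) := by
              apply mul_le_mul (hc n) _ (by positivity) (by norm_num)
              apply mul_le_mul_of_nonneg_left _ (Nat.cast_nonneg n)
              exact pow_le_pow_left₀ (abs_nonneg t) hr1.le _
          _ = _ := one_mul _
      rw [hs.tsum_eq_zero_add]
      simp
      apply tsum_congr
      intro n
      ring
    rw [e]
    exact key
  · rw [mem_ball_zero_iff, Real.norm_eq_abs] at hy
    rw [Real.norm_eq_abs, abs_mul, abs_mul, abs_pow, abs_of_nonneg (Nat.cast_nonneg n : (0 : ℝ) ≤ (n : ℝ))]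
    calc |c n| * ((n : ℝ) * |y| ^ (n - 1)) ≤ 1 * ((n : ℝ) * r ^ (n - 1)) := by
          apply mul_le_mul (hc n) _ (by positivity) (by norm_num)
          apply mul_le_mul_of_nonneg_left _ (Nat.cast_nonneg n)
          exact pow_le_pow_left₀ (abs_nonneg y) hy.le _
      _ = _ := one_mul _

theorem exp_series {g b : ℕ → ℝ} (g0 : g 0 = 1)
    (hrec : ∀ n : ℕ, (n : ℝ) * g n = ∑ i ∈ range n, b (i + 1) * g (n - 1 - i))
    (hb : ∀ n, |b (n + 1)| ≤ 1) {z : ℝ} (hz : 0 ≤ z) (hz1 : z < 1) :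
    (Summable fun n => ‖g n * z ^ n‖) ∧ (Summable fun n : ℕ => b (n + 1) / (n + 1) * z ^ (n + 1)) ∧
    ∑' n, g n * z ^ n = Real.exp (∑' n : ℕ, b (n + 1) / (n + 1) * z ^ (n + 1)) := by
  have hg := rec_le g0 hrec hb
  set c : ℕ → ℝ := fun n => if n = 0 then 0 else b n / n with hc
  have hc1 : ∀ n, |c n| ≤ 1 := by
    intro n
    rcases n with _ | n
    · simp [hc]
    · simp only [hc, Nat.succ_ne_zero, if_false]
      have h1 : (1 : ℝ) ≤ ((n + 1 : ℕ) : ℝ) := by push_cast; linarith [(Nat.cast_nonneg n : (0 : ℝ) ≤ n)]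
      rw [abs_div, abs_of_pos (by linarith : (0 : ℝ) < ((n + 1 : ℕ) : ℝ)), div_le_one (by linarith)]
      exact (hb n).trans h1
  have hcs : ∀ t : ℝ, |t| < 1 → Summable (fun n => c n * t ^ n) := fun t ht => (summable_bdd hc1 ht).of_norm
  have hcz : ∀ t : ℝ, |t| < 1 → ∑' n, c n * t ^ n = ∑' n : ℕ, b (n + 1) / (n + 1) * t ^ (n + 1) := by
    intro t ht
    rw [(hcs t ht).tsum_eq_zero_add]
    simp [hc]
  have hzabs : |z| < 1 := by rw [abs_of_nonneg hz]; exact hz1
  refine ⟨summable_bdd hg hzabs, ?_, ?_⟩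
  · have h1 := (summable_nat_add_iff 1).2 (hcs z hzabs)
    refine h1.congr fun n => ?_
    simp [hc]
  set Y : ℝ → ℝ := fun t => ∑' n, g n * t ^ n with hY
  set B : ℝ → ℝ := fun t => ∑' n, c n * t ^ n with hB
  have hYd : ∀ t : ℝ, |t| < 1 → HasDerivAt Y (∑' n : ℕ, (g (n + 1) * (n + 1)) * t ^ n) t :=
    fun t ht => hasDerivAt_ser hg ht
  have hBd : ∀ t : ℝ, |t| < 1 → HasDerivAt B (∑' n : ℕ, b (n + 1) * t ^ n) t := by
    intro t ht
    have h1 := hasDerivAt_ser hc1 ht
    convert h1 using 1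
    apply tsum_congr
    intro n
    have h2 : (n : ℝ) + 1 ≠ 0 := by positivity
    simp only [hc, Nat.succ_ne_zero, if_false]
    push_cast
    field_simp
  have hprod : ∀ t : ℝ, |t| < 1 → (∑' n : ℕ, b (n + 1) * t ^ n) * Y t =
      ∑' n : ℕ, (g (n + 1) * (n + 1)) * t ^ n := by
    intro t ht
    have s1 := summable_bdd (c := fun n => b (n + 1)) hb ht
    have s2 := summable_bdd hg ht
    rw [tsum_mul_tsum_eq_tsum_sum_range_of_summable_norm s1 s2]
    apply tsum_congr
    intro n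
    have h1 := hrec (n + 1)
    rw [Nat.add_sub_cancel] at h1
    push_cast at h1
    rw [mul_comm (g (n + 1)), h1, sum_mul]
    apply sum_congr rfl
    intro i hi
    rw [mem_range] at hi
    have h2 : t ^ n = t ^ i * t ^ (n - i) := by rw [← pow_add]; congr 1; omega
    rw [h2]
    ring
  have hconst : ∀ x ∈ Set.Icc (0 : ℝ) z, Y x * Real.exp (-B x) = Y 0 * Real.exp (-B 0) := by
    have hd : ∀ x ∈ Set.Icc (0 : ℝ) z, HasDerivAt (fun x => Y x * Real.exp (-B x)) 0 x := by
      intro x hx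
      have hx1 : |x| < 1 := by rw [abs_of_nonneg hx.1]; linarith [hx.2]
      have h1 : HasDerivAt (fun x => Real.exp (-B x)) (Real.exp (-B x) * -(∑' n : ℕ, b (n + 1) * x ^ n)) x :=
        (hBd x hx1).neg.exp
      have h2 := (hYd x hx1).mul h1
      have e : (∑' n : ℕ, (g (n + 1) * (n + 1)) * x ^ n) * Real.exp (-B x) +
          Y x * (Real.exp (-B x) * -(∑' n : ℕ, b (n + 1) * x ^ n)) = 0 := by
        rw [← hprod x hx1]
        ring
      rw [e] at h2
      exact h2
    exact constant_of_has_deriv_right_zero (fun x hx => (hd x hx).continuousAt.continuousWithinAt)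
      (fun x hx => (hd x ⟨hx.1, hx.2.le⟩).hasDerivWithinAt)
  have h1 := hconst z ⟨hz, le_rfl⟩
  have h2 : Y 0 = 1 := by
    simp only [hY]
    rw [tsum_eq_single 0]
    · simp [g0]
    · intro n hn; simp [hn]
  have h3 : B 0 = 0 := by
    simp only [hB]
    rw [tsum_eq_single 0]
    · simp [hc]
    · intro n hn; simp [hn]
  rw [h2, h3, neg_zero, Real.exp_zero, mul_one, Real.exp_neg] at h1
  have h4 : Real.exp (B z) ≠ 0 := (Real.exp_pos _).ne'
  have h5 : Y z = Real.exp (B z) := by field_simp at h1; exact h1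
  rw [← hcz z hzabs]
  exact h5

/-- the same at the point `1`, when `b` decays -/
theorem exp_series_one {g b : ℕ → ℝ} (g0 : g 0 = 1)
    (hrec : ∀ n : ℕ, (n : ℝ) * g n = ∑ i ∈ range n, b (i + 1) * g (n - 1 - i))
    {r : ℝ} (hr : 0 < r) (hr1 : r < 1) (hb : ∀ n, |b (n + 1)| ≤ r ^ (n + 1)) :
    Summable g ∧ (Summable fun n : ℕ => b (n + 1) / (n + 1)) ∧
    ∑' n, g n = Real.exp (∑' n : ℕ, b (n + 1) / (n + 1)) := by
  have hrn : ∀ n : ℕ, (r ^ n : ℝ) ≠ 0 := fun n => (pow_pos hr n).ne'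
  have h := exp_series (g := fun n => g n / r ^ n) (b := fun n => b n / r ^ n) (by simp [g0]) (fun n => ?_)
    (fun n => ?_) hr.le hr1
  · obtain ⟨h1, h2, h3⟩ := h
    have e1 : ∀ n : ℕ, g n / r ^ n * r ^ n = g n := fun n => div_mul_cancel₀ _ (hrn n)
    have e2 : ∀ n : ℕ, b (n + 1) / r ^ (n + 1) / (n + 1) * r ^ (n + 1) = b (n + 1) / (n + 1) := by
      intro n
      have := hrn (n + 1)
      have h4 : (n : ℝ) + 1 ≠ 0 := by positivity
      field_simp
    refine ⟨?_, ?_, ?_⟩
    · refine h1.of_norm.congr fun n => e1 n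
    · refine h2.congr fun n => e2 n
    · rw [tsum_congr e1, tsum_congr e2] at h3
      exact h3
  · rw [← mul_div_assoc, hrec n, sum_div]
    apply sum_congr rfl
    intro i hi
    rw [mem_range] at hi
    have h2 : r ^ n = r ^ (i + 1) * r ^ (n - 1 - i) := by rw [← pow_add]; congr 1; omega
    rw [h2]
    field_simp
  · rw [abs_div, abs_of_pos (pow_pos hr (n + 1)), div_le_one (pow_pos hr _)]
    exact hb n

end Pool.Agent.H77.Col
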