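import Pool.Agent.H77.Col.WH
import Pool.Agent.H77.Col.ExpSer

/-! The constants of the law of the maximum excursion. -/

set_option autoImplicit false

namespace Pool.Agent.H77.Col

open Finset Filter Topology

/-- the number of 0-1 words of length `k` with `s` ones all whose nonempty prefixes have `2^length < 3^ones` -/
def rising : ℕ → ℕ → ℕ
  | 0, s => if s = 0 then 1 else 0
  | k + 1, s => if 2 ^ (k + 1) < 3 ^ s then rising k s + (if s = 0 then 0 else rising k (s - 1)) else 0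

def falling : ℕ → ℕ → ℕ
  | 0, s => if s = 0 then 1 else 0
  | k + 1, s => if 3 ^ s < 2 ^ (k + 1) then falling k s + (if s = 0 then 0 else falling k (s - 1)) else 0

theorem rising_eq (k s : ℕ) : rising k s = wA (fun n s => 2 ^ n < 3 ^ s) k s := by
  induction k generalizing s with
  | zero => rfl
  | succ k ih => rw [wA_succ, rising, ih, ih]

theorem falling_eq (k s : ℕ) : falling k s = wA (fun n s => 3 ^ s < 2 ^ n) k s := by
  induction k generalizing s with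
  | zero => rfl
  | succ k ih => rw [wA_succ, falling, ih, ih]

/-- `E[exp(σ S_k) ; S_k > 0]` for the random walk with the steps `log(3/2)`, `-log 2` -/
noncomputable def up (k : ℕ) (σ : ℝ) : ℝ :=
  ∑ s ∈ range (k + 1), if 2 ^ k < 3 ^ s then (k.choose s : ℝ) / 2 ^ k * ((3 : ℝ) ^ s / 2 ^ k) ^ σ else 0

noncomputable def dn (k : ℕ) (σ : ℝ) : ℝ :=
  ∑ s ∈ range (k + 1), if 3 ^ s < 2 ^ k then (k.choose s : ℝ) / 2 ^ k * ((3 : ℝ) ^ s / 2 ^ k) ^ σ else 0

noncomputable def rs (k : ℕ) (σ : ℝ) : ℝ :=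
  ∑ s ∈ range (k + 1), (rising k s : ℝ) / 2 ^ k * ((3 : ℝ) ^ s / 2 ^ k) ^ σ

noncomputable def fs (k : ℕ) (σ : ℝ) : ℝ :=
  ∑ s ∈ range (k + 1), (falling k s : ℝ) / 2 ^ k * ((3 : ℝ) ^ s / 2 ^ k) ^ σ

/-- `E[exp(σ S_1)]` -/
noncomputable def phi (σ : ℝ) : ℝ := ((1 / 2 : ℝ) ^ σ + (3 / 2 : ℝ) ^ σ) / 2

theorem pow_ratio (s k : ℕ) (σ : ℝ) :
    ((3 : ℝ) ^ s / 2 ^ k) ^ σ = ((3 : ℝ) ^ σ) ^ s * ((1 / 2 : ℝ) ^ σ) ^ k := by
  rw [div_eq_mul_inv, Real.mul_rpow (by positivity) (by positivity), ← Real.rpow_natCast 3 s,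
    ← Real.rpow_mul (by norm_num), mul_comm (s : ℝ) σ, Real.rpow_mul (by norm_num), Real.rpow_natCast]
  congr 1
  rw [← inv_pow, ← Real.rpow_natCast (2⁻¹) k, ← Real.rpow_mul (by norm_num), mul_comm (k : ℝ) σ,
    Real.rpow_mul (by norm_num), Real.rpow_natCast]
  norm_num

theorem ne_pow {k s : ℕ} (hk : 1 ≤ k) : (3 : ℕ) ^ s ≠ 2 ^ k := by
  intro h
  have h1 : 2 ∣ 3 ^ s := by rw [h]; exact dvd_pow_self 2 (by omega)
  have := (Nat.prime_two.dvd_of_dvd_pow h1)
  omega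

theorem up_nonneg (k : ℕ) (σ : ℝ) : 0 ≤ up k σ := by
  unfold up; apply sum_nonneg; intro s _; split_ifs <;> positivity
theorem dn_nonneg (k : ℕ) (σ : ℝ) : 0 ≤ dn k σ := by
  unfold dn; apply sum_nonneg; intro s _; split_ifs <;> positivity
theorem rs_nonneg (k : ℕ) (σ : ℝ) : 0 ≤ rs k σ := by
  unfold rs; apply sum_nonneg; intro s _; positivity
theorem fs_nonneg (k : ℕ) (σ : ℝ) : 0 ≤ fs k σ := by
  unfold fs; apply sum_nonneg; intro s _; positivity

theorem total (k : ℕ) (σ : ℝ) :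
    ∑ s ∈ range (k + 1), (k.choose s : ℝ) / 2 ^ k * ((3 : ℝ) ^ s / 2 ^ k) ^ σ = phi σ ^ k := by
  unfold phi
  have h32 : (3 / 2 : ℝ) ^ σ = (3 : ℝ) ^ σ * (1 / 2 : ℝ) ^ σ := by
    rw [← Real.mul_rpow (by norm_num) (by norm_num)]; norm_num
  have e : ((1 / 2 : ℝ) ^ σ + (3 / 2 : ℝ) ^ σ) / 2 = ((3 : ℝ) ^ σ + 1) * ((1 / 2 : ℝ) ^ σ * (1 / 2)) := by
    rw [h32]; ring
  rw [e, mul_pow, add_pow, sum_mul]
  apply sum_congr rfl
  intro s _
  rw [pow_ratio, mul_pow, one_pow, div_eq_mul_inv, ← inv_pow]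
  norm_num
  ring

theorem up_add_dn {k : ℕ} (hk : 1 ≤ k) (σ : ℝ) : up k σ + dn k σ = phi σ ^ k := by
  rw [← total]
  unfold up dn
  rw [← sum_add_distrib]
  apply sum_congr rfl
  intro s _
  have := ne_pow (s := s) hk
  rcases lt_or_gt_of_ne this with h | h
  · rw [if_neg (by omega), if_pos h, zero_add]
  · rw [if_pos h, if_neg (by omega), add_zero]

theorem phi_nonneg (σ : ℝ) : 0 ≤ phi σ := by unfold phi; positivity
theorem phi_pos (σ : ℝ) : 0 < phi σ := by unfold phi; positivity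

theorem phi_zero : phi 0 = 1 := by unfold phi; norm_num
theorem phi_one : phi 1 = 1 := by unfold phi; norm_num

theorem phi_lt {σ : ℝ} (h0 : 0 < σ) (h1 : σ < 1) : phi σ < 1 := by
  unfold phi
  have a := rpow_one_add_lt_one_add_mul_self (s := (-(1 / 2) : ℝ)) (by norm_num) (by norm_num) h0 h1
  have b := rpow_one_add_lt_one_add_mul_self (s := (1 / 2 : ℝ)) (by norm_num) (by norm_num) h0 h1
  norm_num at a b ⊢
  linarith

theorem up_le {σ τ : ℝ} (h : σ ≤ τ) (k : ℕ) : up k σ ≤ phi τ ^ k := by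
  rw [← total]
  unfold up
  apply sum_le_sum
  intro s _
  split_ifs with h1
  · apply mul_le_mul_of_nonneg_left _ (by positivity)
    apply Real.rpow_le_rpow_of_exponent_le _ h
    rw [le_div_iff₀ (by positivity), one_mul]
    exact_mod_cast h1.le
  · positivity

theorem dn_le {σ τ : ℝ} (h : τ ≤ σ) (k : ℕ) : dn k σ ≤ phi τ ^ k := by
  rw [← total]
  unfold dn
  apply sum_le_sum
  intro s _
  split_ifs with h1
  · apply mul_le_mul_of_nonneg_left _ (by positivity)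
    apply Real.rpow_le_rpow_of_exponent_ge (by positivity) _ h
    rw [div_le_one (by positivity)]
    exact_mod_cast h1.le
  · positivity

theorem rs_eq (k : ℕ) (σ : ℝ) : rs k σ =
    wsum (fun n s => 2 ^ n < 3 ^ s) ((3 : ℝ) ^ σ) k * ((1 / 2 : ℝ) ^ σ * (1 / 2)) ^ k := by
  unfold rs wsum
  rw [sum_mul]
  apply sum_congr rfl
  intro s _
  rw [pow_ratio, rising_eq, mul_pow, div_eq_mul_inv, ← inv_pow]
  norm_num
  ring

theorem fs_eq (k : ℕ) (σ : ℝ) : fs k σ =
    wsum (fun n s => 3 ^ s < 2 ^ n) ((3 : ℝ) ^ σ) k * ((1 / 2 : ℝ) ^ σ * (1 / 2)) ^ k := by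
  unfold fs wsum
  rw [sum_mul]
  apply sum_congr rfl
  intro s _
  rw [pow_ratio, falling_eq, mul_pow, div_eq_mul_inv, ← inv_pow]
  norm_num
  ring

theorem up_eq (k : ℕ) (σ : ℝ) : up k σ =
    asum (fun n s => 2 ^ n < 3 ^ s) ((3 : ℝ) ^ σ) k * ((1 / 2 : ℝ) ^ σ * (1 / 2)) ^ k := by
  unfold up asum
  rw [sum_mul]
  apply sum_congr rfl
  intro s _
  split_ifs
  · rw [pow_ratio, mul_pow, div_eq_mul_inv, ← inv_pow]
    norm_num
    ring
  · ring

theorem dn_eq (k : ℕ) (σ : ℝ) : dn k σ =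
    asum (fun n s => 3 ^ s < 2 ^ n) ((3 : ℝ) ^ σ) k * ((1 / 2 : ℝ) ^ σ * (1 / 2)) ^ k := by
  unfold dn asum
  rw [sum_mul]
  apply sum_congr rfl
  intro s _
  split_ifs
  · rw [pow_ratio, mul_pow, div_eq_mul_inv, ← inv_pow]
    norm_num
    ring
  · ring

theorem rs_rec (σ : ℝ) (n : ℕ) : (n : ℝ) * rs n σ = ∑ i ∈ range n, up (i + 1) σ * rs (n - 1 - i) σ := by
  have h := spitzer (fun n s => 2 ^ n < 3 ^ s) (fun n m s t _ _ h1 h2 => ?_) (fun n m s t _ _ h1 h2 => ?_)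
    ((3 : ℝ) ^ σ) n
  · rw [rs_eq, ← mul_assoc, h, sum_mul]
    apply sum_congr rfl
    intro i hi
    rw [mem_range] at hi
    rw [up_eq, rs_eq]
    have h2 : ((1 / 2 : ℝ) ^ σ * (1 / 2)) ^ n = ((1 / 2 : ℝ) ^ σ * (1 / 2)) ^ (i + 1) *
      ((1 / 2 : ℝ) ^ σ * (1 / 2)) ^ (n - 1 - i) := by rw [← pow_add]; congr 1; omega
    rw [h2]; ring
  · rw [pow_add, pow_add]
    exact Nat.mul_lt_mul_of_lt_of_lt h1 h2
  · simp only [not_lt] at h1 h2 ⊢
    rw [pow_add, pow_add]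
    exact Nat.mul_le_mul h1 h2

theorem fs_rec (σ : ℝ) (n : ℕ) : (n : ℝ) * fs n σ = ∑ i ∈ range n, dn (i + 1) σ * fs (n - 1 - i) σ := by
  have h := spitzer (fun n s => 3 ^ s < 2 ^ n) (fun n m s t _ _ h1 h2 => ?_) (fun n m s t _ _ h1 h2 => ?_)
    ((3 : ℝ) ^ σ) n
  · rw [fs_eq, ← mul_assoc, h, sum_mul]
    apply sum_congr rfl
    intro i hi
    rw [mem_range] at hi
    rw [dn_eq, fs_eq]
    have h2 : ((1 / 2 : ℝ) ^ σ * (1 / 2)) ^ n = ((1 / 2 : ℝ) ^ σ * (1 / 2)) ^ (i + 1) *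
      ((1 / 2 : ℝ) ^ σ * (1 / 2)) ^ (n - 1 - i) := by rw [← pow_add]; congr 1; omega
    rw [h2]; ring
  · rw [pow_add, pow_add]
    exact Nat.mul_lt_mul_of_lt_of_lt h1 h2
  · simp only [not_lt] at h1 h2 ⊢
    rw [pow_add, pow_add]
    exact Nat.mul_le_mul h1 h2

theorem rs_zero (σ : ℝ) : rs 0 σ = 1 := by unfold rs; simp [rising]
theorem fs_zero (σ : ℝ) : fs 0 σ = 1 := by unfold fs; simp [falling]

/-- THE GENERATING FUNCTION of the rising words -/
theorem rs_gen {σ z : ℝ} (hσ : σ < 1) (hz : 0 ≤ z) (hz1 : z ≤ 1) :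
    (Summable fun k => z ^ k * rs k σ) ∧ (Summable fun k : ℕ => z ^ (k + 1) / (k + 1) * up (k + 1) σ) ∧
    ∑' k, z ^ k * rs k σ = Real.exp (∑' k : ℕ, z ^ (k + 1) / (k + 1) * up (k + 1) σ) := by
  set τ := max σ (1 / 2) with hτ
  have hτ0 : 0 < τ := lt_of_lt_of_le (by norm_num) (le_max_right _ _)
  have hτ1 : τ < 1 := max_lt hσ (by norm_num)
  have h := exp_series_one (g := fun k => z ^ k * rs k σ) (b := fun k => z ^ k * up k σ) (by simp [rs_zero])
    (fun n => ?_) (phi_pos τ) (phi_lt hτ0 hτ1) (fun n => ?_)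
  · obtain ⟨h1, h2, h3⟩ := h
    have e : ∀ k : ℕ, z ^ (k + 1) * up (k + 1) σ / (k + 1) = z ^ (k + 1) / (k + 1) * up (k + 1) σ :=
      fun k => by ring
    refine ⟨h1, h2.congr fun k => e k, ?_⟩
    rw [h3]
    congr 1
    exact tsum_congr e
  · have h1 := rs_rec σ n
    calc (n : ℝ) * (z ^ n * rs n σ) = z ^ n * ((n : ℝ) * rs n σ) := by ring
      _ = _ := by
        rw [h1, mul_sum]
        apply sum_congr rfl
        intro i hi
        rw [mem_range] at hi
        have h2 : z ^ n = z ^ (i + 1) * z ^ (n - 1 - i) := by rw [← pow_add]; congr 1; omega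
        rw [h2]; ring
  · rw [abs_of_nonneg (mul_nonneg (pow_nonneg hz _) (up_nonneg _ _))]
    calc z ^ (n + 1) * up (n + 1) σ ≤ 1 * phi τ ^ (n + 1) :=
          mul_le_mul (pow_le_one₀ hz hz1) (up_le (le_max_left _ _) _) (up_nonneg _ _) (by norm_num)
      _ = _ := one_mul _

/-- the density of the numbers which are the maximum of their trajectory, among those of finite excursion -/
noncomputable def varpi : ℝ := Real.exp (-∑' k : ℕ, up (k + 1) 0 / (k + 1))

theorem varpi_pos : 0 < varpi := Real.exp_pos _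

theorem rs_sum : (Summable fun k => rs k 0) ∧ ∑' k, rs k 0 = varpi⁻¹ := by
  obtain ⟨h1, _, h3⟩ := rs_gen (σ := 0) (z := 1) (by norm_num) (by norm_num) le_rfl
  simp only [one_pow, one_mul] at h1 h3
  refine ⟨h1, ?_⟩
  rw [h3, varpi, Real.exp_neg, inv_inv]
  congr 1
  apply tsum_congr
  intro k
  ring

theorem up_summable (σ : ℝ) (hσ : σ < 1) : Summable fun k : ℕ => up (k + 1) σ / (k + 1) := by
  obtain ⟨_, h2, _⟩ := rs_gen (σ := σ) (z := 1) hσ (by norm_num) le_rfl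
  refine h2.congr fun k => ?_
  rw [one_pow]; ring

/-- the limit of the proportion of the falling words -/
theorem fs_tendsto {L : ℝ} (hL : Tendsto (fun n => fs n 0) atTop (𝓝 L)) : L = varpi := by
  have h01 : ∀ n, |dn (n + 1) 0| ≤ 1 := by
    intro n
    rw [abs_of_nonneg (dn_nonneg _ _)]
    refine (dn_le le_rfl _).trans ?_
    rw [phi_zero, one_pow]
  have hgen : ∀ z : ℝ, 0 ≤ z → z < 1 → (Summable fun n => ‖fs n 0 * z ^ n‖) ∧
      (1 - z) * ∑' n, fs n 0 * z ^ n = Real.exp (-∑' n : ℕ, up (n + 1) 0 / (n + 1) * z ^ (n + 1)) := by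
    intro z hz hz1
    obtain ⟨h1, h2, h3⟩ := exp_series (g := fun n => fs n 0) (b := fun n => dn n 0) (fs_zero 0) (fs_rec 0) h01 hz hz1
    refine ⟨h1, ?_⟩
    rw [h3]
    have hlog := Real.hasSum_pow_div_log_of_abs_lt_one (x := z) (by rw [abs_of_nonneg hz]; exact hz1)
    have hup : Summable (fun n : ℕ => up (n + 1) 0 / (n + 1) * z ^ (n + 1)) := by
      refine Summable.of_nonneg_of_le (fun n => ?_) (fun n => ?_) (up_summable 0 (by norm_num))
      · exact mul_nonneg (div_nonneg (up_nonneg _ _) (by positivity)) (pow_nonneg hz _)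
      · exact mul_le_of_le_one_right (div_nonneg (up_nonneg _ _) (by positivity)) (pow_le_one₀ hz hz1.le)
    have e : ∀ n : ℕ, dn (n + 1) 0 / (n + 1) * z ^ (n + 1) = z ^ (n + 1) / (n + 1) -
        up (n + 1) 0 / (n + 1) * z ^ (n + 1) := by
      intro n
      have h4 := up_add_dn (k := n + 1) (by omega) 0
      rw [phi_zero, one_pow] at h4
      have h5 : dn (n + 1) 0 = 1 - up (n + 1) 0 := by linarith
      rw [h5]; ring
    have h6 : (1 - z) ≠ 0 := by linarith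
    rw [tsum_congr e, hlog.summable.tsum_sub hup, hlog.tsum_eq, Real.exp_sub, Real.exp_neg,
      Real.exp_log (by linarith), Real.exp_neg]
    field_simp
  -- Abel
  set d : ℕ → ℝ := fun n => if n = 0 then fs 0 0 else fs n 0 - fs (n - 1) 0 with hd
  have hsum : ∀ n, ∑ i ∈ range (n + 1), d i = fs n 0 := by
    intro n
    induction n with
    | zero => simp [hd]
    | succ n ih => rw [sum_range_succ, ih]; simp [hd]
  have hlim1 : Tendsto (fun n => ∑ i ∈ range n, d i) atTop (𝓝 L) := by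
    rw [← tendsto_add_atTop_iff_nat 1]
    refine hL.congr fun n => (hsum n).symm
  have habel := Real.tendsto_tsum_powerSeries_nhdsWithin_lt hlim1
  have hd2 : ∀ z : ℝ, 0 ≤ z → z < 1 → ∑' n, d n * z ^ n = (1 - z) * ∑' n, fs n 0 * z ^ n := by
    intro z hz hz1
    have h1 := (hgen z hz hz1).1.of_norm
    have h2 : Summable (fun n => d n * z ^ n) := by
      rw [← summable_nat_add_iff 1]
      have h3 := ((summable_nat_add_iff 1).2 h1).sub (h1.mul_left z)
      refine h3.congr fun n => ?_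
      simp [hd]; ring
    have h3 : ∑' n, d (n + 1) * z ^ (n + 1) = ∑' n, fs (n + 1) 0 * z ^ (n + 1) - ∑' n, z * (fs n 0 * z ^ n) := by
      rw [← ((summable_nat_add_iff 1).2 h1).tsum_sub (h1.mul_left z)]
      apply tsum_congr
      intro n
      simp [hd]; ring
    have h4 : ∑' n, z * (fs n 0 * z ^ n) = z * ∑' n, (fs n 0 * z ^ n) := tsum_mul_left
    have h5 := h1.tsum_eq_zero_add
    have h6 : d 0 = fs 0 0 := by simp [hd]
    rw [h2.tsum_eq_zero_add, h3, h4, h6]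
    linarith
  have hup0 := up_summable 0 (by norm_num)
  have hlim2 : Tendsto (fun z : ℝ => Real.exp (-∑' n : ℕ, up (n + 1) 0 / (n + 1) * z ^ (n + 1))) (𝓝[<] 1)
      (𝓝 varpi) := by
    unfold varpi
    apply (Real.continuous_exp.tendsto _).comp
    apply Tendsto.neg
    have e : ∑' k : ℕ, up (k + 1) 0 / (k + 1) = ∑' k : ℕ, up (k + 1) 0 / (k + 1) * 1 ^ (k + 1) := by
      apply tsum_congr; intro k; rw [one_pow, mul_one]
    rw [e]
    apply tendsto_tsum_of_dominated_convergence hup0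
    · intro k
      apply Tendsto.mul tendsto_const_nhds
      exact ((continuous_pow (k + 1)).tendsto 1).mono_left nhdsWithin_le_nhds
    · filter_upwards [Ioo_mem_nhdsLT (show (0 : ℝ) < 1 by norm_num)] with z hz k
      rw [Real.norm_eq_abs, abs_of_nonneg (mul_nonneg (div_nonneg (up_nonneg _ _) (by positivity))
        (pow_nonneg hz.1.le _))]
      exact mul_le_of_le_one_right (div_nonneg (up_nonneg _ _) (by positivity)) (pow_le_one₀ hz.1.le hz.2.le)
  refine tendsto_nhds_unique habel (hlim2.congr' ?_)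
  filter_upwards [Ioo_mem_nhdsLT (show (0 : ℝ) < 1 by norm_num)] with z hz
  rw [hd2 z hz.1.le hz.2, (hgen z hz.1.le hz.2).2]

end Pool.Agent.H77.Col
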