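import Pool.Agent.H77.Col.Tail

/-! The fibres of the maximum: residues modulo powers of 3. -/

set_option autoImplicit false

namespace Pool.Agent.H77.Col

open Finset Filter Topology
open Pool.Agent.Helper894.Collatz (T od er od_add od_succ period iter_eq lt_pow)
open Pool.Agent.H499R2.ND

/-- `m` is the maximum of its trajectory -/
def IsMax (m : ℕ) : Prop := ∀ j, T^[j] m ≤ m

theorem isMax_bdd {m : ℕ} (h : IsMax m) : Bdd m := ⟨m, fun k => h k⟩

/-- an affine bijection of the residues -/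
theorem card_affine' {P : ℕ → Prop} [DecidablePred P] {b : ℕ} (hP : ∀ n, P (n % 2 ^ b) ↔ P n) (c : ℕ) {u : ℕ}
    (hu : u % 2 = 1) :
    ((range (2 ^ b)).filter (fun m => P (c + u * m))).card = ((range (2 ^ b)).filter P).card := by
  have hpos : 0 < 2 ^ b := by positivity
  set f : ℕ → ℕ := fun m => (c + u * m) % 2 ^ b with hf
  have hinj : Set.InjOn f (range (2 ^ b) : Set ℕ) := by
    intro x hx y hy h
    rw [mem_coe, mem_range] at hx hy
    have h1 : c + u * x ≡ c + u * y [MOD 2 ^ b] := h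
    have h2 := Nat.ModEq.add_left_cancel' c h1
    have h3 : Nat.Coprime (2 ^ b) u := by
      apply Nat.Coprime.pow_left
      rw [Nat.coprime_two_left, Nat.odd_iff]
      exact hu
    have h4 := Nat.ModEq.cancel_left_of_coprime h3 h2
    exact Nat.ModEq.eq_of_lt_of_lt h4 hx hy
  have himg : (range (2 ^ b)).image f = range (2 ^ b) := by
    apply eq_of_subset_of_card_le
    · intro y hy
      rw [mem_image] at hy
      obtain ⟨x, _, rfl⟩ := hy
      exact mem_range.2 (Nat.mod_lt _ hpos)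
    · rw [card_image_of_injOn hinj]
  have h1 : (range (2 ^ b)).filter P = ((range (2 ^ b)).filter (fun m => P (c + u * m))).image f := by
    ext y
    rw [mem_filter, mem_image]
    constructor
    · rintro ⟨hy, hPy⟩
      rw [← himg, mem_image] at hy
      obtain ⟨x, hx, rfl⟩ := hy
      refine ⟨x, mem_filter.2 ⟨hx, ?_⟩, rfl⟩
      exact (hP _).1 hPy
    · rintro ⟨x, hx, rfl⟩
      rw [mem_filter] at hx
      exact ⟨mem_range.2 (Nat.mod_lt _ hpos), (hP _).2 hx.2⟩
  rw [h1, card_image_of_injOn]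
  exact hinj.mono fun x hx => (mem_filter.1 hx).1

theorem card_crt {P : ℕ → Prop} [DecidablePred P] {b : ℕ} (hP : ∀ n, P (n % 2 ^ b) ↔ P n) (c : ℕ) {q : ℕ}
    (hq : q % 2 = 1) :
    ((range (2 ^ b * q)).filter (fun r => P r ∧ r % q = c % q)).card = ((range (2 ^ b)).filter P).card := by
  have hq0 : 0 < q := by omega
  rw [← card_affine' hP (c % q) hq]
  symm
  apply card_bij (fun m _ => c % q + q * m)
  · intro m hm
    rw [mem_filter, mem_range] at hm
    rw [mem_filter, mem_range]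
    refine ⟨?_, hm.2, ?_⟩
    · calc c % q + q * m < q + q * m := by have := Nat.mod_lt c hq0; omega
        _ = q * (m + 1) := by ring
        _ ≤ q * 2 ^ b := Nat.mul_le_mul_left _ hm.1
        _ = 2 ^ b * q := mul_comm _ _
    · rw [Nat.add_mul_mod_self_left, Nat.mod_mod]
  · intro m _ m' _ h
    have : q * m = q * m' := by omega
    exact Nat.eq_of_mul_eq_mul_left hq0 this
  · intro r hr
    rw [mem_filter, mem_range] at hr
    refine ⟨r / q, ?_, ?_⟩
    · rw [mem_filter, mem_range]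
      have e : c % q + q * (r / q) = r := by rw [← hr.2.2, Nat.mod_add_div]
      refine ⟨?_, by rw [e]; exact hr.2.1⟩
      rw [Nat.div_lt_iff_lt_mul hq0]; exact hr.1
    · rw [← hr.2.2, Nat.mod_add_div]

/-- THE NUMBERS WHICH ARE THE MAXIMUM OF THEIR TRAJECTORY ARE EQUIDISTRIBUTED MODULO ODD `q` -/
theorem max_prog {β : ℝ} (hβ : Dn Bdd β) {q : ℕ} (hq : q % 2 = 1) (c : ℕ) :
    Dn (fun n => n % q = c % q ∧ IsMax n) (β * varpi / q) := by
  classical
  have hq0 : 0 < q := by omega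
  have hqR : (0 : ℝ) < q := by exact_mod_cast hq0
  have happ : ∀ K, Dn (fun n => (AK K 1 n ∧ n % q = c % q) ∧ Bdd n) (β * rK K 1 / q) := by
    intro K
    have h := dn_res Bdd_inv hβ (q := 2 ^ K * q) (by positivity)
      (R := (range (2 ^ K * q)).filter (fun r => AK K 1 r ∧ r % q = c % q))
      (fun r hr => mem_range.1 (mem_filter.1 hr).1)
    have e : (fun n => n % (2 ^ K * q) ∈ (range (2 ^ K * q)).filter (fun r => AK K 1 r ∧ r % q = c % q) ∧ Bdd n)
        = fun n => (AK K 1 n ∧ n % q = c % q) ∧ Bdd n := by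
      funext n
      rw [mem_filter, mem_range]
      have h1 : n % (2 ^ K * q) < 2 ^ K * q := Nat.mod_lt _ (by positivity)
      have h2 : AK K 1 (n % (2 ^ K * q)) ↔ AK K 1 n := by
        rw [← AK_mod, Nat.mod_mod_of_dvd _ (dvd_mul_right _ _), AK_mod]
      have h3 : n % (2 ^ K * q) % q = n % q := Nat.mod_mod_of_dvd _ (dvd_mul_left _ _)
      rw [h2, h3]
      simp [h1]
    rw [e, card_crt (AK_mod K 1) c hq] at h
    have e2 : β * rK K 1 / q = (((range (2 ^ K)).filter (AK K 1)).card : ℝ) * (β / ((2 ^ K * q : ℕ) : ℝ)) := by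
      unfold rK
      push_cast
      field_simp
    rw [e2]
    exact h
  unfold Dn
  rw [Metric.tendsto_atTop]
  intro ε hε
  obtain ⟨K₀, hK₀⟩ := late_all (ε := ε / 8) (by positivity)
  have hlim : Tendsto (fun K => |β * rK K 1 / q - β * varpi / q|) atTop (𝓝 0) := by
    have h3 := (((rK_tendsto.const_mul β).div_const (q : ℝ))).sub_const (β * varpi / q)
    rw [sub_self] at h3
    simpa using h3.abs
  obtain ⟨K, hK1, hK2⟩ := ((hlim.eventually (gt_mem_nhds (show (0 : ℝ) < ε / 4 by positivity))).and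
    (eventually_ge_atTop K₀)).exists
  obtain ⟨N1, hN1⟩ := Metric.tendsto_atTop.1 (happ K) (ε / 4) (by positivity)
  obtain ⟨N2, hN2⟩ := eventually_atTop.1 (hK₀ K hK2)
  obtain ⟨N3, hN3⟩ := eventually_atTop.1 (zd_iff.1 (zd_bdd (3 ^ K : ℕ)) (ε / 8) (by positivity))
  refine ⟨max (max N1 N2) (max N3 1), fun N hN => ?_⟩
  have g1 := hN1 N ((le_max_left _ _).trans ((le_max_left _ _).trans hN))
  have g2 := hN2 N ((le_max_right _ _).trans ((le_max_left _ _).trans hN))
  have g3 := hN3 N ((le_max_left _ _).trans ((le_max_right _ _).trans hN))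
  have g4 : 1 ≤ N := (le_max_right _ _).trans ((le_max_right _ _).trans hN)
  have hNR : (0 : ℝ) < N := by exact_mod_cast g4
  have i1 : cnt (fun n => n % q = c % q ∧ IsMax n) N ≤ cnt (fun n => (AK K 1 n ∧ n % q = c % q) ∧ Bdd n) N := by
    refine cnt_mono N fun n hn _ h => ⟨⟨?_, h.1⟩, isMax_bdd h.2⟩
    apply AK_of_bound le_rfl hn
    intro i
    rw [one_mul, ← Tn_eq]
    exact_mod_cast h.2 i
  have i2 : cnt (fun n => (AK K 1 n ∧ n % q = c % q) ∧ Bdd n) N ≤ cnt (fun n => n % q = c % q ∧ IsMax n) N +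
      (cnt (fun n => Bdd n ∧ ∃ i, K ≤ i ∧ n ≤ T^[i] n) N + cnt (fun n : ℕ => (n : ℝ) ≤ (3 ^ K : ℕ)) N) := by
    refine (cnt_or N (Q := fun n => n % q = c % q ∧ IsMax n)
      (R := fun n => (Bdd n ∧ ∃ i, K ≤ i ∧ n ≤ T^[i] n) ∨ (n : ℝ) ≤ (3 ^ K : ℕ)) fun n hn _ hp => ?_).trans
      (add_le_add le_rfl (cnt_or N fun n _ _ h => h))
    obtain ⟨⟨h1, h2⟩, hB⟩ := hp
    by_cases hbn : (n : ℝ) ≤ (3 ^ K : ℕ)
    · exact Or.inr (Or.inr hbn)
    by_cases hE : ∃ i, K ≤ i ∧ n ≤ T^[i] n
    · exact Or.inr (Or.inl ⟨hB, hE⟩)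
    left
    refine ⟨h2, fun j => ?_⟩
    have hn3 : 3 ^ K ≤ n := by
      by_contra h
      push Not at h
      exact hbn (by exact_mod_cast h.le)
    rcases Nat.lt_or_ge j K with h5 | h5
    · exact le_of_AK h1 hn3 h5.le
    · by_contra hcon
      push Not at hcon
      exact hE ⟨j, h5, hcon.le⟩
  have g6 : |cnt (fun n => n % q = c % q ∧ IsMax n) N / N - cnt (fun n => (AK K 1 n ∧ n % q = c % q) ∧ Bdd n) N / N|
      ≤ 2 * (ε / 8) := by
    rw [← sub_div, abs_div, abs_of_pos hNR, div_le_iff₀ hNR, abs_le]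
    constructor
    · linarith
    · have : 0 ≤ 2 * (ε / 8) * N := by positivity
      linarith
  rw [Real.dist_eq] at g1 ⊢
  calc |cnt (fun n => n % q = c % q ∧ IsMax n) N / N - β * varpi / q|
      = |(cnt (fun n => n % q = c % q ∧ IsMax n) N / N - cnt (fun n => (AK K 1 n ∧ n % q = c % q) ∧ Bdd n) N / N)
        + (cnt (fun n => (AK K 1 n ∧ n % q = c % q) ∧ Bdd n) N / N - β * rK K 1 / q) +
        (β * rK K 1 / q - β * varpi / q)| := by
        congr 1; ring
    _ ≤ 2 * (ε / 8) + ε / 4 + ε / 4 := by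
        refine (abs_add_le _ _).trans (add_le_add ((abs_add_le _ _).trans (add_le_add g6 g1.le)) hK1.le)
    _ < ε := by linarith

end Pool.Agent.H77.Col
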