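import Pool.Agent.H77.Col.Fibre

/-! The fibres of the maximum: counting. -/

set_option autoImplicit false

namespace Pool.Agent.H77.Col

open Finset Filter Topology
open Pool.Agent.Helper894.Collatz (T od er od_add od_succ period iter_eq lt_pow)
open Pool.Agent.H499R2.ND

/-- the words of length `≤ J`, as residues -/
def SJ (J : ℕ) : Finset (Σ _ : ℕ, ℕ) := (range (J + 1)).sigma (fun k => range (2 ^ k))

open scoped Classical in
/-- the number of the words of length `≤ J` with position in `A` leading to `m`, depending only on `m` mod `3^J` -/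
noncomputable def NR (A : Set (ℕ × ℕ)) (J m : ℕ) : ℕ :=
  ((SJ J).filter (fun x => (x.1, od x.1 x.2) ∈ A ∧ Q x.1 (od x.1 x.2) x.2 ∧
    T^[x.1] x.2 % 3 ^ od x.1 x.2 = m % 3 ^ od x.1 x.2)).card

/-- the starting values with the maximum `m` and position in `A` -/
def Fib (A : Set (ℕ × ℕ)) (m : ℕ) : Set ℕ := {n | 1 ≤ n ∧ ∃ p ∈ A, PeakAt p.1 p.2 n ∧ T^[p.1] n = m}

def FibJ (A : Set (ℕ × ℕ)) (J m : ℕ) : Set ℕ :=
  {n | 1 ≤ n ∧ ∃ p ∈ A, p.1 ≤ J ∧ PeakAt p.1 p.2 n ∧ T^[p.1] n = m}

theorem Fib_finite (A : Set (ℕ × ℕ)) (m : ℕ) : (Fib A m).Finite := by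
  refine (Set.finite_Icc 0 m).subset fun n hn => ?_
  obtain ⟨_, p, _, hP, he⟩ := hn
  refine ⟨Nat.zero_le _, ?_⟩
  have := hP.2.2 0
  rw [he] at this
  exact this

theorem FibJ_sub (A : Set (ℕ × ℕ)) (J m : ℕ) : FibJ A J m ⊆ Fib A m :=
  fun _ hn => ⟨hn.1, hn.2.choose, hn.2.choose_spec.1, hn.2.choose_spec.2.2⟩

theorem mod_of_dvd_pow {m s J : ℕ} (h : s ≤ J) : m % 3 ^ J % 3 ^ s = m % 3 ^ s :=
  Nat.mod_mod_of_dvd _ (pow_dvd_pow 3 h)

theorem NR_mod (A : Set (ℕ × ℕ)) (J m : ℕ) : NR A J (m % 3 ^ J) = NR A J m := by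
  classical
  unfold NR
  congr 1
  apply filter_congr
  intro x hx
  rw [SJ, mem_sigma, mem_range, mem_range] at hx
  have : od x.1 x.2 ≤ J := (Pool.Agent.H499R2.ND.od_le _ _).trans (by omega)
  rw [mod_of_dvd_pow this]

theorem NR_mono (A : Set (ℕ × ℕ)) {J J' : ℕ} (h : J ≤ J') (m : ℕ) : NR A J m ≤ NR A J' m := by
  classical
  unfold NR
  apply card_le_card
  apply filter_subset_filter
  unfold SJ
  apply sigma_mono _ (fun _ => le_rfl)
  exact range_mono (by omega)

/-- the fibre is counted by the residue -/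
theorem fib_card (A : Set (ℕ × ℕ)) (J : ℕ) {m : ℕ} (hm : IsMax m) (hbig : 3 ^ (2 * J + 1) ≤ m) :
    (FibJ A J m).ncard = NR A J m := by
  classical
  have hpow : 3 ^ J ≤ 3 ^ (2 * J + 1) := Nat.pow_le_pow_right (by norm_num) (by omega)
  have hm1 : 1 ≤ m := (Nat.one_le_pow _ _ (by norm_num)).trans hbig
  unfold NR
  rw [← Set.ncard_coe_finset]
  -- the map from the fibre
  symm
  apply Set.ncard_congr (fun (x : Σ _ : ℕ, ℕ) _ => x.2 + 2 ^ x.1 * ((m - T^[x.1] x.2) / 3 ^ od x.1 x.2))
  · rintro ⟨k, r⟩ hx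
    rw [mem_coe, mem_filter, SJ, mem_sigma, mem_range, mem_range] at hx
    simp only at hx ⊢
    obtain ⟨⟨hk, hr⟩, hA, hQ, hmod⟩ := hx
    set s := od k r with hs
    have hsk : s ≤ k := Pool.Agent.H499R2.ND.od_le _ _
    have hTr : T^[k] r < 3 ^ s := by
      have := lt_pow k r 1 (by omega)
      rwa [mul_one] at this
    have h3 : 3 ^ s ≤ 3 ^ J := Nat.pow_le_pow_right (by norm_num) (by omega)
    have hle : T^[k] r ≤ m := by omega
    have hdvd : 3 ^ s ∣ m - T^[k] r := (Nat.modEq_iff_dvd' hle).1 hmod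
    set a := (m - T^[k] r) / 3 ^ s with ha
    have hTn : T^[k] (r + 2 ^ k * a) = m := by
      rw [(period k r a).1, ← hs, ha, Nat.mul_div_cancel' hdvd]
      omega
    have hod : od k (r + 2 ^ k * a) = s := (period k r a).2.1
    have hQn : Q k s (r + 2 ^ k * a) := by
      rw [← Q_mod, Nat.add_mul_mod_self_left, Q_mod]; exact hQ
    have hn1 : 1 ≤ r + 2 ^ k * a := by
      by_contra h
      have h0 : r + 2 ^ k * a = 0 := by omega
      rw [h0] at hTn
      have : ∀ j, T^[j] 0 = 0 := by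
        intro j
        induction j with
        | zero => rfl
        | succ j ih => rw [Function.iterate_succ_apply', ih]; rfl
      rw [this] at hTn
      omega
    have hlt : ∀ j < k, T^[j] (r + 2 ^ k * a) < T^[k] (r + 2 ^ k * a) := by
      intro j hj
      have h4 := hQn.2 j hj
      rw [od_sub hj.le] at h4
      rw [T_iter_sub hj.le]
      exact lt_of_up (T_iter_pos hn1 j) h4
    refine ⟨hn1, (k, s), hA, by simp only; omega, ⟨hod, hlt, fun j => ?_⟩, hTn⟩
    simp only
    rcases Nat.lt_or_ge j k with hj | hj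
    · exact (hlt j hj).le
    · rw [T_iter_sub hj, hTn]
      exact hm _
  · rintro ⟨k, r⟩ ⟨k', r'⟩ hx hx' heq
    rw [mem_coe, mem_filter, SJ, mem_sigma, mem_range, mem_range] at hx hx'
    simp only at hx hx' heq
    -- both are positions of the same number
    have key : ∀ k r, (k < J + 1 ∧ r < 2 ^ k) → Q k (od k r) r → T^[k] r % 3 ^ od k r = m % 3 ^ od k r →
        T^[k] (r + 2 ^ k * ((m - T^[k] r) / 3 ^ od k r)) = m ∧
        (∀ j < k, T^[j] (r + 2 ^ k * ((m - T^[k] r) / 3 ^ od k r)) < m) := by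
      intro k r hkr hQ hmod
      set s := od k r with hs
      have hsk : s ≤ k := Pool.Agent.H499R2.ND.od_le _ _
      have hTr : T^[k] r < 3 ^ s := by
        have := lt_pow k r 1 (by omega)
        rwa [mul_one] at this
      have h3 : 3 ^ s ≤ 3 ^ J := Nat.pow_le_pow_right (by norm_num) (by omega)
      have hle : T^[k] r ≤ m := by omega
      have hdvd : 3 ^ s ∣ m - T^[k] r := (Nat.modEq_iff_dvd' hle).1 hmod
      set a := (m - T^[k] r) / 3 ^ s with ha
      have hTn : T^[k] (r + 2 ^ k * a) = m := by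
        rw [(period k r a).1, ← hs, ha, Nat.mul_div_cancel' hdvd]
        omega
      have hQn : Q k s (r + 2 ^ k * a) := by
        rw [← Q_mod, Nat.add_mul_mod_self_left, Q_mod]; exact hQ
      have hn1 : 1 ≤ r + 2 ^ k * a := by
        by_contra h
        have h0 : r + 2 ^ k * a = 0 := by omega
        rw [h0] at hTn
        have : ∀ j, T^[j] 0 = 0 := by
          intro j
          induction j with
          | zero => rfl
          | succ j ih => rw [Function.iterate_succ_apply', ih]; rfl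
        rw [this] at hTn
        omega
      refine ⟨hTn, fun j hj => ?_⟩
      have h4 := hQn.2 j hj
      rw [od_sub hj.le] at h4
      have h5 := lt_of_up (T_iter_pos hn1 j) h4
      rw [← T_iter_sub hj.le, hTn] at h5
      exact h5
    have h1 := key k r hx.1 hx.2.2.1 hx.2.2.2
    have h2 := key k' r' hx'.1 hx'.2.2.1 hx'.2.2.2
    rw [← heq] at h2
    have hkk : k = k' := by
      rcases lt_trichotomy k k' with h | h | h
      · have := h2.2 k h
        omega
      · exact h
      · have := h1.2 k' h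
        omega
    subst hkk
    have hrr : r = r' := by
      have := congrArg (· % 2 ^ k) heq
      simp only [Nat.add_mul_mod_self_left] at this
      rwa [Nat.mod_eq_of_lt hx.1.2, Nat.mod_eq_of_lt hx'.1.2] at this
    rw [hrr]
  · rintro n ⟨hn1, ⟨k, s⟩, hA, hkJ, ⟨hod, hlt, _⟩, hTn⟩
    simp only at hkJ hod hlt hTn hA
    refine ⟨⟨k, n % 2 ^ k⟩, ?_, ?_⟩
    · rw [mem_coe, mem_filter, SJ, mem_sigma, mem_range, mem_range]
      simp only
      have hpos : 0 < 2 ^ k := by positivity
      have hod' : od k (n % 2 ^ k) = s := by rw [od_mod k n le_rfl]; exact hod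
      refine ⟨⟨by omega, Nat.mod_lt _ hpos⟩, by rw [hod']; exact hA, ?_, ?_⟩
      · rw [hod', Q_mod]
        refine ⟨hod, fun j hj => ?_⟩
        rw [od_sub hj.le]
        apply up_of_lt
        · rw [← T_iter_sub hj.le]; exact hlt j hj
        · -- lower bound for the earlier terms
          set i := k - j with hi
          have h1 := iter_eq i (T^[j] n)
          rw [← T_iter_sub hj.le, hTn] at h1
          have h2 := er_le i (T^[j] n)
          have h3 : 3 ^ od i (T^[j] n) ≤ 3 ^ i := Nat.pow_le_pow_right (by norm_num) (Pool.Agent.H499R2.ND.od_le _ _)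
          have h4 : 3 ^ od i (T^[j] n) * T^[j] n ≤ 3 ^ i * T^[j] n := Nat.mul_le_mul_right _ h3
          have h5 : m ≤ 2 ^ i * m := Nat.le_mul_of_pos_left _ (by positivity)
          have h10 : 1 ≤ 2 ^ i := Nat.one_le_two_pow
          have h6 : m ≤ 3 ^ i * (T^[j] n + 1) := by
            have : 3 ^ i * (T^[j] n + 1) = 3 ^ i * T^[j] n + 3 ^ i := by ring
            omega
          by_contra hcon
          push Not at hcon
          have h7 : 3 ^ i * (T^[j] n + 1) ≤ 3 ^ i * 3 ^ i := Nat.mul_le_mul_left _ hcon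
          have h8 : 3 ^ i * 3 ^ i = 3 ^ (2 * i) := by rw [← pow_add]; congr 1; ring
          have h9 : 3 ^ (2 * i) < 3 ^ (2 * J + 1) := Nat.pow_lt_pow_right (by norm_num) (by omega)
          omega
      · have h1 := (period k (n % 2 ^ k) (n / 2 ^ k)).1
        rw [Nat.mod_add_div, hTn] at h1
        rw [h1, Nat.add_mul_mod_self_left]
    · simp only
      have h1 := (period k (n % 2 ^ k) (n / 2 ^ k)).1
      rw [Nat.mod_add_div, hTn] at h1
      have h2 : (m - T^[k] (n % 2 ^ k)) / 3 ^ od k (n % 2 ^ k) = n / 2 ^ k := by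
        rw [h1, Nat.add_sub_cancel_left, Nat.mul_div_cancel_left _ (by positivity)]
      rw [h2, Nat.mod_add_div]

end Pool.Agent.H77.Col
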