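import Pool.Agent.H77.Col.Fibre2

/-! The limit law of the size of the fibres of the maximum. -/

set_option autoImplicit false

namespace Pool.Agent.H77.Col

open Finset Filter Topology
open Pool.Agent.Helper894.Collatz (T od er od_add od_succ period iter_eq lt_pow)
open Pool.Agent.H499R2.ND

open scoped Classical in
/-- the proportion of the residues modulo `3^J` with at least `i` words -/
noncomputable def aJ (A : Set (ℕ × ℕ)) (J i : ℕ) : ℝ :=
  (((range (3 ^ J)).filter (fun c => i ≤ NR A J c)).card : ℝ) / 3 ^ J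

theorem aJ_nonneg (A : Set (ℕ × ℕ)) (J i : ℕ) : 0 ≤ aJ A J i := by unfold aJ; positivity

theorem aJ_le_one (A : Set (ℕ × ℕ)) (J i : ℕ) : aJ A J i ≤ 1 := by
  classical
  unfold aJ
  rw [div_le_one (by positivity)]
  have := card_filter_le (range (3 ^ J)) (fun c => i ≤ NR A J c)
  rw [card_range] at this
  exact_mod_cast this

/-- periodic predicates -/
theorem card_periodic {P : ℕ → Prop} [DecidablePred P] {q : ℕ} (hP : ∀ n, P (n % q) ↔ P n) (r : ℕ) :
    ((range (q * r)).filter P).card = r * ((range q).filter P).card := by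
  induction r with
  | zero => simp
  | succ r ih =>
    rw [mul_add, mul_one, range_eq_Ico, ← Ico_union_Ico_eq_Ico (Nat.zero_le (q * r)) (Nat.le_add_right _ _),
      filter_union, card_union_of_disjoint, ← range_eq_Ico, ih, add_mul, one_mul]
    · congr 1
      symm
      apply card_bij (fun x _ => q * r + x)
      · intro x hx
        rw [mem_filter, mem_range] at hx
        rw [mem_filter, mem_Ico]
        refine ⟨⟨by omega, by omega⟩, ?_⟩
        rw [← hP, Nat.mul_add_mod, hP]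
        exact hx.2
      · intro x _ y _ h; omega
      · intro y hy
        rw [mem_filter, mem_Ico] at hy
        refine ⟨y - q * r, ?_, by omega⟩
        rw [mem_filter, mem_range]
        refine ⟨by omega, ?_⟩
        rw [← hP, ← Nat.mul_add_mod q r (y - q * r), Nat.add_sub_cancel' hy.1.1, hP]
        exact hy.2
    · exact disjoint_filter_filter (Ico_disjoint_Ico_consecutive _ _ _)

theorem aJ_mono (A : Set (ℕ × ℕ)) (i : ℕ) : Monotone (fun J => aJ A J i) := by
  classical
  apply monotone_nat_of_le_succ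
  intro J
  unfold aJ
  have h1 := card_periodic (P := fun c => i ≤ NR A J c) (q := 3 ^ J) (fun n => by rw [NR_mod]) 3
  have h2 : ((range (3 ^ J * 3)).filter (fun c => i ≤ NR A J c)).card ≤
      ((range (3 ^ (J + 1))).filter (fun c => i ≤ NR A (J + 1) c)).card := by
    rw [← pow_succ]
    apply card_le_card
    intro c hc
    rw [mem_filter] at hc ⊢
    exact ⟨hc.1, hc.2.trans (NR_mono A (by omega) c)⟩
  rw [h1] at h2
  rw [div_le_div_iff₀ (by positivity) (by positivity), pow_succ]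
  have h3 : (3 : ℝ) * (((range (3 ^ J)).filter (fun c => i ≤ NR A J c)).card : ℝ) ≤
      (((range (3 ^ (J + 1))).filter (fun c => i ≤ NR A (J + 1) c)).card : ℝ) := by exact_mod_cast h2
  have h4 : (0 : ℝ) < 3 ^ J := by positivity
  nlinarith

/-- the limit law of the size of the fibre -/
noncomputable def aLim (A : Set (ℕ × ℕ)) (i : ℕ) : ℝ := ⨆ J, aJ A J i

theorem aJ_tendsto (A : Set (ℕ × ℕ)) (i : ℕ) : Tendsto (fun J => aJ A J i) atTop (𝓝 (aLim A i)) :=
  tendsto_atTop_ciSup (aJ_mono A i) ⟨1, by rintro _ ⟨J, rfl⟩; exact aJ_le_one A J i⟩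

theorem aJ_le_lim (A : Set (ℕ × ℕ)) (J i : ℕ) : aJ A J i ≤ aLim A i :=
  (aJ_mono A i).ge_of_tendsto (aJ_tendsto A i) J

theorem aLim_nonneg (A : Set (ℕ × ℕ)) (i : ℕ) : 0 ≤ aLim A i := (aJ_nonneg A 0 i).trans (aJ_le_lim A 0 i)
theorem aLim_le_one (A : Set (ℕ × ℕ)) (i : ℕ) : aLim A i ≤ 1 := le_of_tendsto' (aJ_tendsto A i) fun J => aJ_le_one A J i

/-- the density for the truncated count -/
theorem trunc_density {β : ℝ} (hβ : Dn Bdd β) (A : Set (ℕ × ℕ)) (J i : ℕ) :
    Dn (fun m => IsMax m ∧ i ≤ NR A J m) (β * varpi * aJ A J i) := by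
  classical
  have h1 : ∀ N, cnt (fun m => IsMax m ∧ i ≤ NR A J m) N =
      ∑ c ∈ (range (3 ^ J)).filter (fun c => i ≤ NR A J c), cnt (fun n => n % 3 ^ J = c % 3 ^ J ∧ IsMax n) N := by
    intro N
    rw [cnt_eq]
    have e : (Icc 1 N).filter (fun m => IsMax m ∧ i ≤ NR A J m) =
        ((range (3 ^ J)).filter (fun c => i ≤ NR A J c)).biUnion
          (fun c => (Icc 1 N).filter (fun n => n % 3 ^ J = c % 3 ^ J ∧ IsMax n)) := by
      ext n
      rw [mem_filter, mem_biUnion]
      constructor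
      · rintro ⟨h1, h2, h3⟩
        refine ⟨n % 3 ^ J, ?_, by rw [mem_filter]; exact ⟨h1, (Nat.mod_mod _ _).symm, h2⟩⟩
        rw [mem_filter, mem_range, NR_mod]
        exact ⟨Nat.mod_lt _ (by positivity), h3⟩
      · rintro ⟨c, hc, h⟩
        rw [mem_filter] at h hc
        refine ⟨h.1, h.2.2, ?_⟩
        rw [← NR_mod, h.2.1, NR_mod]
        exact hc.2
    rw [e, card_biUnion]
    · push_cast
      apply sum_congr rfl
      intro c _
      rw [cnt_eq]
    · intro c hc c' hc' hne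
      rw [Function.onFun, Finset.disjoint_left]
      intro n hn hn'
      rw [mem_filter] at hn hn'
      rw [mem_coe, mem_filter, mem_range] at hc hc'
      apply hne
      have h2 := hn.2.1
      rw [hn'.2.1, Nat.mod_eq_of_lt hc.1, Nat.mod_eq_of_lt hc'.1] at h2
      exact h2.symm
  unfold Dn
  have h2 : Tendsto (fun N : ℕ => ∑ c ∈ (range (3 ^ J)).filter (fun c => i ≤ NR A J c),
      cnt (fun n => n % 3 ^ J = c % 3 ^ J ∧ IsMax n) N / N) atTop
      (𝓝 (∑ _c ∈ (range (3 ^ J)).filter (fun c => i ≤ NR A J c), β * varpi / ((3 ^ J : ℕ) : ℝ))) := by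
    apply tendsto_finsetSum
    intro c _
    exact max_prog hβ (by rw [Nat.pow_mod]; simp) c
  rw [sum_const, nsmul_eq_mul] at h2
  have e : β * varpi * aJ A J i = (((range (3 ^ J)).filter (fun c => i ≤ NR A J c)).card : ℝ) *
      (β * varpi / ((3 ^ J : ℕ) : ℝ)) := by
    unfold aJ
    push_cast
    ring
  rw [e]
  refine h2.congr fun N => ?_
  rw [h1, sum_div]

/-- the maxima which have a starting value with a late position -/
def LateM (J m : ℕ) : Prop := IsMax m ∧ ∃ n, 1 ≤ n ∧ ∃ k s, J < k ∧ PeakAt k s n ∧ T^[k] n = m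

theorem late_cnt (J N : ℕ) : cnt (LateM J) N ≤ cnt (fun n => Bdd n ∧ ∃ i, J ≤ i ∧ n ≤ T^[i] n) N := by
  classical
  rw [cnt_eq, cnt_eq]
  apply Nat.cast_le.2
  have hch : ∀ m, ∃ n, LateM J m → (1 ≤ n ∧ ∃ k s, J < k ∧ PeakAt k s n ∧ T^[k] n = m) := by
    intro m
    by_cases h : LateM J m
    · obtain ⟨n, hn⟩ := h.2
      exact ⟨n, fun _ => hn⟩
    · exact ⟨0, fun h' => absurd h' h⟩
  choose f hf using hch
  apply card_le_card_of_injOn f
  · intro m hm
    rw [mem_coe, mem_filter, mem_Icc] at hm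
    obtain ⟨h1, k, s, hk, hP, hT⟩ := hf m hm.2
    rw [mem_coe, mem_filter, mem_Icc]
    have hle : f m ≤ m := by
      have := hP.2.2 0
      rw [hT] at this
      exact this
    refine ⟨⟨h1, by omega⟩, ⟨T^[k] (f m), fun j => ?_⟩, k, hk.le, by rw [hT]; exact hle⟩
    rw [← Tn_eq]
    exact hP.2.2 j
  · intro m hm m' hm' h
    rw [mem_coe, mem_filter] at hm hm'
    obtain ⟨h1, k, s, hk, hP, hT⟩ := hf m hm.2
    obtain ⟨h1', k', s', hk', hP', hT'⟩ := hf m' hm'.2
    rw [h] at hP hT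
    have := hP.2.2 k'
    have := hP'.2.2 k
    omega

/-- THE LAW OF THE SIZE OF THE FIBRE -/
theorem fibre_density {β : ℝ} (hβ : Dn Bdd β) (A : Set (ℕ × ℕ)) (i : ℕ) :
    Dn (fun m => IsMax m ∧ i ≤ (Fib A m).ncard) (β * varpi * aLim A i) := by
  classical
  unfold Dn
  rw [Metric.tendsto_atTop]
  intro ε hε
  obtain ⟨K₀, hK₀⟩ := late_all (ε := ε / 8) (by positivity)
  have hlim : Tendsto (fun J => |β * varpi * aJ A J i - β * varpi * aLim A i|) atTop (𝓝 0) := by
    have h3 := ((aJ_tendsto A i).const_mul (β * varpi)).sub_const (β * varpi * aLim A i)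
    rw [sub_self] at h3
    simpa using h3.abs
  obtain ⟨J, hJ1, hJ2⟩ := ((hlim.eventually (gt_mem_nhds (show (0 : ℝ) < ε / 4 by positivity))).and
    (eventually_ge_atTop K₀)).exists
  obtain ⟨N1, hN1⟩ := Metric.tendsto_atTop.1 (trunc_density hβ A J i) (ε / 4) (by positivity)
  obtain ⟨N2, hN2⟩ := eventually_atTop.1 (hK₀ J hJ2)
  obtain ⟨N3, hN3⟩ := eventually_atTop.1 (zd_iff.1 (zd_bdd (3 ^ (2 * J + 1) : ℕ)) (ε / 8) (by positivity))
  refine ⟨max (max N1 N2) (max N3 1), fun N hN => ?_⟩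
  have g1 := hN1 N ((le_max_left _ _).trans ((le_max_left _ _).trans hN))
  have g2 := hN2 N ((le_max_right _ _).trans ((le_max_left _ _).trans hN))
  have g3 := hN3 N ((le_max_left _ _).trans ((le_max_right _ _).trans hN))
  have g4 : 1 ≤ N := (le_max_right _ _).trans ((le_max_right _ _).trans hN)
  have hNR : (0 : ℝ) < N := by exact_mod_cast g4
  have g5 := late_cnt J N
  have hbig : ∀ m : ℕ, ¬ ((m : ℝ) ≤ (3 ^ (2 * J + 1) : ℕ)) → 3 ^ (2 * J + 1) ≤ m := by
    intro m hm
    by_contra h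
    push Not at h
    exact hm (by exact_mod_cast h.le)
  have hnot : ∀ m, IsMax m → ¬ LateM J m → Fib A m = FibJ A J m := by
    intro m hm hL
    apply Set.Subset.antisymm _ (FibJ_sub A J m)
    rintro n ⟨hn1, p, hpA, hP, hT⟩
    refine ⟨hn1, p, hpA, ?_, hP, hT⟩
    by_contra h
    push Not at h
    exact hL ⟨hm, n, hn1, p.1, p.2, h, hP, hT⟩
  have i1 : cnt (fun m => IsMax m ∧ i ≤ (Fib A m).ncard) N ≤ cnt (fun m => IsMax m ∧ i ≤ NR A J m) N +
      (cnt (LateM J) N + cnt (fun n : ℕ => (n : ℝ) ≤ (3 ^ (2 * J + 1) : ℕ)) N) := by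
    refine (cnt_or N (Q := fun m => IsMax m ∧ i ≤ NR A J m)
      (R := fun m => LateM J m ∨ (m : ℝ) ≤ (3 ^ (2 * J + 1) : ℕ)) fun n hn _ hp => ?_).trans
      (add_le_add le_rfl (cnt_or N fun n _ _ h => h))
    by_cases hb : (n : ℝ) ≤ (3 ^ (2 * J + 1) : ℕ)
    · exact Or.inr (Or.inr hb)
    by_cases hL : LateM J n
    · exact Or.inr (Or.inl hL)
    left
    refine ⟨hp.1, ?_⟩
    rw [← fib_card A J hp.1 (hbig n hb), ← hnot n hp.1 hL]
    exact hp.2
  have i2 : cnt (fun m => IsMax m ∧ i ≤ NR A J m) N ≤ cnt (fun m => IsMax m ∧ i ≤ (Fib A m).ncard) N +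
      cnt (fun n : ℕ => (n : ℝ) ≤ (3 ^ (2 * J + 1) : ℕ)) N := by
    apply cnt_or
    intro n hn _ hp
    by_cases hb : (n : ℝ) ≤ (3 ^ (2 * J + 1) : ℕ)
    · exact Or.inr hb
    left
    refine ⟨hp.1, ?_⟩
    rw [← fib_card A J hp.1 (hbig n hb)] at hp
    exact hp.2.trans (Set.ncard_le_ncard (FibJ_sub A J n) (Fib_finite A n))
  have g6 : |cnt (fun m => IsMax m ∧ i ≤ (Fib A m).ncard) N / N - cnt (fun m => IsMax m ∧ i ≤ NR A J m) N / N|
      ≤ 2 * (ε / 8) := by
    rw [← sub_div, abs_div, abs_of_pos hNR, div_le_iff₀ hNR, abs_le]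
    constructor
    · have : 0 ≤ ε / 8 * N := by positivity
      linarith
    · linarith
  rw [Real.dist_eq] at g1 ⊢
  calc |cnt (fun m => IsMax m ∧ i ≤ (Fib A m).ncard) N / N - β * varpi * aLim A i|
      = |(cnt (fun m => IsMax m ∧ i ≤ (Fib A m).ncard) N / N - cnt (fun m => IsMax m ∧ i ≤ NR A J m) N / N)
        + (cnt (fun m => IsMax m ∧ i ≤ NR A J m) N / N - β * varpi * aJ A J i) +
        (β * varpi * aJ A J i - β * varpi * aLim A i)| := by
        congr 1; ring
    _ ≤ 2 * (ε / 8) + ε / 4 + ε / 4 := by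
        refine (abs_add_le _ _).trans (add_le_add ((abs_add_le _ _).trans (add_le_add g6 g1.le)) hJ1.le)
    _ < ε := by linarith

/-! ### the mean -/

theorem card_mod3 {s J : ℕ} (h : s ≤ J) (a : ℕ) :
    ((range (3 ^ J)).filter (fun c => a % 3 ^ s = c % 3 ^ s)).card = 3 ^ (J - s) := by
  have h3 : 0 < 3 ^ s := by positivity
  rw [← card_range (3 ^ (J - s))]
  symm
  apply card_bij (fun t _ => a % 3 ^ s + 3 ^ s * t)
  · intro t ht
    rw [mem_range] at ht
    rw [mem_filter, mem_range, Nat.add_mul_mod_self_left, Nat.mod_mod]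
    refine ⟨?_, rfl⟩
    calc a % 3 ^ s + 3 ^ s * t < 3 ^ s + 3 ^ s * t := by have := Nat.mod_lt a h3; omega
      _ = 3 ^ s * (t + 1) := by ring
      _ ≤ 3 ^ s * 3 ^ (J - s) := Nat.mul_le_mul_left _ ht
      _ = 3 ^ J := by rw [← pow_add]; congr 1; omega
  · intro t _ t' _ h'
    have : 3 ^ s * t = 3 ^ s * t' := by omega
    exact Nat.eq_of_mul_eq_mul_left h3 this
  · intro c hc
    rw [mem_filter, mem_range] at hc
    refine ⟨c / 3 ^ s, ?_, ?_⟩
    · rw [mem_range, Nat.div_lt_iff_lt_mul h3, ← pow_add, Nat.sub_add_cancel h]; exact hc.1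
    · rw [hc.2, Nat.mod_add_div]

open scoped Classical in
/-- the weight of the positions -/
noncomputable def wt (A : Set (ℕ × ℕ)) (k s : ℕ) : ℝ := if (k, s) ∈ A then (rising k s : ℝ) / 3 ^ s else 0

theorem sum_NR (A : Set (ℕ × ℕ)) (J : ℕ) : (∑ c ∈ range (3 ^ J), (NR A J c : ℝ)) / 3 ^ J =
    ∑ k ∈ range (J + 1), ∑ s ∈ range (k + 1), wt A k s := by
  classical
  have h1 : ∑ c ∈ range (3 ^ J), NR A J c =
      ∑ x ∈ (SJ J).filter (fun x => (x.1, od x.1 x.2) ∈ A ∧ Q x.1 (od x.1 x.2) x.2), 3 ^ (J - od x.1 x.2) := by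
    have e : ∀ c, NR A J c = ∑ x ∈ (SJ J).filter (fun x => (x.1, od x.1 x.2) ∈ A ∧ Q x.1 (od x.1 x.2) x.2),
        if T^[x.1] x.2 % 3 ^ od x.1 x.2 = c % 3 ^ od x.1 x.2 then 1 else 0 := by
      intro c
      unfold NR
      rw [card_filter, sum_filter]
      apply sum_congr rfl
      intro x _
      by_cases h1 : (x.1, od x.1 x.2) ∈ A <;> by_cases h2 : Q x.1 (od x.1 x.2) x.2 <;> simp [h1, h2]
    simp only [e]
    rw [sum_comm]
    apply sum_congr rfl
    intro x hx
    rw [mem_filter, SJ, mem_sigma, mem_range, mem_range] at hx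
    rw [← card_filter]
    apply card_mod3
    exact (Pool.Agent.H499R2.ND.od_le _ _).trans (by omega)
  have h2 : ∑ x ∈ (SJ J).filter (fun x => (x.1, od x.1 x.2) ∈ A ∧ Q x.1 (od x.1 x.2) x.2),
      ((3 ^ (J - od x.1 x.2) : ℕ) : ℝ) / 3 ^ J =
      ∑ k ∈ range (J + 1), ∑ s ∈ range (k + 1), wt A k s := by
    rw [sum_filter, SJ, sum_sigma]
    apply sum_congr rfl
    intro k hk
    rw [mem_range] at hk
    have h3 : ∑ r ∈ range (2 ^ k), (if (k, od k r) ∈ A ∧ Q k (od k r) r then
        ((3 ^ (J - od k r) : ℕ) : ℝ) / 3 ^ J else 0) =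
        ∑ s ∈ range (k + 1), ∑ r ∈ (range (2 ^ k)).filter (fun r => od k r = s),
          (if (k, od k r) ∈ A ∧ Q k (od k r) r then ((3 ^ (J - od k r) : ℕ) : ℝ) / 3 ^ J else 0) := by
      rw [sum_fiberwise_of_maps_to]
      intro r _
      rw [mem_range]
      have : od k r ≤ k := Pool.Agent.H499R2.ND.od_le k r
      omega
    simp only
    rw [h3]
    apply sum_congr rfl
    intro s hs
    rw [mem_range] at hs
    have h4 : ∑ r ∈ (range (2 ^ k)).filter (fun r => od k r = s),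
          (if (k, od k r) ∈ A ∧ Q k (od k r) r then ((3 ^ (J - od k r) : ℕ) : ℝ) / 3 ^ J else 0) =
        ∑ r ∈ (range (2 ^ k)).filter (fun r => od k r = s),
          (if (k, s) ∈ A ∧ Q k s r then (1 : ℝ) / 3 ^ s else 0) := by
      apply sum_congr rfl
      intro r hr
      rw [mem_filter] at hr
      rw [hr.2]
      have h5 : ((3 ^ (J - s) : ℕ) : ℝ) / 3 ^ J = 1 / 3 ^ s := by
        rw [div_eq_div_iff (by positivity) (by positivity), one_mul]
        push_cast
        rw [← pow_add]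
        congr 1
        omega
      rw [h5]
    rw [h4, ← sum_filter, sum_const, nsmul_eq_mul]
    unfold wt
    by_cases hA : (k, s) ∈ A
    · rw [if_pos hA, ← card_Q k s, filter_filter]
      have h6 : (range (2 ^ k)).filter (fun r => od k r = s ∧ (k, s) ∈ A ∧ Q k s r) =
          (range (2 ^ k)).filter (Q k s) := by
        apply filter_congr
        intro r _
        constructor
        · rintro ⟨_, _, h⟩; exact h
        · intro h; exact ⟨h.1, hA, h⟩
      rw [h6]
      ring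
    · rw [if_neg hA, filter_filter]
      have h6 : (range (2 ^ k)).filter (fun r => od k r = s ∧ (k, s) ∈ A ∧ Q k s r) = ∅ := by
        rw [filter_eq_empty_iff]
        rintro r _ ⟨_, h, _⟩
        exact hA h
      rw [h6]
      simp
  rw [← h2, ← sum_div]
  congr 1
  have := congrArg (Nat.cast : ℕ → ℝ) h1
  push_cast at this ⊢
  exact this

theorem partial_sum (A : Set (ℕ × ℕ)) (J I : ℕ) :
    ∑ i ∈ range I, aJ A J (i + 1) = (∑ c ∈ range (3 ^ J), ((min I (NR A J c) : ℕ) : ℝ)) / 3 ^ J := by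
  classical
  unfold aJ
  rw [← sum_div]
  congr 1
  have h1 : ∑ i ∈ range I, ((range (3 ^ J)).filter (fun c => i + 1 ≤ NR A J c)).card =
      ∑ c ∈ range (3 ^ J), min I (NR A J c) := by
    simp only [card_filter]
    rw [sum_comm]
    apply sum_congr rfl
    intro c _
    rw [← card_filter]
    have : (range I).filter (fun i => i + 1 ≤ NR A J c) = range (min I (NR A J c)) := by
      ext i
      rw [mem_filter, mem_range, mem_range]
      omega
    rw [this, card_range]
  exact_mod_cast h1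

theorem wt_nonneg (A : Set (ℕ × ℕ)) (k s : ℕ) : 0 ≤ wt A k s := by
  unfold wt; split_ifs <;> positivity

theorem wt_univ_sum (k : ℕ) : ∑ s ∈ range (k + 1), wt Set.univ k s = rs k (-1) := by
  unfold wt rs
  apply sum_congr rfl
  intro s _
  rw [if_pos (Set.mem_univ _), Real.rpow_neg_one]
  field_simp

theorem wt_hasSum (A : Set (ℕ × ℕ)) : ∃ W, HasSum (fun k => ∑ s ∈ range (k + 1), wt A k s) W ∧
    HasSum (fun p : ℕ × ℕ => wt A p.1 p.2) W := by
  classical
  obtain ⟨h1, _, _⟩ := rs_gen (σ := -1) (z := 1) (by norm_num) (by norm_num) le_rfl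
  simp only [one_pow, one_mul] at h1
  have h2 : Summable (fun k => ∑ s ∈ range (k + 1), wt A k s) := by
    refine Summable.of_nonneg_of_le (fun k => sum_nonneg fun s _ => wt_nonneg A k s) (fun k => ?_) h1
    rw [← wt_univ_sum]
    apply sum_le_sum
    intro s _
    unfold wt
    rw [if_pos (Set.mem_univ _)]
    split_ifs
    · exact le_rfl
    · positivity
  refine ⟨_, h2.hasSum, ?_⟩
  apply hasSum_tri (f := wt A) (wt_nonneg A) _ h2.hasSum
  intro k s hks
  unfold wt
  rw [rising_gt k s hks]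
  simp

/-- THE MEAN SIZE OF THE FIBRE -/
theorem fibre_mean (A : Set (ℕ × ℕ)) : HasSum (fun i => aLim A (i + 1)) (∑' p : ℕ × ℕ, wt A p.1 p.2) := by
  obtain ⟨W, hW1, hW2⟩ := wt_hasSum A
  rw [hW2.tsum_eq]
  have hub : ∀ I, ∑ i ∈ range I, aLim A (i + 1) ≤ W := by
    intro I
    have h1 : Tendsto (fun J => ∑ i ∈ range I, aJ A J (i + 1)) atTop (𝓝 (∑ i ∈ range I, aLim A (i + 1))) := by
      apply tendsto_finsetSum
      intro i _
      exact aJ_tendsto A (i + 1)
    refine le_of_tendsto' h1 fun J => ?_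
    rw [partial_sum]
    calc (∑ c ∈ range (3 ^ J), ((min I (NR A J c) : ℕ) : ℝ)) / 3 ^ J
        ≤ (∑ c ∈ range (3 ^ J), (NR A J c : ℝ)) / 3 ^ J := by
          apply div_le_div_of_nonneg_right _ (by positivity)
          apply sum_le_sum
          intro c _
          exact_mod_cast min_le_right _ _
      _ = ∑ k ∈ range (J + 1), ∑ s ∈ range (k + 1), wt A k s := sum_NR A J
      _ ≤ W := sum_le_hasSum _ (fun k _ => sum_nonneg fun s _ => wt_nonneg A k s) hW1
  have hs : Summable (fun i => aLim A (i + 1)) :=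
    summable_of_sum_range_le (fun i => aLim_nonneg A (i + 1)) hub
  have hle : ∑' i, aLim A (i + 1) ≤ W := hs.tsum_le_of_sum_range_le hub
  have hge : W ≤ ∑' i, aLim A (i + 1) := by
    have h1 := (hW1.tendsto_sum_nat.comp (tendsto_add_atTop_nat 1))
    refine le_of_tendsto' h1 fun J => ?_
    simp only [Function.comp]
    rw [← sum_NR]
    set I := ∑ c ∈ range (3 ^ J), NR A J c with hI
    have h2 : (∑ c ∈ range (3 ^ J), (NR A J c : ℝ)) / 3 ^ J = ∑ i ∈ range I, aJ A J (i + 1) := by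
      rw [partial_sum]
      congr 1
      apply sum_congr rfl
      intro c hc
      have : NR A J c ≤ I := single_le_sum (f := fun c => NR A J c) (fun _ _ => Nat.zero_le _) hc
      rw [min_eq_right this]
    rw [h2]
    refine (sum_le_sum fun i _ => aJ_le_lim A J (i + 1)).trans ?_
    exact hs.sum_le_tsum _ (fun i _ => aLim_nonneg A (i + 1))
  have : ∑' i, aLim A (i + 1) = W := le_antisymm hle hge
  rw [← this]
  exact hs.hasSum

end Pool.Agent.H77.Col
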