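import Pool.Agent.H77.Col.Fibre3
import Pool.Agent.H77.Col.Abel

/-! The mean number of small starting values in a fibre of the maximum. -/

set_option autoImplicit false

namespace Pool.Agent.H77.Col

open Finset Filter Topology MeasureTheory Set

theorem mass_div (p : ℕ × ℕ) : mass p / rat p = varpi * ((rising p.1 p.2 : ℝ) / 3 ^ p.2) := by
  unfold mass rat
  field_simp

theorem int_rpow {c : ℝ} (hc : 0 < c) : ∫ t in Ioi c, t ^ (-2 : ℝ) = c⁻¹ := by
  rw [integral_Ioi_rpow_of_lt (by norm_num) hc]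
  norm_num
  rw [Real.rpow_neg_one]

theorem wt_lam (lam : ℝ) (p : ℕ × ℕ) : varpi * wt {p | lam * 2 ^ p.1 ≤ 3 ^ p.2} p.1 p.2 =
    if lam ≤ rat p then mass p / rat p else 0 := by
  classical
  have : lam ≤ rat p ↔ lam * 2 ^ p.1 ≤ 3 ^ p.2 := by
    unfold rat; rw [le_div_iff₀ (by positivity)]
  unfold wt
  simp only [Set.mem_ofPred_eq, this]
  split_ifs
  · rw [mass_div]
  · ring

/-- the integral representation -/
theorem small_int {lam : ℝ} (hl : 1 < lam) :
    varpi * (∑' p : ℕ × ℕ, wt {p | lam * 2 ^ p.1 ≤ 3 ^ p.2} p.1 p.2) =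
      Pool.Agent.W36.SL.p lam / lam - ∫ t in Ioi lam, t ^ (-2 : ℝ) * Pool.Agent.W36.SL.p t := by
  classical
  have hl0 : 0 < lam := by linarith
  set F : ℕ × ℕ → ℝ → ℝ := fun p => (Ioi (rat p)).indicator
    (fun t => (if lam ≤ rat p then mass p else 0) * t ^ (-2 : ℝ)) with hF
  have hint : ∀ p, IntegrableOn (F p) (Ioi lam) := by
    intro p
    rw [hF]
    simp only
    rw [IntegrableOn, integrable_indicator_iff measurableSet_Ioi, IntegrableOn,
      Measure.restrict_restrict measurableSet_Ioi]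
    apply Integrable.const_mul
    exact (integrableOn_Ioi_rpow_of_lt (by norm_num) (rat_pos p)).mono_set Set.inter_subset_left
  have hval : ∀ p, ∫ t in Ioi lam, F p t = if lam ≤ rat p then mass p / rat p else 0 := by
    intro p
    rw [hF]
    simp only
    rw [setIntegral_indicator measurableSet_Ioi]
    by_cases h : lam ≤ rat p
    · rw [if_pos h, if_pos h, Ioi_inter_Ioi, sup_eq_right.2 h, integral_const_mul, int_rpow (rat_pos p),
        div_eq_mul_inv]
    · rw [if_neg h, if_neg h]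
      simp
  have hnn : ∀ p, ∀ t ∈ Ioi lam, 0 ≤ F p t := by
    intro p t ht
    have ht' : lam < t := ht
    rw [hF]
    simp only [indicator_apply]
    have := mass_nonneg p
    have h2 : 0 ≤ t := by linarith
    split_ifs
    · positivity
    · simp
    · exact le_rfl
  have hW : Summable (fun p : ℕ × ℕ => wt {p | lam * 2 ^ p.1 ≤ 3 ^ p.2} p.1 p.2) := by
    obtain ⟨W, _, h⟩ := wt_hasSum {p | lam * 2 ^ p.1 ≤ 3 ^ p.2}
    exact h.summable
  have hsumm : Summable (fun p => ∫ t in Ioi lam, F p t) := by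
    refine (hW.mul_left varpi).congr fun p => ?_
    rw [hval, ← wt_lam]
  have hsum : Summable (fun p => ∫ t in Ioi lam, ‖F p t‖) := by
    have : (fun p => ∫ t in Ioi lam, ‖F p t‖) = fun p => ∫ t in Ioi lam, F p t := by
      funext p
      apply setIntegral_congr_fun measurableSet_Ioi
      intro t ht
      simp only
      rw [Real.norm_eq_abs, abs_of_nonneg (hnn p t ht)]
    rw [this]
    exact hsumm
  have hmain := hasSum_integral_of_summable_integral_norm (μ := volume.restrict (Ioi lam)) hint hsum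
  have hmain2 : HasSum (fun p => ∫ t in Ioi lam, F p t)
      (varpi * (∑' p : ℕ × ℕ, wt {p | lam * 2 ^ p.1 ≤ 3 ^ p.2} p.1 p.2)) := by
    have h := hW.hasSum.mul_left varpi
    refine h.congr_fun ?_ |> fun h => h
    intro p
    rw [hval, ← wt_lam]
  have heq := hmain.unique hmain2
  rw [← heq]
  have hs : ∀ μ : ℝ, Summable (fun p : ℕ × ℕ => if μ ≤ rat p then mass p else 0) := by
    intro μ
    refine Summable.of_nonneg_of_le (fun p => ?_) (fun p => ?_) mass_hasSum.summable
    · split_ifs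
      · exact mass_nonneg p
      · exact le_rfl
    · split_ifs
      · exact le_rfl
      · exact mass_nonneg p
  have htail : ∀ μ : ℝ, 1 < μ → ∑' p : ℕ × ℕ, (if μ ≤ rat p then mass p else 0) = Pool.Agent.W36.SL.p μ := by
    intro μ hμ
    rw [← tail_eq hμ]
    unfold tail
    apply tsum_congr
    intro p
    have : μ ≤ rat p ↔ μ * 2 ^ p.1 ≤ 3 ^ p.2 := by
      unfold rat; rw [le_div_iff₀ (by positivity)]
    simp only [this]
  have hpt : ∀ t ∈ Ioi lam, ∑' p, F p t =
      t ^ (-2 : ℝ) * Pool.Agent.W36.SL.p lam - t ^ (-2 : ℝ) * Pool.Agent.W36.SL.p t := by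
    intro t ht
    have ht' : lam < t := ht
    have e1 : ∀ p, F p t = t ^ (-2 : ℝ) * ((if lam ≤ rat p then mass p else 0) - (if t ≤ rat p then mass p else 0)) := by
      intro p
      rw [hF]
      simp only [indicator_apply, Set.mem_Ioi]
      by_cases h1 : rat p < t
      · rw [if_pos h1, if_neg (not_le.2 h1)]
        ring
      · push Not at h1
        rw [if_neg (not_lt.2 h1), if_pos h1, if_pos (ht'.le.trans h1)]
        ring
    rw [tsum_congr e1, tsum_mul_left, (hs lam).tsum_sub (hs t), htail lam hl, htail t (by linarith)]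
    ring
  rw [setIntegral_congr_fun measurableSet_Ioi hpt, integral_sub, integral_mul_const, int_rpow hl0]
  · rw [div_eq_inv_mul]
  · exact (integrableOn_Ioi_rpow_of_lt (by norm_num) hl0).mul_const _
  · refine Integrable.mono (integrableOn_Ioi_rpow_of_lt (a := -2) (by norm_num) hl0) ?_ ?_
    · apply AEStronglyMeasurable.mul
      · exact (integrableOn_Ioi_rpow_of_lt (a := -2) (by norm_num) hl0).aestronglyMeasurable
      · exact (Pool.Agent.W36.SL.p_anti.measurable).aestronglyMeasurable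
    · filter_upwards with t
      rw [norm_mul]
      apply mul_le_of_le_one_right (norm_nonneg _)
      rw [Real.norm_eq_abs, abs_of_nonneg (Pool.Agent.W36.SL.p_nonneg t)]
      exact Pool.Agent.W36.SL.p_le_one t

theorem int_rpow3 : ∫ t in Ioi (1 : ℝ), t ^ (-3 : ℝ) = 1 / 2 := by
  rw [integral_Ioi_rpow_of_lt (by norm_num) (by norm_num)]
  norm_num

/-- THE MEAN NUMBER OF SMALL STARTING VALUES: the exponent `2` -/
theorem small_tendsto : Tendsto (fun lam : ℝ => lam ^ 2 *
    ∑' p : ℕ × ℕ, wt {p | lam * 2 ^ p.1 ≤ 3 ^ p.2} p.1 p.2) atTop (𝓝 (Csp / (2 * varpi))) := by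
  have hv := varpi_pos
  have h1 : Tendsto (fun lam : ℝ => ∫ u in Ioi (1 : ℝ), u ^ (-3 : ℝ) *
      ((lam * u) * Pool.Agent.W36.SL.p (lam * u))) atTop
      (𝓝 (∫ u in Ioi (1 : ℝ), u ^ (-3 : ℝ) * Pool.Agent.W36.SL.C)) := by
    apply tendsto_integral_filter_of_dominated_convergence (fun u => u ^ (-3 : ℝ))
    · filter_upwards with lam
      apply AEStronglyMeasurable.mul
      · exact (integrableOn_Ioi_rpow_of_lt (a := -3) (by norm_num) one_pos).aestronglyMeasurable
      · apply AEStronglyMeasurable.mul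
        · exact (Continuous.aestronglyMeasurable (by fun_prop))
        · exact (Pool.Agent.W36.SL.p_anti.measurable.comp (measurable_const_mul lam)).aestronglyMeasurable
    · filter_upwards [eventually_gt_atTop 0] with lam hlam
      rw [ae_restrict_iff' measurableSet_Ioi]
      filter_upwards with u hu
      have hu' : (1 : ℝ) < u := hu
      have h2 : 0 ≤ lam * u := by positivity
      rw [norm_mul, Real.norm_eq_abs, Real.norm_eq_abs, abs_of_nonneg (by positivity),
        abs_of_nonneg (mul_nonneg h2 (Pool.Agent.W36.SL.p_nonneg _))]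
      exact mul_le_of_le_one_right (by positivity) (Pool.Agent.W36.SL.mul_p_le h2)
    · exact integrableOn_Ioi_rpow_of_lt (by norm_num) one_pos
    · rw [ae_restrict_iff' measurableSet_Ioi]
      filter_upwards with u hu
      have hu' : (1 : ℝ) < u := hu
      apply Tendsto.const_mul
      exact Pool.Agent.W36.SL.p_tendsto.comp (tendsto_id.atTop_mul_const (by linarith))
  rw [integral_mul_const, int_rpow3] at h1
  have h2 := (Pool.Agent.W36.SL.p_tendsto.sub h1).const_mul varpi⁻¹
  have e : varpi⁻¹ * (Pool.Agent.W36.SL.C - 1 / 2 * Pool.Agent.W36.SL.C) = Csp / (2 * varpi) := by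
    rw [C_eq]; field_simp; ring
  rw [e] at h2
  refine h2.congr' ?_
  filter_upwards [eventually_gt_atTop 1] with lam hl
  have hl0 : 0 < lam := by linarith
  have h3 := small_int hl
  have h4 : ∑' p : ℕ × ℕ, wt {p | lam * 2 ^ p.1 ≤ 3 ^ p.2} p.1 p.2 = varpi⁻¹ *
      (Pool.Agent.W36.SL.p lam / lam - ∫ t in Ioi lam, t ^ (-2 : ℝ) * Pool.Agent.W36.SL.p t) := by
    rw [← h3]; field_simp
  rw [h4]
  have h5 := integral_comp_mul_left_Ioi (fun t => t ^ (-2 : ℝ) * Pool.Agent.W36.SL.p t) 1 hl0
  rw [mul_one, smul_eq_mul] at h5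
  have h6 : ∫ t in Ioi lam, t ^ (-2 : ℝ) * Pool.Agent.W36.SL.p t =
      lam * ∫ u in Ioi (1 : ℝ), (lam * u) ^ (-2 : ℝ) * Pool.Agent.W36.SL.p (lam * u) := by
    rw [h5]; field_simp
  have h7 : lam ^ 2 * (lam * ∫ u in Ioi (1 : ℝ), (lam * u) ^ (-2 : ℝ) * Pool.Agent.W36.SL.p (lam * u)) =
      ∫ u in Ioi (1 : ℝ), u ^ (-3 : ℝ) * ((lam * u) * Pool.Agent.W36.SL.p (lam * u)) := by
    rw [← mul_assoc, ← integral_const_mul]
    apply setIntegral_congr_fun measurableSet_Ioi
    intro u hu
    have hu' : (1 : ℝ) < u := hu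
    simp only
    have e1 : (lam * u) ^ (-2 : ℝ) = (lam ^ 2)⁻¹ * (u ^ 2)⁻¹ := by
      rw [Real.rpow_neg (by positivity), show (2 : ℝ) = ((2 : ℕ) : ℝ) by norm_num, Real.rpow_natCast, mul_pow,
        mul_inv]
    have e2 : u ^ (-3 : ℝ) = (u ^ 3)⁻¹ := by
      rw [Real.rpow_neg (by positivity), show (3 : ℝ) = ((3 : ℕ) : ℝ) by norm_num, Real.rpow_natCast]
    rw [e1, e2]
    field_simp
  rw [h6, ← h7]
  field_simp

end Pool.Agent.H77.Col
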