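import Pool.Agent.H77.Col.Fibre4

/-! The starting values below `m / lam` with the maximum `m`. -/

set_option autoImplicit false

namespace Pool.Agent.H77.Col

open Finset Filter Topology
open Pool.Agent.Helper894.Collatz (T od er od_add od_succ period iter_eq lt_pow)
open Pool.Agent.H499R2.ND

/-- `t(n) = m` -/
def MaxIs (n m : ℕ) : Prop := (∃ k, T^[k] n = m) ∧ ∀ k, T^[k] n ≤ m

/-- the starting values `≤ m / lam` with the maximum `m` -/
def start (lam : ℝ) (m : ℕ) : Set ℕ := {n | 1 ≤ n ∧ MaxIs n m ∧ lam * n ≤ m}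

theorem maxIs_peak {n m : ℕ} (h : MaxIs n m) : ∃ k s, PeakAt k s n ∧ T^[k] n = m := by
  classical
  obtain ⟨h1, h2⟩ := h
  refine ⟨Nat.find h1, od (Nat.find h1) n, ⟨rfl, fun j hj => ?_, fun j => ?_⟩, Nat.find_spec h1⟩
  · rw [Nat.find_spec h1]
    exact lt_of_le_of_ne (h2 j) (Nat.find_min h1 hj)
  · rw [Nat.find_spec h1]; exact h2 j

theorem peak_maxIs {n m k s : ℕ} (h : PeakAt k s n) (hT : T^[k] n = m) : MaxIs n m :=
  ⟨⟨k, hT⟩, fun j => by rw [← hT]; exact h.2.2 j⟩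

/-- the positions with ratio at least `lam` -/
def Alam (lam : ℝ) : Set (ℕ × ℕ) := {p | lam * 2 ^ p.1 ≤ 3 ^ p.2}

theorem Alam_sub (lam : ℝ) (m : ℕ) : Fib (Alam lam) m ⊆ start lam m := by
  rintro n ⟨hn1, p, hp, hP, hT⟩
  refine ⟨hn1, peak_maxIs hP hT, ?_⟩
  have h1 := iter_eq p.1 n
  rw [hP.1, hT] at h1
  have h2 : (2 : ℝ) ^ p.1 * m = 3 ^ p.2 * n + er p.1 n := by exact_mod_cast h1
  have h3 : lam * 2 ^ p.1 ≤ 3 ^ p.2 := hp
  have h4 : lam * 2 ^ p.1 * n ≤ 3 ^ p.2 * n := mul_le_mul_of_nonneg_right h3 (Nat.cast_nonneg n)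
  have h5 : (0 : ℝ) ≤ er p.1 n := Nat.cast_nonneg _
  have h6 : (2 : ℝ) ^ p.1 * (lam * n) ≤ 2 ^ p.1 * m := by rw [h2]; linarith
  exact le_of_mul_le_mul_left h6 (by positivity)

/-- the two descriptions of the small starting values agree up to density zero -/
theorem start_eq {lam : ℝ} (J : ℕ) : ∃ m₀ : ℕ, ∀ m : ℕ, m₀ ≤ m → IsMax m → ¬ LateM J m →
    start lam m = Fib (Alam lam) m := by
  have hpos : ∀ k s : ℕ, ∃ B : ℕ, ¬ (lam * 2 ^ k ≤ 3 ^ s) → (3 : ℝ) ^ k ≤ B * (lam * 2 ^ k - 3 ^ s) := by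
    intro k s
    by_cases h : lam * 2 ^ k ≤ 3 ^ s
    · exact ⟨0, fun h' => absurd h h'⟩
    · push Not at h
      obtain ⟨B, hB⟩ := exists_nat_ge ((3 : ℝ) ^ k / (lam * 2 ^ k - 3 ^ s))
      refine ⟨B, fun _ => ?_⟩
      rwa [div_le_iff₀ (by linarith)] at hB
  choose B hB using hpos
  set B₀ := (range (J + 1)).sup (fun k => (range (J + 1)).sup (fun s => B k s)) with hB0
  refine ⟨3 ^ J * (B₀ + 1) + 1, fun m hm hmax hL => ?_⟩
  apply Set.Subset.antisymm _ (Alam_sub lam m)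
  rintro n ⟨hn1, hM, hle⟩
  obtain ⟨k, s, hP, hT⟩ := maxIs_peak hM
  refine ⟨hn1, (k, s), ?_, hP, hT⟩
  by_contra hcon
  have hcon' : ¬ (lam * 2 ^ k ≤ 3 ^ s) := hcon
  have hkJ : k ≤ J := by
    by_contra h
    push Not at h
    exact hL ⟨hmax, n, hn1, k, s, h, hP, hT⟩
  have hsk : s ≤ k := by rw [← hP.1]; exact Pool.Agent.H499R2.ND.od_le _ _
  have h1 := iter_eq k n
  rw [hP.1, hT] at h1
  have h2 : (2 : ℝ) ^ k * m = 3 ^ s * n + er k n := by exact_mod_cast h1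
  have h3 : er k n + 2 ^ k ≤ 3 ^ k := er_le k n
  have h3' : (er k n : ℝ) < 3 ^ k := by
    have h4 : 1 ≤ 2 ^ k := Nat.one_le_two_pow
    have : er k n < 3 ^ k := by omega
    exact_mod_cast this
  have h4 : (2 : ℝ) ^ k * (lam * n) ≤ 2 ^ k * m := mul_le_mul_of_nonneg_left hle (by positivity)
  have h5 := hB k s hcon'
  push Not at hcon'
  have h6 : (n : ℝ) * (lam * 2 ^ k - 3 ^ s) < B k s * (lam * 2 ^ k - 3 ^ s) := by
    have : (n : ℝ) * (lam * 2 ^ k - 3 ^ s) = 2 ^ k * (lam * n) - 3 ^ s * n := by ring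
    rw [this]; linarith
  have h7 : (n : ℝ) < B k s := lt_of_mul_lt_mul_right h6 (by linarith)
  have h8 : n < B k s := by exact_mod_cast h7
  have h9 : B k s ≤ B₀ := by
    have a1 : B k s ≤ (range (J + 1)).sup (fun s => B k s) :=
      Finset.le_sup (f := fun s => B k s) (mem_range.2 (by omega))
    have a2 : (range (J + 1)).sup (fun s => B k s) ≤ B₀ :=
      Finset.le_sup (f := fun k => (range (J + 1)).sup (fun s => B k s)) (mem_range.2 (by omega))
    exact a1.trans a2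
  -- so `m` is bounded
  have h10 : m ≤ 3 ^ J * (B₀ + 1) := by
    have a1 : m ≤ 2 ^ k * m := Nat.le_mul_of_pos_left _ (by positivity)
    have a2 : 3 ^ s * n ≤ 3 ^ J * B₀ := Nat.mul_le_mul (Nat.pow_le_pow_right (by norm_num) (by omega)) (by omega)
    have a3 : 3 ^ k ≤ 3 ^ J := Nat.pow_le_pow_right (by norm_num) hkJ
    have a4 : 3 ^ J * (B₀ + 1) = 3 ^ J * B₀ + 3 ^ J := by ring
    have a5 : 1 ≤ 2 ^ k := Nat.one_le_two_pow
    omega
  omega

/-- THE LAW OF THE NUMBER OF THE SMALL STARTING VALUES -/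
theorem start_density {β : ℝ} (hβ : Dn Bdd β) (lam : ℝ) (i : ℕ) :
    Dn (fun m => IsMax m ∧ i ≤ (start lam m).ncard) (β * varpi * aLim (Alam lam) i) := by
  classical
  refine dn_congr (E := fun m => IsMax m ∧ start lam m ≠ Fib (Alam lam) m) (fibre_density hβ (Alam lam) i) ?_ ?_
  · rw [zd_iff]
    intro ε hε
    obtain ⟨K₀, hK₀⟩ := late_all (ε := ε / 2) (by positivity)
    obtain ⟨m₀, hm₀⟩ := start_eq (lam := lam) K₀
    filter_upwards [hK₀ K₀ le_rfl, zd_iff.1 (zd_bdd m₀) (ε / 2) (by positivity)] with N h1 h2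
    have h3 := late_cnt K₀ N
    have h4 : cnt (fun m => IsMax m ∧ start lam m ≠ Fib (Alam lam) m) N ≤
        cnt (LateM K₀) N + cnt (fun n : ℕ => (n : ℝ) ≤ m₀) N := by
      apply cnt_or
      rintro m _ _ ⟨h5, h6⟩
      by_cases hL : LateM K₀ m
      · exact Or.inl hL
      · right
        by_contra h7
        push Not at h7
        exact h6 (hm₀ m (by exact_mod_cast h7.le) h5 hL)
    linarith
  · intro m _ hE
    by_cases h : IsMax m
    · have : start lam m = Fib (Alam lam) m := by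
        by_contra h2
        exact hE ⟨h, h2⟩
      rw [this]
    · exact ⟨fun h' => absurd h'.1 h, fun h' => absurd h'.1 h⟩

end Pool.Agent.H77.Col
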