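import Pool.Agent.H77.Col.Clt
import Pool.Graph.R_seed8.W36.SL.VLaw

/-! The first passage times of the large excursions: the random walk. -/

set_option autoImplicit false

namespace Pool.Agent.H77.Col

open Filter Topology
open Pool.Agent.W36.SL (s p q s_succ s_zero_of_le s_sub_q p_tendsto q_le_s s_le_one s_nonneg b b_pos b_lt_one)

/-- the slope of the ascents -/
noncomputable def mu : ℝ := Real.log (27 / 16) / 4
noncomputable def sg : ℝ := √3 * Real.log 3 / 4
noncomputable def kap : ℝ := sg / (mu * √mu)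

theorem mu_pos : 0 < mu := div_pos (Real.log_pos (by norm_num)) (by norm_num)
theorem sg_pos : 0 < sg := by
  have := Real.log_pos (show (1 : ℝ) < 3 by norm_num)
  unfold sg; positivity

theorem mu_eq : mu = 3 / 4 * Real.log 3 - Real.log 2 := by
  unfold mu
  rw [Real.log_div (by norm_num) (by norm_num), show (27 : ℝ) = 3 ^ 3 by norm_num,
    show (16 : ℝ) = 2 ^ 4 by norm_num, Real.log_pow, Real.log_pow]
  norm_num
  ring

/-- `P*(exp S_K ≥ lam)` -/
noncomputable def g (K : ℕ) (lam : ℝ) : ℝ := G K ((Real.log lam - K * mu) / sg)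

theorem g_nonneg (K : ℕ) (lam : ℝ) : 0 ≤ g K lam := G_nonneg _ _
theorem g_le_one (K : ℕ) (lam : ℝ) : g K lam ≤ 1 := G_le_one _ _

theorem g_zero {lam : ℝ} (h : 0 < lam) : g 0 lam = if lam ≤ 1 then 1 else 0 := by
  unfold g
  rw [G_zero]
  have : (Real.log lam - ((0 : ℕ) : ℝ) * mu) / sg ≤ 0 ↔ lam ≤ 1 := by
    rw [Nat.cast_zero, zero_mul, sub_zero, div_le_iff₀ sg_pos, zero_mul, Real.log_nonpos_iff h.le]
  simp only [this]

theorem sg_sqrt : sg / √3 = Real.log 3 / 4 := by
  unfold sg
  have : √3 ≠ 0 := by positivity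
  field_simp

theorem sg_sqrt' : sg * √3 = 3 * Real.log 3 / 4 := by
  unfold sg
  have h3 : √3 * √3 = 3 := Real.mul_self_sqrt (by norm_num)
  calc √3 * Real.log 3 / 4 * √3 = (√3 * √3) * Real.log 3 / 4 := by ring
    _ = _ := by rw [h3]

theorem g_succ (K : ℕ) {lam : ℝ} (h : 0 < lam) : g (K + 1) lam = 3 / 4 * g K (2 * lam / 3) + 1 / 4 * g K (2 * lam) := by
  unfold g
  rw [G_succ]
  have h0 := sg_pos.ne'
  have e1 : (Real.log lam - ((K + 1 : ℕ) : ℝ) * mu) / sg - 1 / √3 = (Real.log (2 * lam / 3) - K * mu) / sg := by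
    rw [eq_div_iff h0, sub_mul, div_mul_cancel₀ _ h0, Real.log_div (by positivity) (by norm_num),
      Real.log_mul (by norm_num) h.ne']
    have : 1 / √3 * sg = Real.log 3 / 4 := by rw [← sg_sqrt]; ring
    rw [this]
    push_cast
    rw [add_mul, one_mul, mu_eq]
    ring
  have e2 : (Real.log lam - ((K + 1 : ℕ) : ℝ) * mu) / sg + √3 = (Real.log (2 * lam) - K * mu) / sg := by
    rw [eq_div_iff h0, add_mul, div_mul_cancel₀ _ h0, Real.log_mul (by norm_num) h.ne']
    have : √3 * sg = 3 * Real.log 3 / 4 := by rw [← sg_sqrt']; ring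
    rw [this]
    push_cast
    rw [add_mul, one_mul, mu_eq]
    ring
  rw [e1, e2]

/-- `P*(max_{k ≤ K} exp S_k ≥ lam)` -/
noncomputable def r : ℕ → ℝ → ℝ
  | 0, lam => if lam ≤ 1 then 1 else 0
  | K + 1, lam => if lam ≤ 1 then 1 else 3 / 4 * r K (2 * lam / 3) + 1 / 4 * r K (2 * lam)

theorem r_of_le (K : ℕ) {lam : ℝ} (h : lam ≤ 1) : r K lam = 1 := by
  cases K <;> simp [r, h]

theorem r_succ (K : ℕ) {lam : ℝ} (h : 1 < lam) : r (K + 1) lam = 3 / 4 * r K (2 * lam / 3) + 1 / 4 * r K (2 * lam) := by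
  rw [r, if_neg (not_le.2 h)]

theorem r_zero {lam : ℝ} (h : 1 < lam) : r 0 lam = 0 := by rw [r, if_neg (not_le.2 h)]

theorem g_le_r (K : ℕ) : ∀ lam : ℝ, 0 < lam → g K lam ≤ r K lam := by
  induction K with
  | zero => intro lam h; rw [g_zero h]; rfl
  | succ K ih =>
    intro lam h
    rcases le_or_gt lam 1 with h1 | h1
    · rw [r_of_le _ h1]; exact g_le_one _ _
    · rw [g_succ K h, r_succ K h1]
      have a := ih (2 * lam / 3) (by positivity)
      have b := ih (2 * lam) (by positivity)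
      linarith

theorem one_sub_g (K : ℕ) : ∀ lam : ℝ, 0 < lam → 1 - g K lam ≤ lam := by
  induction K with
  | zero =>
    intro lam h
    rw [g_zero h]
    split_ifs with h1 <;> linarith
  | succ K ih =>
    intro lam h
    rw [g_succ K h]
    have a := ih (2 * lam / 3) (by positivity)
    have b := ih (2 * lam) (by positivity)
    linarith

theorem r_le_g {H : ℝ} (hH : 0 < H) (K : ℕ) : ∀ lam : ℝ, 0 < lam → r K lam ≤ g K (lam / H) + 1 / H := by
  induction K with
  | zero =>
    intro lam h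
    rcases le_or_gt lam 1 with h1 | h1
    · rw [r_of_le _ h1]
      have := one_sub_g 0 (lam / H) (by positivity)
      have h2 : lam / H ≤ 1 / H := div_le_div_of_nonneg_right h1 hH.le
      linarith
    · rw [r_zero h1]
      have := g_nonneg 0 (lam / H)
      positivity
  | succ K ih =>
    intro lam h
    rcases le_or_gt lam 1 with h1 | h1
    · rw [r_of_le _ h1]
      have := one_sub_g (K + 1) (lam / H) (by positivity)
      have h2 : lam / H ≤ 1 / H := div_le_div_of_nonneg_right h1 hH.le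
      linarith
    · rw [r_succ K h1, g_succ K (by positivity)]
      have a := ih (2 * lam / 3) (by positivity)
      have b := ih (2 * lam) (by positivity)
      have e1 : 2 * lam / 3 / H = 2 * (lam / H) / 3 := by ring
      have e2 : 2 * lam / H = 2 * (lam / H) := by ring
      rw [e1] at a
      rw [e2] at b
      linarith

/-- `lam P(max_{k ≤ K} exp S_k ≥ lam)` -/
noncomputable def f (K : ℕ) (lam : ℝ) : ℝ := lam * (1 - s K lam)

theorem f_succ (K : ℕ) {lam : ℝ} (h : 1 < lam) : f (K + 1) lam = 3 / 4 * f K (2 * lam / 3) + 1 / 4 * f K (2 * lam) := by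
  unfold f
  rw [s_succ K h]
  ring

theorem f_nonneg (K : ℕ) {lam : ℝ} (h : 0 ≤ lam) : 0 ≤ f K lam :=
  mul_nonneg h (sub_nonneg.2 (s_le_one K lam))

theorem f_le (K : ℕ) {lam : ℝ} (h : 0 ≤ lam) : f K lam ≤ lam * p lam := by
  unfold f p
  apply mul_le_mul_of_nonneg_left _ h
  have := q_le_s K lam
  linarith

theorem f_zero {lam : ℝ} (h : 1 < lam) : f 0 lam = 0 := by
  unfold f s
  rw [if_pos h]; ring

theorem upper_f {La B : ℝ} (hLa : 3 / 2 < La) (hB0 : 0 ≤ B) (hB : ∀ m : ℝ, 2 * La / 3 ≤ m → m * p m ≤ B) (K : ℕ) :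
    ∀ lam : ℝ, 2 * La / 3 ≤ lam → f K lam ≤ B * r K (lam / La) := by
  induction K with
  | zero =>
    intro lam h
    have h0 : 1 < lam := by linarith
    rw [f_zero h0]
    apply mul_nonneg hB0
    unfold r
    split_ifs <;> norm_num
  | succ K ih =>
    intro lam h
    have h0 : 1 < lam := by linarith
    rcases le_or_gt (lam / La) 1 with h1 | h1
    · rw [r_of_le _ h1, mul_one]
      exact (f_le _ (by linarith)).trans (hB lam h)
    · rw [r_succ K h1, f_succ K h0]
      have h2 : La < lam := by rwa [one_lt_div (by linarith)] at h1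
      have a := ih (2 * lam / 3) (by linarith)
      have b := ih (2 * lam) (by linarith)
      have e1 : 2 * lam / 3 / La = 2 * (lam / La) / 3 := by ring
      have e2 : 2 * lam / La = 2 * (lam / La) := by ring
      rw [e1] at a
      rw [e2] at b
      linarith

theorem lower_f {La B : ℝ} (hLa : 3 / 2 < La) (hh : ℕ)
    (hB : ∀ K : ℕ, hh ≤ K → ∀ m : ℝ, 2 * La / 3 ≤ m → m ≤ La → B ≤ f K m) (K : ℕ) :
    ∀ lam : ℝ, 2 * La / 3 ≤ lam → B * r K (lam / La) ≤ f (K + hh) lam := by
  induction K with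
  | zero =>
    intro lam h
    rcases le_or_gt (lam / La) 1 with h1 | h1
    · rw [r_of_le _ h1, mul_one]
      rw [div_le_one (by linarith)] at h1
      exact hB _ (by omega) lam h h1
    · rw [r_zero h1, mul_zero]
      exact f_nonneg _ (by linarith)
  | succ K ih =>
    intro lam h
    have h0 : 1 < lam := by linarith
    rcases le_or_gt (lam / La) 1 with h1 | h1
    · rw [r_of_le _ h1, mul_one]
      rw [div_le_one (by linarith)] at h1
      exact hB _ (by omega) lam h h1
    · have h2 : La < lam := by rwa [one_lt_div (by linarith)] at h1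
      rw [r_succ K h1, show K + 1 + hh = (K + hh) + 1 by ring, f_succ _ h0]
      have a := ih (2 * lam / 3) (by linarith)
      have b := ih (2 * lam) (by linarith)
      have e1 : 2 * lam / 3 / La = 2 * (lam / La) / 3 := by ring
      have e2 : 2 * lam / La = 2 * (lam / La) := by ring
      rw [e1] at a
      rw [e2] at b
      linarith

/-- the time horizon -/
noncomputable def TT (u lam : ℝ) : ℝ := Real.log lam / mu + u * kap * √(Real.log lam)

/-- the binomial approximation -/
theorem g_limit (u : ℝ) {c : ℝ} (hc : 0 < c) (hh : ℕ) :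
    Tendsto (fun lam : ℝ => g (⌊TT u lam⌋₊ - hh) (lam / c)) atTop (𝓝 (PhiBar (-u))) := by
  have hmu := mu_pos
  have hsg := sg_pos
  have hL : Tendsto (fun lam : ℝ => Real.log lam) atTop atTop := Real.tendsto_log_atTop
  have hsq : Tendsto (fun lam : ℝ => √(Real.log lam)) atTop atTop := Real.tendsto_sqrt_atTop.comp hL
  have hinv : Tendsto (fun lam : ℝ => (√(Real.log lam))⁻¹) atTop (𝓝 0) := tendsto_inv_atTop_zero.comp hsq
  -- `TT / log`
  have h1 : Tendsto (fun lam : ℝ => TT u lam / Real.log lam) atTop (𝓝 (1 / mu)) := by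
    have h2 := (hinv.const_mul (u * kap)).const_add (1 / mu)
    rw [mul_zero, add_zero] at h2
    refine h2.congr' ?_
    filter_upwards [hL.eventually_gt_atTop 0] with lam hlam
    unfold TT
    have h3 : Real.log lam = √(Real.log lam) * √(Real.log lam) := (Real.mul_self_sqrt hlam.le).symm
    have h4 : √(Real.log lam) ≠ 0 := (Real.sqrt_pos.2 hlam).ne'
    have h5 : Real.log lam ≠ 0 := hlam.ne'
    rw [add_div]
    congr 1
    · field_simp
    · rw [inv_eq_one_div, ← mul_div_assoc, mul_one, div_eq_div_iff h4 h5]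
      calc u * kap * Real.log lam = u * kap * (√(Real.log lam) * √(Real.log lam)) := by rw [← h3]
        _ = _ := by ring
  have hTT : Tendsto (fun lam : ℝ => TT u lam) atTop atTop := by
    have h2 := h1.pos_mul_atTop (by positivity) hL
    refine h2.congr' ?_
    filter_upwards [hL.eventually_gt_atTop 0] with lam hlam
    field_simp
  -- the integer time
  set K : ℝ → ℕ := fun lam => ⌊TT u lam⌋₊ - hh with hK
  have hKatTop : Tendsto K atTop atTop := by
    have h2 : Tendsto (fun lam => ⌊TT u lam⌋₊) atTop atTop := tendsto_nat_floor_atTop.comp hTT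
    exact (tendsto_sub_atTop_nat hh).comp h2
  have hdiff : ∀ᶠ lam in atTop, |(K lam : ℝ) - TT u lam| ≤ hh + 1 := by
    filter_upwards [hTT.eventually_ge_atTop (hh + 1)] with lam hlam
    have h2 : (hh : ℝ) ≤ TT u lam := by linarith
    have h3 : hh ≤ ⌊TT u lam⌋₊ := Nat.le_floor h2
    simp only [hK]
    rw [Nat.cast_sub h3, abs_le]
    have h4 := Nat.floor_le (show 0 ≤ TT u lam by linarith [(Nat.cast_nonneg hh : (0 : ℝ) ≤ hh)])
    have h5 := Nat.lt_floor_add_one (TT u lam)
    have h6 : (0 : ℝ) ≤ hh := Nat.cast_nonneg hh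
    constructor <;> linarith
  have hd0 : ∀ {w : ℝ → ℝ}, Tendsto w atTop (𝓝 0) → (∀ᶠ lam in atTop, 0 ≤ w lam) →
      Tendsto (fun lam => ((K lam : ℝ) - TT u lam) * w lam) atTop (𝓝 0) := by
    intro w hw hw0
    refine squeeze_zero_norm' ?_ (show Tendsto (fun lam => ((hh : ℝ) + 1) * w lam) atTop (𝓝 0) by
      have := hw.const_mul ((hh : ℝ) + 1); rwa [mul_zero] at this)
    filter_upwards [hdiff, hw0] with lam h2 h3
    rw [Real.norm_eq_abs, abs_mul, abs_of_nonneg h3]
    exact mul_le_mul_of_nonneg_right h2 h3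
  have hKL : Tendsto (fun lam => (K lam : ℝ) / Real.log lam) atTop (𝓝 (1 / mu)) := by
    have h2 : Tendsto (fun lam : ℝ => (Real.log lam)⁻¹) atTop (𝓝 0) := tendsto_inv_atTop_zero.comp hL
    have h3 := (hd0 h2 (by
      filter_upwards [hL.eventually_gt_atTop 0] with lam hlam
      positivity)).add h1
    rw [zero_add] at h3
    refine h3.congr fun lam => ?_
    ring
  have hnum : Tendsto (fun lam => (Real.log lam - Real.log c - K lam * mu) / √(Real.log lam)) atTop
      (𝓝 (-(u * kap * mu))) := by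
    have h3 := (hd0 hinv (by filter_upwards with lam; positivity)).mul_const mu
    have h4 := hinv.const_mul (Real.log c)
    have h5 := (h4.add h3).neg.add (tendsto_const_nhds (x := -(u * kap * mu)))
    rw [zero_mul, mul_zero, add_zero, neg_zero, zero_add] at h5
    refine h5.congr' ?_
    filter_upwards [hL.eventually_gt_atTop 0] with lam hlam
    have h6 : √(Real.log lam) ≠ 0 := (Real.sqrt_pos.2 hlam).ne'
    unfold TT
    field_simp
    ring
  have hy : Tendsto (fun lam => ((Real.log (lam / c) - K lam * mu) / sg) / √(K lam : ℝ)) atTop (𝓝 (-u)) := by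
    have h3 : Tendsto (fun lam => √((K lam : ℝ) / Real.log lam)) atTop (𝓝 (√(1 / mu))) :=
      (Real.continuous_sqrt.tendsto _).comp hKL
    have h4 := (hnum.div_const sg).div h3 (Real.sqrt_pos.2 (by positivity)).ne'
    have e : -(u * kap * mu) / sg / √(1 / mu) = -u := by
      unfold kap
      have h5 : √mu ≠ 0 := (Real.sqrt_pos.2 hmu).ne'
      rw [Real.sqrt_div zero_le_one, Real.sqrt_one]
      field_simp
    rw [e] at h4
    refine h4.congr' ?_
    filter_upwards [hL.eventually_gt_atTop 0, eventually_gt_atTop 0, hKatTop.eventually_gt_atTop 0] with lam hlam hl0 hK0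
    have h6 : √(Real.log lam) ≠ 0 := (Real.sqrt_pos.2 hlam).ne'
    have h7 : √(K lam : ℝ) ≠ 0 := (Real.sqrt_pos.2 (by exact_mod_cast hK0)).ne'
    simp only [Pi.div_apply]
    rw [Real.log_div hl0.ne' hc.ne', Real.sqrt_div (Nat.cast_nonneg _)]
    field_simp
  exact clt_moving hKatTop hy

/-- THE FIRST PASSAGE TIMES of the walk: `lam P(τ_(c lam) ≤ log lam / μ + u κ √(log lam)) → C Φ(u) / c` -/
theorem f_limit (u : ℝ) {c : ℝ} (hc : 0 < c) : Tendsto (fun lam : ℝ => f ⌊TT u lam⌋₊ (c * lam)) atTop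
    (𝓝 (Pool.Agent.W36.SL.C * PhiBar (-u))) := by
  set C := Pool.Agent.W36.SL.C with hC
  have hCpos : 0 < C := Pool.Agent.W36.SL.C_pos
  set Φ := PhiBar (-u) with hΦ
  have hΦ0 : 0 ≤ Φ := MeasureTheory.measureReal_nonneg
  have hΦ1 : Φ ≤ 1 := by
    rw [hΦ]; unfold PhiBar
    exact MeasureTheory.measureReal_le_one
  rw [Metric.tendsto_nhds]
  intro δ hδ
  -- choice of the parameters
  set ε : ℝ := min (min 1 C) (δ / (4 * (C + 4))) with hε
  have hε0 : 0 < ε := by rw [hε]; positivity
  have hε1 : ε ≤ 1 := (min_le_left _ _).trans (min_le_left _ _)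
  have hεC : ε ≤ C := (min_le_left _ _).trans (min_le_right _ _)
  have hεδ : ε * (4 * (C + 4)) ≤ δ := by
    have : ε ≤ δ / (4 * (C + 4)) := min_le_right _ _
    rwa [le_div_iff₀ (by positivity)] at this
  obtain ⟨L1, hL1⟩ := eventually_atTop.1 (Metric.tendsto_nhds.1 p_tendsto (ε / 2) (by positivity))
  set La : ℝ := max 2 (3 / 2 * L1) with hLa
  have hLa2 : 2 ≤ La := le_max_left _ _
  have hLaL : L1 ≤ 2 * La / 3 := by
    have : 3 / 2 * L1 ≤ La := le_max_right _ _
    linarith
  have hup : ∀ m : ℝ, 2 * La / 3 ≤ m → m * p m ≤ C + ε := by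
    intro m hm
    have := hL1 m (hLaL.trans hm)
    rw [Real.dist_eq, abs_lt] at this
    linarith
  have hlo1 : ∀ m : ℝ, 2 * La / 3 ≤ m → C - ε / 2 ≤ m * p m := by
    intro m hm
    have := hL1 m (hLaL.trans hm)
    rw [Real.dist_eq, abs_lt] at this
    linarith
  have hb : Tendsto (fun K : ℕ => b ^ K * √La) atTop (𝓝 0) := by
    have := (tendsto_pow_atTop_nhds_zero_of_lt_one b_pos.le b_lt_one).mul_const √La
    rwa [zero_mul] at this
  obtain ⟨hh, hhh⟩ := eventually_atTop.1 (hb.eventually (gt_mem_nhds (show (0 : ℝ) < ε / 2 by positivity)))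
  have hlo : ∀ K : ℕ, hh ≤ K → ∀ m : ℝ, 2 * La / 3 ≤ m → m ≤ La → C - ε ≤ f K m := by
    intro K hK m hm1 hm2
    have hm0 : 0 < m := by linarith
    have h1 := s_sub_q K m hm0
    have h2 := hhh K hK
    have h3 : m * (b ^ K / √m) = b ^ K * √m := by
      have : m = √m * √m := (Real.mul_self_sqrt hm0.le).symm
      have h4 : √m ≠ 0 := (Real.sqrt_pos.2 hm0).ne'
      calc m * (b ^ K / √m) = (√m * √m) * (b ^ K / √m) := by rw [← this]
        _ = _ := by field_simp
    have h4 : b ^ K * √m ≤ b ^ K * √La :=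
      mul_le_mul_of_nonneg_left (Real.sqrt_le_sqrt hm2) (pow_nonneg b_pos.le _)
    have h5 : m * (s K m - q m) ≤ ε / 2 := by
      calc m * (s K m - q m) ≤ m * (b ^ K / √m) := mul_le_mul_of_nonneg_left h1 hm0.le
        _ ≤ _ := by rw [h3]; linarith
    have h6 := hlo1 m hm1
    unfold f
    have e : m * (1 - s K m) = m * p m - m * (s K m - q m) := by unfold p; ring
    rw [e]
    linarith
  set H : ℝ := 1 / ε with hH
  have hHpos : 0 < H := by rw [hH]; positivity
  have g1 := Metric.tendsto_nhds.1 (g_limit u (c := La * H / c) (by positivity) 0) ε hε0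
  have g2 := Metric.tendsto_nhds.1 (g_limit u (c := La / c) (by positivity) hh) ε hε0
  have hTT : Tendsto (fun lam : ℝ => ⌊TT u lam⌋₊) atTop atTop := by
    -- from the previous computation
    have hmu := mu_pos
    have hL : Tendsto (fun lam : ℝ => Real.log lam) atTop atTop := Real.tendsto_log_atTop
    have hsq : Tendsto (fun lam : ℝ => √(Real.log lam)) atTop atTop := Real.tendsto_sqrt_atTop.comp hL
    apply tendsto_nat_floor_atTop.comp
    have h1 : Tendsto (fun lam : ℝ => √(Real.log lam) / mu + u * kap) atTop atTop :=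
      tendsto_atTop_add_const_right _ _ (hsq.atTop_div_const hmu)
    have h2 := hsq.atTop_mul_atTop₀ h1
    refine h2.congr' ?_
    filter_upwards [hL.eventually_gt_atTop 0] with lam hlam
    unfold TT
    have h3 : Real.log lam = √(Real.log lam) * √(Real.log lam) := (Real.mul_self_sqrt hlam.le).symm
    calc √(Real.log lam) * (√(Real.log lam) / mu + u * kap)
        = (√(Real.log lam) * √(Real.log lam)) / mu + u * kap * √(Real.log lam) := by ring
      _ = _ := by rw [← h3]
  filter_upwards [g1, g2, hTT.eventually_ge_atTop hh, eventually_ge_atTop (2 * La / 3 / c)] with lam k1 k2 k3 k4'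
  have k4 : 2 * La / 3 ≤ c * lam := by rw [div_le_iff₀ hc] at k4'; linarith
  have hlam0 : 0 < lam := lt_of_lt_of_le (by positivity) k4'
  rw [Real.dist_eq, abs_lt] at k1 k2 ⊢
  rw [Nat.sub_zero] at k1
  have u1 := upper_f (La := La) (B := C + ε) (by linarith) (by positivity) hup ⌊TT u lam⌋₊ (c * lam) k4
  have u2 := r_le_g hHpos ⌊TT u lam⌋₊ (c * lam / La) (by positivity)
  have u3 : c * lam / La / H = lam / (La * H / c) := by field_simp
  rw [u3] at u2
  have u4 : 1 / H = ε := by rw [hH, one_div_one_div]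
  rw [u4] at u2
  have l1 := lower_f (La := La) (B := C - ε) (by linarith) hh hlo (⌊TT u lam⌋₊ - hh) (c * lam) k4
  rw [Nat.sub_add_cancel k3] at l1
  have l2 := g_le_r (⌊TT u lam⌋₊ - hh) (c * lam / La) (by positivity)
  have l3 : c * lam / La = lam / (La / c) := by field_simp
  rw [l3] at l1 l2 u1
  rw [l3] at u2
  constructor
  · have h1 : (C - ε) * (Φ - ε) ≤ f ⌊TT u lam⌋₊ (c * lam) := by
      have a1 : (C - ε) * g (⌊TT u lam⌋₊ - hh) (lam / (La / c)) ≤ (C - ε) * r (⌊TT u lam⌋₊ - hh) (lam / (La / c)) :=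
        mul_le_mul_of_nonneg_left l2 (by linarith)
      have a2 : (C - ε) * (Φ - ε) ≤ (C - ε) * g (⌊TT u lam⌋₊ - hh) (lam / (La / c)) :=
        mul_le_mul_of_nonneg_left (by linarith) (by linarith)
      linarith
    nlinarith
  · have h1 : f ⌊TT u lam⌋₊ (c * lam) ≤ (C + ε) * (Φ + 2 * ε) := by
      have a1 : (C + ε) * r ⌊TT u lam⌋₊ (lam / (La / c)) ≤ (C + ε) * (Φ + 2 * ε) :=
        mul_le_mul_of_nonneg_left (by linarith) (by linarith)
      linarith
    nlinarith

end Pool.Agent.H77.Col
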