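import Pool.Agent.H77.Col.FirstPass

/-! The first passage times of the large excursions: the integers. -/

set_option autoImplicit false

namespace Pool.Agent.H77.Col

open Finset Filter Topology
open Pool.Agent.Helper894.Collatz (T od er)
open Pool.Agent.H828R3.Exc (PP MM ge_iff)
open Pool.Agent.W36.SL (s p q b s_mono s_le_one iter_le iter_ge card_PP_N card_Dip_N Dip near log_bound ev_small)

/-- the trajectory exceeds `lam * n` at a time `≤ t` and before it reaches a value `≤ Y` -/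
def ExcT (t : ℕ) (lam Y : ℝ) (n : ℕ) : Prop := ∃ k ≤ t, lam * n < (T^[k] n : ℕ) ∧ ∀ j ≤ k, Y < (T^[j] n : ℕ)

open scoped Classical in
theorem upperT_fin {N t : ℕ} {lam Y : ℝ} (hY0 : 0 < Y) :
    (((Icc 1 N).filter (ExcT t lam Y)).card : ℝ) ≤
      (N + 1 + 2 ^ t) * (1 - s t (lam / (1 + 1 / (3 * Y)) ^ t)) := by
  set R : ℝ := (1 + 1 / (3 * Y)) ^ t with hR
  have hr1 : (1 : ℝ) ≤ 1 + 1 / (3 * Y) := by
    have : 0 < 1 / (3 * Y) := by positivity
    linarith
  have hR1 : 1 ≤ R := one_le_pow₀ hr1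
  have hR0 : 0 < R := by linarith
  set lam1 := lam / R with hlam1
  have hsub : (Icc 1 N).filter (ExcT t lam Y) ⊆ (range (N + 1)).filter fun n => PP lam1 t n := by
    intro n hn
    rw [mem_filter, mem_Icc] at hn
    obtain ⟨⟨hn1, hn2⟩, k0, hk0, hk1, hk2⟩ := hn
    have hnr : n ∈ range (N + 1) := mem_range.2 (by omega)
    have hn0 : (0 : ℝ) < n := by exact_mod_cast hn1
    rw [mem_filter]
    refine ⟨hnr, k0, hk0, ?_⟩
    rw [ge_iff]
    have h1 := iter_le hY0 n k0 fun j hj => (hk2 j hj.le).le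
    have h2 : (1 + 1 / (3 * Y)) ^ k0 ≤ R := pow_le_pow_right₀ hr1 hk0
    have hM0 := Pool.Agent.H828R3.Exc.MM_pos k0 n
    have h3 : lam * n < MM k0 n * n * R := by
      calc lam * n < (T^[k0] n : ℕ) := hk1
        _ ≤ MM k0 n * n * (1 + 1 / (3 * Y)) ^ k0 := h1
        _ ≤ _ := mul_le_mul_of_nonneg_left h2 (by positivity)
    rw [hlam1, div_le_iff₀ hR0]
    have h4 : lam * n < (MM k0 n * R) * n := by linarith
    exact (lt_of_mul_lt_mul_right h4 hn0.le).le
  have hcard : (((Icc 1 N).filter (ExcT t lam Y)).card : ℝ) ≤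
      (((range (N + 1)).filter fun n => PP lam1 t n).card : ℝ) := by
    exact_mod_cast card_le_card hsub
  have c1 := (card_PP_N t (N + 1) lam1).1
  push_cast at c1
  linarith

open scoped Classical in
theorem lowerT_fin {N N0 J : ℕ} {lam lam2 Y : ℝ} (hlam : 0 < lam) (hl : lam < lam2) (hN0 : 0 < N0)
    (hY0 : 0 ≤ Y) :
    ((N : ℝ) - N0 - 2 * 2 ^ J) * (1 - s J lam2) -
      (N + 1 + 2 ^ J) * ((J + 1) ^ 2 * ((Y / N0) / lam2)) ≤
      (((Icc 1 N).filter (ExcT J lam Y)).card : ℝ) := by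
  have hN0R : (0 : ℝ) < N0 := by exact_mod_cast hN0
  set mu : ℝ := Y / N0 with hmu
  have hmu0 : 0 ≤ mu := by positivity
  have hsub : ((range (N + 1)).filter fun n => PP lam2 J n) ⊆
      (Icc 1 N).filter (ExcT J lam Y) ∪ ((range (N0 + 1)).filter fun n => PP lam2 J n) ∪
      ((range (N + 1)).filter fun n => Dip mu lam2 J n) := by
    intro n hn
    rw [mem_filter, mem_range] at hn
    obtain ⟨hn1, hn2⟩ := hn
    rw [mem_union, mem_union]
    by_cases hnN : n ≤ N0
    · left; right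
      exact mem_filter.2 ⟨mem_range.2 (by omega), hn2⟩
    by_cases hD : Dip mu lam2 J n
    · right
      exact mem_filter.2 ⟨mem_range.2 hn1, hD⟩
    left; left
    rw [mem_filter, mem_Icc]
    have hn0 : 0 < n := by omega
    have hn0R : (0 : ℝ) < n := by exact_mod_cast hn0
    refine ⟨⟨hn0, by omega⟩, ?_⟩
    obtain ⟨j, hj, hjb⟩ := hn2
    rw [ge_iff] at hjb
    refine ⟨j, hj, ?_, ?_⟩
    · calc lam * n < lam2 * n := mul_lt_mul_of_pos_right hl hn0R
        _ ≤ MM j n * n := mul_le_mul_of_nonneg_right hjb hn0R.le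
        _ ≤ _ := iter_ge j n
    · intro i hi
      have h1 : mu < MM i n := by
        by_contra h
        exact hD ⟨j, hj, i, hi, not_lt.1 h, hjb⟩
      calc Y = mu * N0 := by rw [hmu]; field_simp
        _ ≤ mu * n := by
            apply mul_le_mul_of_nonneg_left _ hmu0
            exact_mod_cast (by omega : N0 ≤ n)
        _ < MM i n * n := mul_lt_mul_of_pos_right h1 hn0R
        _ ≤ _ := iter_ge i n
  have hcard : (((range (N + 1)).filter fun n => PP lam2 J n).card : ℝ) ≤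
      (((Icc 1 N).filter (ExcT J lam Y)).card : ℝ) +
      (((range (N0 + 1)).filter fun n => PP lam2 J n).card : ℝ) +
      (((range (N + 1)).filter fun n => Dip mu lam2 J n).card : ℝ) := by
    have h1 := (card_le_card hsub).trans ((card_union_le _ _).trans
      (Nat.add_le_add_right (card_union_le _ _) _))
    exact_mod_cast h1
  have c1 := (card_PP_N J (N + 1) lam2).2
  have c2 := (card_PP_N J (N0 + 1) lam2).1
  have c3 := card_Dip_N J (N + 1) hmu0 (hlam.trans hl)
  push_cast at c1 c2 c3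
  have e : ((N : ℝ) - N0 - 2 * 2 ^ J) * (1 - s J lam2) =
      ((N : ℝ) + 1 - 2 ^ J) * (1 - s J lam2) - (N0 + 1 + 2 ^ J) * (1 - s J lam2) := by ring
  rw [e]
  linarith

theorem mu_ge : 1 / 9 ≤ mu := by
  unfold mu
  have h : (4 : ℝ) / 9 ≤ Real.log (27 / 16) := by
    rw [Real.le_log_iff_exp_le (by norm_num)]
    have h1 := Real.exp_one_lt_d9
    have h2 : Real.exp (4 / 9) ^ 9 ≤ (27 / 16 : ℝ) ^ 9 := by
      rw [← Real.exp_nat_mul]
      have e : ((9 : ℕ) : ℝ) * (4 / 9) = ((4 : ℕ) : ℝ) * 1 := by norm_num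
      rw [e, Real.exp_nat_mul]
      have h3 : Real.exp 1 ^ 4 ≤ (2.7182818286 : ℝ) ^ 4 := pow_le_pow_left₀ (Real.exp_pos 1).le h1.le 4
      refine h3.trans ?_
      norm_num
    exact le_of_pow_le_pow_left₀ (by norm_num) (by norm_num) h2
  linarith

/-- the time horizon is at most `10 log lam` for large `lam` -/
theorem TT_le (u : ℝ) : ∀ᶠ lam in (atTop : Filter ℝ), (⌊TT u lam⌋₊ : ℝ) ≤ 10 * Real.log lam := by
  have hL : Tendsto (fun lam : ℝ => Real.log lam) atTop atTop := Real.tendsto_log_atTop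
  have hsq : Tendsto (fun lam : ℝ => √(Real.log lam)) atTop atTop := Real.tendsto_sqrt_atTop.comp hL
  filter_upwards [hL.eventually_gt_atTop 0, hsq.eventually_ge_atTop (|u * kap|)] with lam h1 h2
  have h3 : TT u lam ≤ 10 * Real.log lam := by
    unfold TT
    have h4 : Real.log lam / mu ≤ 9 * Real.log lam := by
      rw [div_le_iff₀ mu_pos]
      have := mu_ge
      nlinarith
    have h5 : u * kap * √(Real.log lam) ≤ √(Real.log lam) * √(Real.log lam) :=
      mul_le_mul_of_nonneg_right ((le_abs_self _).trans h2) (Real.sqrt_nonneg _)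
    rw [Real.mul_self_sqrt h1.le] at h5
    linarith
  rcases le_or_gt 0 (TT u lam) with h4 | h4
  · exact (Nat.floor_le h4).trans h3
  · rw [Nat.floor_of_nonpos h4.le]
    simpa using h1.le

theorem two_pow_le {t : ℕ} {lam : ℝ} (h0 : 0 < lam) (h : (t : ℝ) ≤ 10 * Real.log lam) (h1 : 1 ≤ lam) :
    (2 : ℝ) ^ t ≤ lam ^ (7 : ℝ) := by
  have h2 := Real.log_two_lt_d9
  have h3 : 0 ≤ Real.log lam := Real.log_nonneg h1
  have h4 : 0 < Real.log 2 := Real.log_pos (by norm_num)
  rw [← Real.rpow_natCast 2 t, Real.rpow_def_of_pos (by norm_num), Real.rpow_def_of_pos h0]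
  apply Real.exp_le_exp.2
  have h5 : Real.log 2 * (t : ℝ) ≤ Real.log 2 * (10 * Real.log lam) := mul_le_mul_of_nonneg_left h h4.le
  nlinarith

theorem arith_low {A C e ε : ℝ} (hA0 : 0 ≤ A) (hAC : A ≤ C) (he : 0 < e) (he1 : e ≤ 1)
    (h : e * (6 + 4 * C) ≤ ε) : A - ε ≤ (1 - e) * ((A - e) / (1 + e)) - e := by
  have hC : 0 ≤ e * C := mul_nonneg he.le (hA0.trans hAC)
  have h' : 6 * e + 4 * (e * C) ≤ ε := by linarith
  rcases lt_or_ge (A - e) 0 with h0 | h0
  · have h1 : (A - e) / (1 + e) ≤ 0 := div_nonpos_of_nonpos_of_nonneg h0.le (by linarith)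
    have h2 : A - e ≤ (A - e) / (1 + e) := by
      rw [le_div_iff₀ (by linarith)]
      have : 0 ≤ (e - A) * e := mul_nonneg (by linarith) he.le
      linarith
    generalize (A - e) / (1 + e) = q at h1 h2 ⊢
    have h3 : 0 ≤ e * (-q) := mul_nonneg he.le (by linarith)
    linarith
  · have h4 : (1 - e) * (A - e) ≤ (A - e) / (1 + e) := by
      rw [le_div_iff₀ (by linarith)]
      have : 0 ≤ e ^ 2 * (A - e) := mul_nonneg (sq_nonneg e) h0
      linarith
    have h5 : (1 - e) * ((1 - e) * (A - e)) ≤ (1 - e) * ((A - e) / (1 + e)) :=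
      mul_le_mul_of_nonneg_left h4 (by linarith)
    have h6 : (1 - e) * ((1 - e) * (A - e)) = (A - e) - 2 * (e * A) + 2 * e ^ 2 + e ^ 2 * (A - e) := by ring
    have h7 : 0 ≤ e ^ 2 * (A - e) := mul_nonneg (sq_nonneg e) h0
    have h8 : e * A ≤ e * C := mul_le_mul_of_nonneg_left hAC he.le
    have h9 : 0 ≤ e ^ 2 := sq_nonneg e
    linarith

theorem arith_up {A C e ε : ℝ} (hA0 : 0 ≤ A) (hAC : A ≤ C) (he : 0 < e) (he1 : e ≤ 1)
    (h : e * (6 + 4 * C) ≤ ε) : (1 + e) * ((A + e) * (1 + e)) ≤ A + ε := by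
  have h' : 6 * e + 4 * (e * C) ≤ ε := by linarith
  have h4 : e ^ 2 ≤ e := by
    have : 0 ≤ e * (1 - e) := mul_nonneg he.le (by linarith)
    linarith
  have h5 : (1 + e) ^ 2 ≤ 1 + 3 * e := by linarith
  have h6 : (A + e) * (1 + e) ^ 2 ≤ (A + e) * (1 + 3 * e) :=
    mul_le_mul_of_nonneg_left h5 (by linarith)
  have h8 : e * A ≤ e * C := mul_le_mul_of_nonneg_left hAC he.le
  have h9 : (A + e) * (1 + 3 * e) = A + e + 3 * (e * A) + 3 * e ^ 2 := by ring
  have h10 : (1 + e) * ((A + e) * (1 + e)) = (A + e) * (1 + e) ^ 2 := by ring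
  have h11 : 0 ≤ e * C := mul_nonneg he.le (hA0.trans hAC)
  linarith

open scoped Classical in
/-- THE LAW OF THE FIRST PASSAGE TIMES -/
theorem first_passage {θ θ' v : ℝ} (hθ : 0 < θ) (hθ' : θ' < 1) (hv : v < 1 / 21) (u : ℝ)
    {ε : ℝ} (hε : 0 < ε) : ∃ L0 x0 : ℝ, ∀ x Y lam : ℝ, x0 ≤ x → x ^ θ ≤ Y → Y ≤ x ^ θ' →
      L0 ≤ lam → lam ≤ x ^ v →
      |(((Icc 1 ⌊x⌋₊).filter (ExcT ⌊TT u lam⌋₊ lam Y)).card : ℝ) -
        Pool.Agent.W36.SL.C * PhiBar (-u) * (x / lam)| ≤ ε * (x / lam) := by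
  set C := Pool.Agent.W36.SL.C with hC
  have hCpos : 0 < C := Pool.Agent.W36.SL.C_pos
  set Φ := PhiBar (-u) with hΦ
  have hΦ0 : 0 ≤ Φ := MeasureTheory.measureReal_nonneg
  have hΦ1 : Φ ≤ 1 := by
    rw [hΦ]; unfold PhiBar
    exact MeasureTheory.measureReal_le_one
  -- the parameter
  set e : ℝ := min 1 (ε / (6 + 4 * C)) with hedef
  have he : 0 < e := by rw [hedef]; positivity
  have he1 : e ≤ 1 := min_le_left _ _
  have heε : e * (6 + 4 * C) ≤ ε := by
    have : e ≤ ε / (6 + 4 * C) := min_le_right _ _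
    rwa [le_div_iff₀ (by positivity)] at this
  have f1 := Metric.tendsto_nhds.1 (f_limit u (c := 1 / (1 + e)) (by positivity)) e he
  have f2 := Metric.tendsto_nhds.1 (f_limit u (c := 1 + e) (by positivity)) e he
  obtain ⟨L0, hL0⟩ := eventually_atTop.1 ((f1.and f2).and (TT_le u))
  set δ : ℝ := (1 - θ') / 2 with hδ
  have hδ0 : 0 < δ := by rw [hδ]; linarith
  have main : ∀ᶠ x in (atTop : Filter ℝ), ∀ Y lam : ℝ, x ^ θ ≤ Y → Y ≤ x ^ θ' →
      max L0 1 ≤ lam → lam ≤ x ^ v →
      |(((Icc 1 ⌊x⌋₊).filter (ExcT ⌊TT u lam⌋₊ lam Y)).card : ℝ) - C * Φ * (x / lam)| ≤ ε * (x / lam) := by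
    filter_upwards [eventually_ge_atTop (Real.exp 1),
      ev_small 0 (show (0 : ℝ) < 2 / 3 by norm_num) 4 (show 0 < e / 2 by linarith),
      ev_small 0 hδ0 1 (show 0 < e / 2 by linarith),
      ev_small 2 hδ0 27 he,
      ev_small 1 hθ 3 (Real.log_pos (show (1 : ℝ) < 1 + e by linarith))]
      with x hx1 hx2 hx3 hx4 hx7 Y lam hY1 hY2 hlam hlamx
    rw [pow_zero, one_mul] at hx2 hx3
    rw [one_mul] at hx3
    rw [pow_one] at hx7
    obtain ⟨⟨k1, k2⟩, k3⟩ := hL0 lam ((le_max_left _ _).trans hlam)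
    have hlam1 : 1 ≤ lam := (le_max_right _ _).trans hlam
    have hlam0 : 0 < lam := by linarith
    have hxe : (2 : ℝ) ≤ x := by
      have := Real.add_one_le_exp 1
      linarith
    have hx0 : 0 < x := by linarith
    have hxone : 1 ≤ x := by linarith
    set L := Real.log x with hL
    have hL1' : 1 ≤ L := by
      rw [hL, ← Real.log_exp 1]; exact Real.log_le_log (Real.exp_pos 1) hx1
    have hxθ : 1 ≤ x ^ θ := Real.one_le_rpow hxone hθ.le
    have hY0 : 0 < Y := by linarith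
    set t := ⌊TT u lam⌋₊ with ht
    have h2t : (2 : ℝ) ^ t ≤ x * x ^ (-(2 / 3) : ℝ) := by
      refine (two_pow_le hlam0 k3 hlam1).trans ?_
      rw [← Real.rpow_one_add' hx0.le (by norm_num)]
      calc lam ^ (7 : ℝ) ≤ (x ^ v) ^ (7 : ℝ) := Real.rpow_le_rpow hlam0.le hlamx (by norm_num)
        _ = x ^ (v * 7) := by rw [← Real.rpow_mul hx0.le]
        _ ≤ _ := Real.rpow_le_rpow_of_exponent_le hxone (by linarith)
    have htL : (t : ℝ) ≤ 3 / 2 * L := by
      apply log_bound hx0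
      refine h2t.trans ?_
      have : x ^ (-(2 / 3) : ℝ) ≤ 1 := Real.rpow_le_one_of_one_le_of_nonpos hxone (by norm_num)
      exact mul_le_of_le_one_right hx0.le this
    have hN1 : ((⌊x⌋₊ : ℕ) : ℝ) ≤ x := Nat.floor_le hx0.le
    have hN2 : x < ((⌊x⌋₊ : ℕ) : ℝ) + 1 := Nat.lt_floor_add_one x
    have hxl : 0 ≤ x / lam := by positivity
    have hxm : 1 ≤ x * x ^ (-(2 / 3) : ℝ) := by
      rw [← Real.rpow_one_add' hx0.le (by norm_num)]; exact Real.one_le_rpow hxone (by norm_num)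
    rw [Real.dist_eq, abs_lt] at k1 k2
    have hex : 0 ≤ e * x := by positivity
    have hex1 : e * x ≤ x := mul_le_of_le_one_left hx0.le he1
    have hz4 : x * x ^ (-(2 / 3) : ℝ) * 4 ≤ x * (e / 2) := by
      have := mul_le_mul_of_nonneg_left hx2 hx0.le
      linarith
    have a3 : ((⌊x⌋₊ : ℕ) : ℝ) + 1 + 2 ^ t ≤ (1 + e) * x := by linarith
    -- upper bound
    have up : (((Icc 1 ⌊x⌋₊).filter (ExcT t lam Y)).card : ℝ) ≤ (1 + e) * ((C * Φ + e) * (1 + e)) * (x / lam) := by
      refine (upperT_fin hY0).trans ?_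
      set R : ℝ := (1 + 1 / (3 * Y)) ^ t with hR
      have hRle : R ≤ 1 + e := by
        have h1 : 1 + 1 / (3 * Y) ≤ Real.exp (1 / (3 * Y)) := by
          have := Real.add_one_le_exp (1 / (3 * Y)); linarith
        calc R ≤ (Real.exp (1 / (3 * Y))) ^ t := pow_le_pow_left₀ (by positivity) h1 t
          _ = Real.exp (t * (1 / (3 * Y))) := (Real.exp_nat_mul _ _).symm
          _ ≤ Real.exp (Real.log (1 + e)) := by
              apply Real.exp_le_exp.2
              refine le_trans ?_ hx7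
              have h2 : 1 / (3 * Y) ≤ x ^ (-θ) := by
                rw [Real.rpow_neg hx0.le, ← one_div]
                apply one_div_le_one_div_of_le (by positivity)
                linarith
              calc (t : ℝ) * (1 / (3 * Y)) ≤ (3 / 2 * L) * x ^ (-θ) := by
                    apply mul_le_mul htL h2 (by positivity) (by positivity)
                _ ≤ 3 * (L * x ^ (-θ)) := by
                    have : 0 ≤ L * x ^ (-θ) := by positivity
                    linarith
          _ = 1 + e := Real.exp_log (by linarith)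
      have hR0 : 0 < R := by rw [hR]; positivity
      have a1 : 1 - s t (lam / R) ≤ 1 - s t (1 / (1 + e) * lam) := by
        have h1 : 1 / (1 + e) * lam ≤ lam / R := by
          rw [one_div_mul_eq_div]
          exact div_le_div_of_nonneg_left hlam0.le hR0 hRle
        have := s_mono t h1
        linarith
      have a2 : 1 - s t (1 / (1 + e) * lam) ≤ (C * Φ + e) * (1 + e) / lam := by
        rw [le_div_iff₀ hlam0]
        have h1 : f t (1 / (1 + e) * lam) ≤ C * Φ + e := by linarith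
        unfold f at h1
        have h2 : 1 / (1 + e) * lam * (1 - s t (1 / (1 + e) * lam)) * (1 + e) ≤ (C * Φ + e) * (1 + e) :=
          mul_le_mul_of_nonneg_right h1 (by linarith)
        have h3 : 1 / (1 + e) * lam * (1 - s t (1 / (1 + e) * lam)) * (1 + e) =
            (1 - s t (1 / (1 + e) * lam)) * lam := by field_simp
        rw [h3] at h2
        exact h2
      have a4 : 0 ≤ 1 - s t (lam / R) := by have := s_le_one t (lam / R); linarith
      calc (((⌊x⌋₊ : ℕ) : ℝ) + 1 + 2 ^ t) * (1 - s t (lam / R))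
          ≤ ((1 + e) * x) * ((C * Φ + e) * (1 + e) / lam) :=
            mul_le_mul a3 (a1.trans a2) a4 (by positivity)
        _ = _ := by ring
    -- lower bound
    have low : (1 - e) * ((C * Φ - e) / (1 + e)) * (x / lam) - e * (x / lam) ≤
        (((Icc 1 ⌊x⌋₊).filter (ExcT t lam Y)).card : ℝ) ∨ C * Φ - e < 0 := by
      rcases lt_or_ge (C * Φ - e) 0 with h0 | h0
      · exact Or.inr h0
      left
      set lam2 := (1 + e) * lam with hlam2
      have hl2 : lam < lam2 := by
        rw [hlam2]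
        have := mul_pos he hlam0
        linarith
      have hlam20 : 0 < lam2 := by linarith
      set N0 := ⌊x ^ (1 - δ)⌋₊ + 1 with hN0
      have hxd : 0 < x ^ (1 - δ) := by positivity
      have hN0a : ((N0 : ℕ) : ℝ) ≤ x ^ (1 - δ) + 1 := by
        rw [hN0]; push_cast
        have := Nat.floor_le hxd.le
        linarith
      have hN0b : x ^ (1 - δ) ≤ ((N0 : ℕ) : ℝ) := by
        rw [hN0]; push_cast
        exact (Nat.lt_floor_add_one _).le
      have hfin := lowerT_fin (N := ⌊x⌋₊) (N0 := N0) (J := t) (lam := lam) (lam2 := lam2) (Y := Y)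
        hlam0 hl2 (Nat.succ_pos _) hY0.le
      have hxδ : x ^ (1 - δ) = x * x ^ (-δ) := by
        rw [sub_eq_add_neg, Real.rpow_add hx0, Real.rpow_one]
      have hmain : (1 - e) * x ≤ ((⌊x⌋₊ : ℕ) : ℝ) - N0 - 2 * 2 ^ t := by
        rw [hxδ] at hN0a
        have h1 : x * x ^ (-δ) ≤ x * (e / 2) := mul_le_mul_of_nonneg_left hx3 hx0.le
        linarith
      have hprob : (C * Φ - e) / (1 + e) / lam ≤ 1 - s t lam2 := by
        have h1 : C * Φ - e ≤ f t ((1 + e) * lam) := by linarith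
        unfold f at h1
        rw [← hlam2] at h1
        rw [div_div, div_le_iff₀ (by positivity)]
        linarith
      have hT1 : (1 - e) * ((C * Φ - e) / (1 + e)) * (x / lam) ≤
          (((⌊x⌋₊ : ℕ) : ℝ) - N0 - 2 * 2 ^ t) * (1 - s t lam2) := by
        have h0 : 0 ≤ (C * Φ - e) / (1 + e) / lam := by positivity
        have h1 : 0 ≤ (1 - e) * x := mul_nonneg (by linarith) hx0.le
        calc (1 - e) * ((C * Φ - e) / (1 + e)) * (x / lam)
            = ((1 - e) * x) * ((C * Φ - e) / (1 + e) / lam) := by ring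
          _ ≤ _ := mul_le_mul hmain hprob h0 (h1.trans hmain)
      have hT2 : (((⌊x⌋₊ : ℕ) : ℝ) + 1 + 2 ^ t) * ((t + 1) ^ 2 * ((Y / N0) / lam2)) ≤ e * (x / lam) := by
        have hN0R : (0 : ℝ) < N0 := by linarith
        have h1 : Y / N0 ≤ x ^ (-δ) := by
          rw [div_le_iff₀ hN0R]
          calc Y ≤ x ^ θ' := hY2
            _ = x ^ (-δ) * x ^ (1 - δ) := by
                rw [← Real.rpow_add hx0]; congr 1; rw [hδ]; ring
            _ ≤ _ := mul_le_mul_of_nonneg_left hN0b (by positivity)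
        have h2 : (Y / N0) / lam2 ≤ x ^ (-δ) / lam := by
          apply div_le_div₀ (by positivity) h1 hlam0 hl2.le
        have h3 : ((t : ℝ) + 1) ^ 2 ≤ 9 * L ^ 2 := by
          have : ((t : ℝ) + 1) ≤ 3 * L := by linarith
          calc ((t : ℝ) + 1) ^ 2 ≤ (3 * L) ^ 2 := pow_le_pow_left₀ (by positivity) this 2
            _ = _ := by ring
        have h4 : ((⌊x⌋₊ : ℕ) : ℝ) + 1 + 2 ^ t ≤ 3 * x := by linarith
        calc _ ≤ (3 * x) * (9 * L ^ 2 * (x ^ (-δ) / lam)) := by gcongr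
          _ = 27 * (L ^ 2 * x ^ (-δ)) * (x / lam) := by ring
          _ ≤ e * (x / lam) := mul_le_mul_of_nonneg_right hx4 (by positivity)
      linarith
    -- conclusion
    have hCΦ : 0 ≤ C * Φ := by positivity
    have hCΦ' : C * Φ ≤ C := mul_le_of_le_one_right hCpos.le hΦ1
    rw [abs_le]
    constructor
    · rcases low with low | h0
      · have k := arith_low hCΦ hCΦ' he he1 heε
        have := mul_le_mul_of_nonneg_right k hxl
        linarith
      · have h1 : (0 : ℝ) ≤ (((Icc 1 ⌊x⌋₊).filter (ExcT t lam Y)).card : ℝ) := Nat.cast_nonneg _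
        have h2 : C * Φ ≤ ε := by
          have : 0 ≤ e * C := by positivity
          linarith
        have := mul_le_mul_of_nonneg_right h2 hxl
        linarith
    · have k := arith_up hCΦ hCΦ' he he1 heε
      have := mul_le_mul_of_nonneg_right k hxl
      linarith
  obtain ⟨x0, hx0⟩ := eventually_atTop.1 main
  exact ⟨max L0 1, x0, fun x Y lam hx h1 h2 h3 h4 => hx0 x hx Y lam h1 h2 h3 h4⟩

end Pool.Agent.H77.Col
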