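import Pool.Agent.H77.Col.FirstPass2
import Pool.Graph.R_seed8.Results.MP_0a5adf_nt.SharpLaw

/-! The first passage times of the large excursions: uniformity. -/

set_option autoImplicit false

namespace Pool.Agent.H77.Col

open Finset Filter Topology ProbabilityTheory
open Pool.Agent.Helper894.Collatz (T od er)

/-- the normal distribution function -/
noncomputable def Phi (u : ℝ) : ℝ := cdf (gaussianReal 0 1) u

theorem Phi_cont : Continuous Phi := by
  have : Phi = fun u => PhiBar (-u) := funext fun u => (PhiBar_neg u).symm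
  rw [this]
  exact PhiBar_cont.comp continuous_neg

theorem Phi_mono : Monotone Phi := monotone_cdf _
theorem Phi_nonneg (u : ℝ) : 0 ≤ Phi u := cdf_nonneg _ _
theorem Phi_le_one (u : ℝ) : Phi u ≤ 1 := cdf_le_one _ _

/-- a finite grid -/
theorem grid {ε : ℝ} (hε : 0 < ε) : ∃ F : Finset ℝ, ∀ u : ℝ,
    (Phi u ≤ ε ∨ ∃ a ∈ F, a ≤ u ∧ Phi u ≤ Phi a + ε) ∧ (1 - ε ≤ Phi u ∨ ∃ b ∈ F, u ≤ b ∧ Phi b ≤ Phi u + ε) := by
  have hbot : Tendsto Phi atBot (𝓝 0) := tendsto_cdf_atBot _
  have htop : Tendsto Phi atTop (𝓝 1) := tendsto_cdf_atTop _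
  obtain ⟨M1, hM1⟩ := eventually_atBot.1 (hbot.eventually (gt_mem_nhds hε))
  obtain ⟨M2, hM2⟩ := eventually_atTop.1 (htop.eventually (lt_mem_nhds (show 1 - ε < 1 by linarith)))
  set M : ℝ := max (max (-M1) M2) 1 with hM
  have hM0 : 1 ≤ M := le_max_right _ _
  have hlo : ∀ u ≤ -M, Phi u < ε := by
    intro u hu
    apply hM1
    have : -M1 ≤ M := (le_max_left _ _).trans (le_max_left _ _)
    linarith
  have hhi : ∀ u, M ≤ u → 1 - ε < Phi u := by
    intro u hu
    apply hM2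
    have : M2 ≤ M := (le_max_right _ _).trans (le_max_left _ _)
    linarith
  have huc : UniformContinuousOn Phi (Set.Icc (-M - 1) (M + 1)) :=
    isCompact_Icc.uniformContinuousOn_of_continuous Phi_cont.continuousOn
  rw [Metric.uniformContinuousOn_iff] at huc
  obtain ⟨δ0, hδ0, hδ⟩ := huc ε hε
  set δ : ℝ := min (δ0 / 2) 1 with hδdef
  have hδpos : 0 < δ := by rw [hδdef]; positivity
  have hδ1 : δ ≤ 1 := min_le_right _ _
  have hδ2 : δ < δ0 := lt_of_le_of_lt (min_le_left _ _) (by linarith)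
  set z : ℕ → ℝ := fun i => -M + i * δ with hz
  obtain ⟨m, hm⟩ := exists_nat_gt (2 * M / δ)
  rw [div_lt_iff₀ hδpos] at hm
  refine ⟨insert M ((range (m + 1)).image z), fun u => ?_⟩
  -- the position in the grid
  by_cases h1 : u ≤ -M
  · refine ⟨Or.inl (hlo u h1).le, Or.inr ⟨z 0, mem_insert_of_mem (mem_image_of_mem _ (mem_range.2 (by omega))), ?_, ?_⟩⟩
    · rw [hz]; simpa using h1
    · have h2 : z 0 ≤ -M := by rw [hz]; simp
      have := hlo _ h2
      have := Phi_nonneg u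
      linarith
  push Not at h1
  by_cases h2 : M ≤ u
  · refine ⟨Or.inr ⟨M, mem_insert_self _ _, h2, ?_⟩, Or.inl (hhi u h2).le⟩
    have h6 := hhi M le_rfl
    have h7 := Phi_le_one u
    linarith
  push Not at h2
  set i := ⌊(u + M) / δ⌋₊ with hi
  have h3 : (i : ℝ) ≤ (u + M) / δ := Nat.floor_le (by apply div_nonneg <;> linarith)
  rw [le_div_iff₀ hδpos] at h3
  have h4 : (u + M) / δ < i + 1 := Nat.lt_floor_add_one _
  rw [div_lt_iff₀ hδpos] at h4
  have h5 : i < m := by
    have : (i : ℝ) * δ < m * δ := by linarith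
    exact_mod_cast lt_of_mul_lt_mul_right this hδpos.le
  constructor
  · right
    refine ⟨z i, mem_insert_of_mem (mem_image_of_mem _ (mem_range.2 (by omega))), ?_, ?_⟩
    · rw [hz]; simp only; linarith
    · have h6 : dist (Phi u) (Phi (z i)) < ε := by
        apply hδ u ⟨by linarith, by linarith⟩ _ ⟨by rw [hz]; simp only; nlinarith, by rw [hz]; simp only; nlinarith⟩
        rw [Real.dist_eq, hz]
        simp only
        rw [abs_lt]
        constructor <;> nlinarith
      rw [Real.dist_eq, abs_lt] at h6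
      linarith
  · right
    refine ⟨z (i + 1), mem_insert_of_mem (mem_image_of_mem _ (mem_range.2 (by omega))), ?_, ?_⟩
    · rw [hz]; simp only; push_cast; linarith
    · have h6 : dist (Phi u) (Phi (z (i + 1))) < ε := by
        apply hδ u ⟨by linarith, by linarith⟩ _ ⟨by rw [hz]; simp only; push_cast; nlinarith, by rw [hz]; simp only; push_cast; nlinarith⟩
        rw [Real.dist_eq, hz]
        simp only
        push_cast
        rw [abs_lt]
        constructor <;> nlinarith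
      rw [Real.dist_eq, abs_lt] at h6
      linarith

theorem TT_mono (lam : ℝ) : Monotone fun u => ⌊TT u lam⌋₊ := by
  intro a b h
  apply Nat.floor_mono
  unfold TT
  have h1 : 0 < kap := div_pos sg_pos (mul_pos mu_pos (Real.sqrt_pos.2 mu_pos))
  have h2 : a * kap * √(Real.log lam) ≤ b * kap * √(Real.log lam) :=
    mul_le_mul_of_nonneg_right (mul_le_mul_of_nonneg_right h h1.le) (Real.sqrt_nonneg _)
  linarith

open scoped Classical in
/-- uniformity in `u` -/
theorem first_passage_unif {θ θ' v : ℝ} (hθ : 0 < θ) (hθθ' : θ ≤ θ') (hθ' : θ' < 1) (hv : v < θ / 21)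
    {ε : ℝ} (hε : 0 < ε) : ∃ L0 x0 : ℝ, ∀ x Y lam : ℝ, x0 ≤ x → x ^ θ ≤ Y → Y ≤ x ^ θ' →
      L0 ≤ lam → lam ≤ x ^ v → ∀ u : ℝ,
      |(((Icc 1 ⌊x⌋₊).filter (ExcT ⌊TT u lam⌋₊ lam Y)).card : ℝ) -
        Pool.Agent.W36.SL.C * Phi u * (x / lam)| ≤ ε * (x / lam) := by
  set C := Pool.Agent.W36.SL.C with hC
  have hCpos : 0 < C := Pool.Agent.W36.SL.C_pos
  set e : ℝ := ε / (1 + C) with hedef
  have he : 0 < e := by rw [hedef]; positivity
  have heε : e * (1 + C) = ε := by rw [hedef]; field_simp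
  obtain ⟨F, hF⟩ := grid he
  have hpt : ∀ u : ℝ, ∃ L0 x0 : ℝ, ∀ x Y lam : ℝ, x0 ≤ x → x ^ θ ≤ Y → Y ≤ x ^ θ' →
      L0 ≤ lam → lam ≤ x ^ v →
      |(((Icc 1 ⌊x⌋₊).filter (ExcT ⌊TT u lam⌋₊ lam Y)).card : ℝ) - C * Phi u * (x / lam)| ≤ e * (x / lam) := by
    intro u
    have h := first_passage hθ hθ' (show v < 1 / 21 by linarith) u he
    rw [PhiBar_neg] at h
    exact h
  choose L0 x0 hLx using hpt
  obtain ⟨La, xa, ha⟩ := Pool.Agent.W36.SL.uniform hθ hθθ' hθ' hv he
  refine ⟨max (max La 1) (∑ a ∈ F, |L0 a|), max (max xa 1) (∑ a ∈ F, |x0 a|), fun x Y lam h1 h2 h3 h4 h5 u => ?_⟩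
  have hlam1 : 1 ≤ lam := le_trans ((le_max_right _ _).trans (le_max_left _ _)) h4
  have hx1 : 1 ≤ x := le_trans ((le_max_right _ _).trans (le_max_left _ _)) h1
  have hxl : 0 ≤ x / lam := by positivity
  have key : ∀ a ∈ F, |(((Icc 1 ⌊x⌋₊).filter (ExcT ⌊TT a lam⌋₊ lam Y)).card : ℝ) - C * Phi a * (x / lam)| ≤
      e * (x / lam) := by
    intro a haF
    have k1 : L0 a ≤ lam := (le_abs_self _).trans ((single_le_sum (f := fun a => |L0 a|) (fun _ _ => abs_nonneg _) haF).trans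
      ((le_max_right _ _).trans h4))
    have k2 : x0 a ≤ x := (le_abs_self _).trans ((single_le_sum (f := fun a => |x0 a|) (fun _ _ => abs_nonneg _) haF).trans
      ((le_max_right _ _).trans h1))
    exact hLx a x Y lam k2 h2 h3 k1 h5
  have htot := ha x Y lam (((le_max_left _ _).trans (le_max_left _ _)).trans h1) h2 h3
    (((le_max_left _ _).trans (le_max_left _ _)).trans h4) h5
  -- monotonicity
  have hmono : ∀ a b : ℝ, a ≤ b → (((Icc 1 ⌊x⌋₊).filter (ExcT ⌊TT a lam⌋₊ lam Y)).card : ℝ) ≤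
      (((Icc 1 ⌊x⌋₊).filter (ExcT ⌊TT b lam⌋₊ lam Y)).card : ℝ) := by
    intro a b hab
    apply Nat.cast_le.2
    apply card_le_card
    intro n hn
    rw [mem_filter] at hn ⊢
    obtain ⟨hn1, k, hk, h⟩ := hn
    exact ⟨hn1, k, hk.trans (TT_mono lam hab), h⟩
  have hle : (((Icc 1 ⌊x⌋₊).filter (ExcT ⌊TT u lam⌋₊ lam Y)).card : ℝ) ≤
      (((Icc 1 ⌊x⌋₊).filter (Pool.Agent.W36.SL.Exc lam Y)).card : ℝ) := by
    apply Nat.cast_le.2
    apply card_le_card
    intro n hn
    rw [mem_filter] at hn ⊢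
    obtain ⟨hn1, k, hk, h⟩ := hn
    exact ⟨hn1, k, h⟩
  obtain ⟨g1, g2⟩ := hF u
  rw [abs_le] at htot ⊢
  constructor
  · -- lower bound
    rcases g1 with g1 | ⟨a, haF, hau, hPhi⟩
    · have k1 : (0 : ℝ) ≤ (((Icc 1 ⌊x⌋₊).filter (ExcT ⌊TT u lam⌋₊ lam Y)).card : ℝ) := Nat.cast_nonneg _
      have k2 : C * Phi u ≤ ε := by
        have : C * Phi u ≤ C * e := mul_le_mul_of_nonneg_left g1 hCpos.le
        linarith
      have k3 := mul_le_mul_of_nonneg_right k2 hxl
      linarith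
    · have k1 := (abs_le.1 (key a haF)).1
      have k2 := hmono a u hau
      have k3 : C * Phi u - ε ≤ C * Phi a - e := by
        have : C * Phi u ≤ C * (Phi a + e) := mul_le_mul_of_nonneg_left hPhi hCpos.le
        linarith
      have k4 := mul_le_mul_of_nonneg_right k3 hxl
      linarith
  · rcases g2 with g2 | ⟨b, hbF, hub, hPhi⟩
    · have k2 : C + e ≤ C * Phi u + ε := by
        have : C * (1 - e) ≤ C * Phi u := mul_le_mul_of_nonneg_left g2 hCpos.le
        linarith
      have k3 := mul_le_mul_of_nonneg_right k2 hxl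
      linarith
    · have k1 := (abs_le.1 (key b hbF)).2
      have k2 := hmono u b hub
      have k3 : C * Phi b + e ≤ C * Phi u + ε := by
        have : C * Phi b ≤ C * (Phi u + e) := mul_le_mul_of_nonneg_left hPhi hCpos.le
        linarith
      have k4 := mul_le_mul_of_nonneg_right k3 hxl
      linarith

end Pool.Agent.H77.Col
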