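import Pool.Agent.H77.Col.Const
import Pool.Graph.R_seed8.H499R2.NDWord

/-! Counting residues by the shape of the beginning of the trajectory. -/

set_option autoImplicit false

namespace Pool.Agent.H77.Col

open Finset Filter Topology
open Pool.Agent.Helper894.Collatz (T od er od_add od_succ period iter_eq)
open Pool.Agent.H499R2.ND (od_mod AK AK_mod rK rK_anti rK_nonneg)

/-- an affine bijection of the residues -/
theorem card_affine {P : ℕ → Prop} [DecidablePred P] {b : ℕ} (hP : ∀ n, P (n % 2 ^ b) ↔ P n) (c s : ℕ) :
    ((range (2 ^ b)).filter (fun m => P (c + 3 ^ s * m))).card = ((range (2 ^ b)).filter P).card := by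
  have hpos : 0 < 2 ^ b := by positivity
  set f : ℕ → ℕ := fun m => (c + 3 ^ s * m) % 2 ^ b with hf
  have hinj : Set.InjOn f (range (2 ^ b) : Set ℕ) := by
    intro x hx y hy h
    rw [mem_coe, mem_range] at hx hy
    have h1 : c + 3 ^ s * x ≡ c + 3 ^ s * y [MOD 2 ^ b] := h
    have h2 := Nat.ModEq.add_left_cancel' c h1
    have h3 : Nat.Coprime (2 ^ b) (3 ^ s) := Nat.Coprime.pow _ _ (by norm_num)
    have h4 := Nat.ModEq.cancel_left_of_coprime h3 h2
    exact Nat.ModEq.eq_of_lt_of_lt h4 hx hy
  have himg : (range (2 ^ b)).image f = range (2 ^ b) := by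
    apply eq_of_subset_of_card_le
    · intro y hy
      rw [mem_image] at hy
      obtain ⟨x, _, rfl⟩ := hy
      exact mem_range.2 (Nat.mod_lt _ hpos)
    · rw [card_image_of_injOn hinj]
  have h1 : (range (2 ^ b)).filter P = ((range (2 ^ b)).filter (fun m => P (c + 3 ^ s * m))).image f := by
    ext y
    rw [mem_filter, mem_image]
    constructor
    · rintro ⟨hy, hPy⟩
      rw [← himg, mem_image] at hy
      obtain ⟨x, hx, rfl⟩ := hy
      refine ⟨x, mem_filter.2 ⟨hx, ?_⟩, rfl⟩
      exact (hP _).1 hPy
    · rintro ⟨x, hx, rfl⟩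
      rw [mem_filter] at hx
      exact ⟨mem_range.2 (Nat.mod_lt _ hpos), (hP _).2 hx.2⟩
  rw [h1, card_image_of_injOn]
  exact hinj.mono fun x hx => (mem_filter.1 hx).1

/-- independence of the beginning and of the continuation -/
theorem card_prod {P Q : ℕ → Prop} {a b : ℕ} [DecidablePred P] [DecidablePred Q]
    [DecidablePred fun r => Q r ∧ P (T^[a] r)] (hQ : ∀ n, Q (n % 2 ^ a) ↔ Q n) (hP : ∀ n, P (n % 2 ^ b) ↔ P n) :
    ((range (2 ^ (a + b))).filter (fun r => Q r ∧ P (T^[a] r))).card =
      ((range (2 ^ a)).filter Q).card * ((range (2 ^ b)).filter P).card := by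
  have hpos : 0 < 2 ^ a := by positivity
  have h1 : ((range (2 ^ (a + b))).filter (fun r => Q r ∧ P (T^[a] r))).card =
      ∑ x ∈ (range (2 ^ a)).filter Q, ((range (2 ^ b)).filter (fun m => P (T^[a] x + 3 ^ od a x * m))).card := by
    rw [← card_sigma]
    symm
    apply card_bij (fun p _ => p.1 + 2 ^ a * p.2)
    · rintro ⟨x, m⟩ h
      rw [mem_sigma, mem_filter, mem_filter] at h
      simp only at h
      obtain ⟨⟨hx, hQx⟩, hm, hPm⟩ := h
      rw [mem_range] at hx hm
      rw [mem_filter, mem_range]
      simp only
      refine ⟨?_, ?_, ?_⟩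
      · calc x + 2 ^ a * m < 2 ^ a + 2 ^ a * m := by omega
          _ = 2 ^ a * (m + 1) := by ring
          _ ≤ 2 ^ a * 2 ^ b := Nat.mul_le_mul_left _ hm
          _ = 2 ^ (a + b) := (pow_add _ _ _).symm
      · rw [← hQ, Nat.add_mul_mod_self_left, hQ]; exact hQx
      · rw [(period a x m).1]; exact hPm
    · rintro ⟨x, m⟩ h ⟨x', m'⟩ h' heq
      rw [mem_sigma, mem_filter, mem_range] at h h'
      simp only at h h' heq
      have e1 : x = x' := by
        have := congrArg (· % 2 ^ a) heq
        simp only [Nat.add_mul_mod_self_left] at this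
        rwa [Nat.mod_eq_of_lt h.1.1, Nat.mod_eq_of_lt h'.1.1] at this
      subst e1
      have e2 : m = m' := by
        have : 2 ^ a * m = 2 ^ a * m' := by omega
        exact Nat.eq_of_mul_eq_mul_left hpos this
      subst e2
      rfl
    · intro r hr
      rw [mem_filter, mem_range] at hr
      obtain ⟨h1, h2, h3⟩ := hr
      refine ⟨⟨r % 2 ^ a, r / 2 ^ a⟩, ?_, ?_⟩
      · rw [mem_sigma, mem_filter, mem_filter, mem_range, mem_range]
        simp only
        refine ⟨⟨Nat.mod_lt _ hpos, (hQ r).2 h2⟩, ?_, ?_⟩
        · rw [Nat.div_lt_iff_lt_mul hpos, mul_comm, ← pow_add]; exact h1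
        · rw [← (period a (r % 2 ^ a) (r / 2 ^ a)).1, Nat.mod_add_div]; exact h3
      · simp only
        rw [Nat.mod_add_div]
  rw [h1]
  rw [sum_congr rfl fun x _ => card_affine hP (T^[a] x) (od a x), sum_const, smul_eq_mul]

/-- `od` of the first `k` terms is `s` and the last `i` of them have more than `i log 2 / log 3` odd terms -/
def Q (k s n : ℕ) : Prop := od k n = s ∧ ∀ j < k, 2 ^ (k - j) < 3 ^ (od k n - od j n)

theorem Q_mod (k s n : ℕ) : Q k s (n % 2 ^ k) ↔ Q k s n := by
  unfold Q
  rw [od_mod k n le_rfl]
  constructor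
  · rintro ⟨h1, h2⟩
    refine ⟨h1, fun j hj => ?_⟩
    have := h2 j hj
    rwa [od_mod j n hj.le] at this
  · rintro ⟨h1, h2⟩
    refine ⟨h1, fun j hj => ?_⟩
    rw [od_mod j n hj.le]
    exact h2 j hj

theorem od_one (n : ℕ) : od 1 n = n % 2 := by
  unfold od; simp

theorem od_first (k n : ℕ) : od (k + 1) n = n % 2 + od k (T n) := by
  rw [add_comm k 1, od_add, od_one]; rfl

theorem Q_succ (k s n : ℕ) : Q (k + 1) s n ↔ (n % 2 ≤ s ∧ 2 ^ (k + 1) < 3 ^ s ∧ Q k (s - n % 2) (T n)) := by
  unfold Q
  rw [od_first]
  constructor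
  · rintro ⟨h1, h2⟩
    refine ⟨by omega, ?_, by omega, fun j hj => ?_⟩
    · have := h2 0 (by omega)
      rw [h1] at this
      simpa [od] using this
    · have := h2 (j + 1) (by omega)
      rw [od_first, Nat.add_sub_add_left, Nat.add_sub_add_right] at this
      exact this
  · rintro ⟨h1, h2, h3, h4⟩
    refine ⟨by omega, fun j hj => ?_⟩
    rcases j with _ | j
    · have : n % 2 + od k (T n) = s := by omega
      rw [this]
      simpa [od] using h2
    · rw [od_first, Nat.add_sub_add_left, Nat.add_sub_add_right]
      exact h4 j (by omega)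

open scoped Classical in
theorem card_Q : ∀ k s, ((range (2 ^ k)).filter (Q k s)).card = rising k s := by
  intro k
  induction k with
  | zero =>
    intro s
    unfold Q rising
    rw [pow_zero, range_one, filter_singleton]
    by_cases h : s = 0
    · subst h; simp [od]
    · have : ¬ (0 = s) := fun h' => h h'.symm
      simp [od, h, this]
  | succ k ih =>
    intro s
    by_cases hlt : 2 ^ (k + 1) < 3 ^ s
    · have e : ∀ ε < 2, ((range (2 ^ (k + 1))).filter (fun r => r % 2 = ε ∧ Q (k + 1) s r)).card =
          if ε ≤ s then rising k (s - ε) else 0 := by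
        intro ε hε
        have h1 := card_prod (P := Q k (s - ε)) (Q := fun r => r % 2 = ε) (a := 1) (b := k)
          (fun n => by rw [pow_one, Nat.mod_mod]) (Q_mod k (s - ε))
        rw [ih, add_comm 1 k] at h1
        have h2 : ((range (2 ^ 1)).filter (fun r => r % 2 = ε)).card = 1 := by
          rw [pow_one]
          have : (range 2).filter (fun r => r % 2 = ε) = {ε} := by
            ext x; rw [mem_filter, mem_range, mem_singleton]; omega
          rw [this, card_singleton]
        rw [h2, one_mul] at h1
        split_ifs with h3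
        · rw [← h1]
          congr 1
          apply filter_congr
          intro r _
          rw [Q_succ, Function.iterate_one]
          constructor
          · rintro ⟨h4, _, _, h5⟩
            rw [h4] at h5
            exact ⟨h4, h5⟩
          · rintro ⟨h4, h5⟩
            rw [h4]
            exact ⟨rfl, h3, hlt, h5⟩
        · rw [card_eq_zero, filter_eq_empty_iff]
          rintro r _ ⟨h4, h5⟩
          rw [Q_succ] at h5
          omega
      have hsplit : ((range (2 ^ (k + 1))).filter (Q (k + 1) s)).card =
          ((range (2 ^ (k + 1))).filter (fun r => r % 2 = 0 ∧ Q (k + 1) s r)).card +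
          ((range (2 ^ (k + 1))).filter (fun r => r % 2 = 1 ∧ Q (k + 1) s r)).card := by
        rw [← card_union_of_disjoint]
        · congr 1
          ext r
          rw [mem_union, mem_filter, mem_filter, mem_filter]
          have := Nat.mod_two_eq_zero_or_one r
          tauto
        · rw [disjoint_filter]
          intro r _ h1 h2
          omega
      rw [hsplit, e 0 (by norm_num), e 1 (by norm_num), rising, if_pos hlt]
      rcases s with _ | s
      · simp
      · simp
    · rw [rising, if_neg hlt, card_eq_zero, filter_eq_empty_iff]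
      intro r _ h
      rw [Q_succ] at h
      exact hlt h.2.1

theorem AK_succ (K n : ℕ) : AK (K + 1) 1 n ↔ AK K 1 n ∧ 3 ^ od (K + 1) n < 2 ^ (K + 1) := by
  unfold AK
  constructor
  · intro h
    refine ⟨fun k h1 h2 => h k h1 (by omega), ?_⟩
    have := h (K + 1) (by omega) le_rfl
    rw [one_mul] at this
    exact_mod_cast this
  · rintro ⟨h1, h2⟩ k h3 h4
    rcases Nat.lt_or_ge k (K + 1) with h5 | h5
    · exact h1 k h3 (by omega)
    · have : k = K + 1 := by omega
      rw [this, one_mul]
      exact_mod_cast h2

open scoped Classical in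
theorem card_AK : ∀ K s, ((range (2 ^ K)).filter (fun r => AK K 1 r ∧ od K r = s)).card = falling K s := by
  intro K
  induction K with
  | zero =>
    intro s
    unfold falling
    rw [pow_zero, range_one, filter_singleton]
    have h0 : AK 0 1 0 := fun k h1 h2 => by omega
    by_cases h : s = 0
    · subst h; simp [od, h0]
    · have : ¬ (0 = s) := fun h' => h h'.symm
      simp [od, h, this]
  | succ K ih =>
    intro s
    have hmod : ∀ t n, (AK K 1 (n % 2 ^ K) ∧ od K (n % 2 ^ K) = t) ↔ (AK K 1 n ∧ od K n = t) := by
      intro t n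
      rw [AK_mod, od_mod K n le_rfl]
    by_cases hlt : 3 ^ s < 2 ^ (K + 1)
    · have e : ∀ ε < 2, ((range (2 ^ (K + 1))).filter (fun r => (T^[K] r) % 2 = ε ∧ AK (K + 1) 1 r ∧
          od (K + 1) r = s)).card = if ε ≤ s then falling K (s - ε) else 0 := by
        intro ε hε
        have h1 := card_prod (Q := fun r => AK K 1 r ∧ od K r = s - ε) (P := fun r => r % 2 = ε) (a := K) (b := 1)
          (hmod (s - ε)) (fun n => by rw [pow_one, Nat.mod_mod])
        rw [ih] at h1
        have h2 : ((range (2 ^ 1)).filter (fun r => r % 2 = ε)).card = 1 := by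
          rw [pow_one]
          have : (range 2).filter (fun r => r % 2 = ε) = {ε} := by
            ext x; rw [mem_filter, mem_range, mem_singleton]; omega
          rw [this, card_singleton]
        rw [h2, mul_one] at h1
        split_ifs with h3
        · rw [← h1]
          congr 1
          apply filter_congr
          intro r _
          rw [AK_succ, od_succ]
          constructor
          · rintro ⟨h4, ⟨h5, _⟩, h6⟩
            exact ⟨⟨h5, by omega⟩, h4⟩
          · rintro ⟨⟨h4, h5⟩, h6⟩
            have h7 : od K r + (T^[K] r) % 2 = s := by omega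
            refine ⟨h6, ⟨h4, ?_⟩, h7⟩
            rw [h7]; exact hlt
        · rw [card_eq_zero, filter_eq_empty_iff]
          rintro r _ ⟨h4, _, h5⟩
          rw [od_succ] at h5
          omega
      have hsplit : ((range (2 ^ (K + 1))).filter (fun r => AK (K + 1) 1 r ∧ od (K + 1) r = s)).card =
          ((range (2 ^ (K + 1))).filter (fun r => (T^[K] r) % 2 = 0 ∧ AK (K + 1) 1 r ∧ od (K + 1) r = s)).card +
          ((range (2 ^ (K + 1))).filter (fun r => (T^[K] r) % 2 = 1 ∧ AK (K + 1) 1 r ∧ od (K + 1) r = s)).card := by
        rw [← card_union_of_disjoint]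
        · congr 1
          ext r
          rw [mem_union, mem_filter, mem_filter, mem_filter]
          have := Nat.mod_two_eq_zero_or_one (T^[K] r)
          tauto
        · rw [disjoint_filter]
          intro r _ h1 h2
          omega
      rw [hsplit, e 0 (by norm_num), e 1 (by norm_num), falling, if_pos hlt]
      rcases s with _ | s
      · simp
      · simp
    · rw [falling, if_neg hlt, card_eq_zero, filter_eq_empty_iff]
      rintro r _ ⟨h, h'⟩
      rw [AK_succ, h'] at h
      exact hlt h.2

theorem rK_eq_fs (K : ℕ) : rK K 1 = fs K 0 := by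
  classical
  unfold rK fs
  have h1 : ((range (2 ^ K)).filter (AK K 1)).card =
      ∑ s ∈ range (K + 1), ((range (2 ^ K)).filter (fun r => AK K 1 r ∧ od K r = s)).card := by
    rw [card_eq_sum_card_fiberwise (f := od K) (t := range (K + 1))]
    · apply sum_congr rfl
      intro s _
      rw [filter_filter]
    · intro r _
      rw [mem_coe, mem_range]
      have := Pool.Agent.H499R2.ND.od_le K r
      omega
  rw [h1]
  push_cast
  rw [sum_div]
  apply sum_congr rfl
  intro s _
  rw [card_AK, Real.rpow_zero, mul_one]

/-- the limit of the proportion of the falling words, explicitly -/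
theorem rK_tendsto : Tendsto (fun K => rK K 1) atTop (𝓝 varpi) := by
  have hlim := tendsto_atTop_ciInf (rK_anti 1) ⟨0, by rintro _ ⟨K, rfl⟩; exact rK_nonneg K 1⟩
  have h := hlim
  simp only [rK_eq_fs] at h
  have h2 := fs_tendsto h
  rw [← h2]
  simpa only [rK_eq_fs] using hlim

open scoped Classical in
/-- the residues for which the maximum is reached at time `k` with `s` odd terms before, up to time `k + K` -/
theorem card_peak (k s K : ℕ) :
    ((range (2 ^ (k + K))).filter (fun r => Q k s r ∧ AK K 1 (T^[k] r))).card = rising k s * (rK K 1 * 2 ^ K) := by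
  have h1 := card_prod (Q := Q k s) (P := AK K 1) (a := k) (b := K) (Q_mod k s) (AK_mod K 1)
  rw [card_Q] at h1
  rw [h1]
  unfold rK
  push_cast
  rw [div_mul_cancel₀ _ (by positivity)]

end Pool.Agent.H77.Col
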