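import Pool.Agent.H77.Col.PeakCount

/-! The density of the integers whose maximum is reached at a given time. -/

set_option autoImplicit false

namespace Pool.Agent.H77.Col

open Finset Filter Topology
open Pool.Agent.Helper894.Collatz (T od er od_add od_succ period iter_eq)
open Pool.Agent.H499R2.ND
open Pool.Agent.H320R2.PD

/-- the maximum of the trajectory is reached for the first time at time `k`, with `s` odd terms before -/
def PeakAt (k s n : ℕ) : Prop := od k n = s ∧ (∀ j < k, T^[j] n < T^[k] n) ∧ ∀ j, T^[j] n ≤ T^[k] n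

theorem T_iter_ge (j n : ℕ) : n ≤ 2 ^ j * T^[j] n := by
  rw [iter_eq]
  calc n = 1 * n := (one_mul n).symm
    _ ≤ 3 ^ od j n * n := Nat.mul_le_mul_right _ (Nat.one_le_pow _ _ (by norm_num))
    _ ≤ _ := Nat.le_add_right _ _

theorem T_iter_pos {n : ℕ} (hn : 1 ≤ n) (k : ℕ) : 1 ≤ T^[k] n := by
  by_contra h
  have h1 := T_iter_ge k n
  have : T^[k] n = 0 := by omega
  rw [this, mul_zero] at h1
  omega

theorem od_sub {j k : ℕ} (h : j ≤ k) (n : ℕ) : od k n - od j n = od (k - j) (T^[j] n) := by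
  have := od_add j (k - j) n
  rw [Nat.add_sub_cancel' h] at this
  omega

theorem T_iter_sub {j k : ℕ} (h : j ≤ k) (n : ℕ) : T^[k] n = T^[k - j] (T^[j] n) := by
  rw [← Function.iterate_add_apply]
  congr 1
  omega

/-- ascents of large numbers are visible in the parities -/
theorem up_of_lt {i m : ℕ} (h : m < T^[i] m) (hm : 3 ^ i ≤ m) : 2 ^ i < 3 ^ od i m := by
  by_contra hcon
  push Not at hcon
  rcases Nat.eq_zero_or_pos i with h0 | h0
  · subst h0; simp at h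
  have hne := ne_pow (k := i) (s := od i m) h0
  have hlt : 3 ^ od i m + 1 ≤ 2 ^ i := by omega
  have h1 := iter_eq i m
  have h2 := er_le i m
  have h3 : 2 ^ i * (m + 1) ≤ 2 ^ i * T^[i] m := Nat.mul_le_mul_left _ h
  have h4 : (3 ^ od i m + 1) * m ≤ 2 ^ i * m := Nat.mul_le_mul_right _ hlt
  have h5 : 2 ^ i * (m + 1) = 2 ^ i * m + 2 ^ i := by ring
  have h6 : (3 ^ od i m + 1) * m = 3 ^ od i m * m + m := by ring
  have h7 : 1 ≤ 2 ^ i := Nat.one_le_two_pow
  omega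

theorem lt_of_up {i m : ℕ} (hm : 1 ≤ m) (h : 2 ^ i < 3 ^ od i m) : m < T^[i] m := by
  have h1 := iter_eq i m
  have h2 : 2 ^ i * m < 3 ^ od i m * m := Nat.mul_lt_mul_of_pos_right h hm
  have h3 : 2 ^ i * m < 2 ^ i * T^[i] m := by omega
  exact lt_of_mul_lt_mul_left h3 (Nat.zero_le _)

theorem le_of_AK {K m : ℕ} (h : AK K 1 m) (hm : 3 ^ K ≤ m) {i : ℕ} (hi : i ≤ K) : T^[i] m ≤ m := by
  rcases Nat.eq_zero_or_pos i with h0 | h0
  · subst h0; simp
  have h1 := h i h0 hi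
  rw [one_mul] at h1
  have h2 : 3 ^ od i m < 2 ^ i := by exact_mod_cast h1
  by_contra hcon
  push Not at hcon
  have h3 : 3 ^ i ≤ m := (Nat.pow_le_pow_right (by norm_num) hi).trans hm
  have := up_of_lt hcon h3
  omega

/-- few integers of finite excursion are exceeded after time `K` -/
theorem late_all {ε : ℝ} (hε : 0 < ε) : ∃ K₀ : ℕ, ∀ K ≥ K₀, ∀ᶠ N : ℕ in atTop,
    cnt (fun n => Bdd n ∧ ∃ i, K ≤ i ∧ n ≤ T^[i] n) N ≤ ε * N := by
  have hth := th_pos
  have hth1 := th_lt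
  have h1 : Tendsto (fun K => 4 * th ^ K / (1 - th)) atTop (𝓝 0) := by
    have := ((tendsto_pow_atTop_nhds_zero_of_lt_one hth.le hth1).const_mul 4).div_const (1 - th)
    simpa using this
  obtain ⟨K₀, hK₀⟩ := eventually_atTop.1 (h1.eventually (gt_mem_nhds (show (0 : ℝ) < ε / 2 by positivity)))
  refine ⟨K₀, fun K hK => ?_⟩
  filter_upwards [zd_iff.1 (late Bdd_inv (fun n h => h)) (ε / 2) (by positivity)] with N hN
  have h2 := early K N
  have h3 := hK₀ K hK
  have h4 : cnt (fun n => Bdd n ∧ ∃ i, K ≤ i ∧ n ≤ T^[i] n) N ≤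
      cnt (fun n => Bdd n ∧ ∃ k, n < 2 ^ k ∧ n ≤ Tn^[k] n) N +
      cnt (fun n => ∃ k, K ≤ k ∧ 2 ^ k ≤ n ∧ n ≤ Tn^[k] n) N := by
    apply cnt_or
    rintro n _ _ ⟨h5, i, h6, h7⟩
    rw [Tn_eq] at h7
    rcases lt_or_ge n (2 ^ i) with h8 | h8
    · exact Or.inl ⟨h5, i, h8, h7⟩
    · exact Or.inr ⟨i, h6, h8, h7⟩
  have h5 : 4 * th ^ K / (1 - th) * N ≤ ε / 2 * N := mul_le_mul_of_nonneg_right h3.le (Nat.cast_nonneg N)
  linarith

open scoped Classical in
theorem peak_approx {β : ℝ} (hβ : Dn Bdd β) (k s K : ℕ) :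
    Dn (fun n => n % 2 ^ (k + K) ∈ (range (2 ^ (k + K))).filter (fun r => Q k s r ∧ AK K 1 (T^[k] r)) ∧ Bdd n)
      (β * (rK K 1) * (rising k s / 2 ^ k)) := by
  have h := dn_res Bdd_inv hβ (q := 2 ^ (k + K)) (by positivity)
    (R := (range (2 ^ (k + K))).filter (fun r => Q k s r ∧ AK K 1 (T^[k] r)))
    (fun r hr => mem_range.1 (mem_filter.1 hr).1)
  have e : β * (rK K 1) * (rising k s / 2 ^ k) =
    (((range (2 ^ (k + K))).filter (fun r => Q k s r ∧ AK K 1 (T^[k] r))).card : ℝ) *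
      (β / ((2 ^ (k + K) : ℕ) : ℝ)) := by
    have h1 := card_peak k s K
    have h2 : (((range (2 ^ (k + K))).filter (fun r => Q k s r ∧ AK K 1 (T^[k] r))).card : ℝ) =
      rising k s * (rK K 1 * 2 ^ K) := by
      rw [← h1]
    rw [h2]
    push_cast
    rw [pow_add]
    field_simp
  rw [e]
  exact h

theorem mem_res_iff (k s K n : ℕ) :
    (n % 2 ^ (k + K) < 2 ^ (k + K) ∧ Q k s (n % 2 ^ (k + K)) ∧ AK K 1 (T^[k] (n % 2 ^ (k + K)))) ↔
      (Q k s n ∧ AK K 1 (T^[k] n)) := by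
  have h0 : n % 2 ^ (k + K) < 2 ^ (k + K) := Nat.mod_lt _ (by positivity)
  have h1 : Q k s (n % 2 ^ (k + K)) ↔ Q k s n := by
    rw [← Q_mod, Nat.mod_mod_of_dvd _ (pow_dvd_pow 2 (by omega)), Q_mod]
  have h2 : AK K 1 (T^[k] (n % 2 ^ (k + K))) ↔ AK K 1 (T^[k] n) := by
    have h3 := (period k (n % 2 ^ (k + K)) (2 ^ K * (n / 2 ^ (k + K)))).1
    rw [← mul_assoc, ← pow_add, Nat.mod_add_div] at h3
    rw [h3, ← AK_mod K 1 (_ + _), show 3 ^ od k (n % 2 ^ (k + K)) * (2 ^ K * (n / 2 ^ (k + K))) =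
      2 ^ K * (3 ^ od k (n % 2 ^ (k + K)) * (n / 2 ^ (k + K))) by ring, Nat.add_mul_mod_self_left, AK_mod]
  rw [h1, h2]
  simp [h0]

/-- THE POSITION OF THE MAXIMUM -/
theorem peak_density {β : ℝ} (hβ : Dn Bdd β) (k s : ℕ) :
    Dn (fun n => Bdd n ∧ PeakAt k s n) (β * (varpi * (rising k s / 2 ^ k))) := by
  classical
  unfold Dn
  rw [Metric.tendsto_atTop]
  intro ε hε
  obtain ⟨K₀, hK₀⟩ := late_all (ε := ε / 8) (by positivity)
  have hlim : Tendsto (fun K => |β * (rK K 1) * (rising k s / 2 ^ k) - β * (varpi * (rising k s / 2 ^ k))|)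
      atTop (𝓝 0) := by
    have h3 := ((rK_tendsto.const_mul β).mul_const ((rising k s : ℝ) / 2 ^ k)).sub_const
      (β * (varpi * (rising k s / 2 ^ k)))
    rw [mul_assoc β varpi, sub_self] at h3
    simpa using h3.abs
  obtain ⟨K, hK1, hK2⟩ := ((hlim.eventually (gt_mem_nhds (show (0 : ℝ) < ε / 4 by positivity))).and
    (eventually_ge_atTop K₀)).exists
  obtain ⟨N1, hN1⟩ := Metric.tendsto_atTop.1 (peak_approx hβ k s K) (ε / 4) (by positivity)
  obtain ⟨N2, hN2⟩ := eventually_atTop.1 (hK₀ K hK2)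
  set n1 : ℕ := 2 ^ k * 3 ^ (k + K) with hn1
  obtain ⟨N3, hN3⟩ := eventually_atTop.1 (zd_iff.1 (zd_bdd n1) (ε / 8) (by positivity))
  refine ⟨max (max N1 N2) (max N3 1), fun N hN => ?_⟩
  have g1 := hN1 N ((le_max_left _ _).trans ((le_max_left _ _).trans hN))
  have g2 := hN2 N ((le_max_right _ _).trans ((le_max_left _ _).trans hN))
  have g3 := hN3 N ((le_max_left _ _).trans ((le_max_right _ _).trans hN))
  have g4 : 1 ≤ N := (le_max_right _ _).trans ((le_max_right _ _).trans hN)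
  have hNR : (0 : ℝ) < N := by exact_mod_cast g4
  set A : ℕ → Prop := fun n => n % 2 ^ (k + K) ∈
    (range (2 ^ (k + K))).filter (fun r => Q k s r ∧ AK K 1 (T^[k] r)) ∧ Bdd n with hA
  have hAiff : ∀ n, A n ↔ (Q k s n ∧ AK K 1 (T^[k] n)) ∧ Bdd n := by
    intro n
    simp only [hA]
    rw [mem_filter, mem_range, mem_res_iff]
  have hbig : ∀ n : ℕ, ¬ ((n : ℝ) ≤ n1) → ∀ j ≤ k, 3 ^ (k + K) ≤ T^[j] n := by
    intro n hn j hj
    have h1 : n1 < n := by
      by_contra h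
      push Not at h
      exact hn (by exact_mod_cast h)
    have h2 := T_iter_ge j n
    have h3 : 2 ^ j ≤ 2 ^ k := Nat.pow_le_pow_right (by norm_num) hj
    by_contra h4
    push Not at h4
    have h5 : 2 ^ j * T^[j] n ≤ 2 ^ k * 3 ^ (k + K) := Nat.mul_le_mul h3 h4.le
    omega
  have i1 : cnt (fun n => Bdd n ∧ PeakAt k s n) N ≤ cnt A N + cnt (fun n : ℕ => (n : ℝ) ≤ n1) N := by
    apply cnt_or
    rintro n hn _ ⟨hB, h1, h2, h3⟩
    by_cases hbn : (n : ℝ) ≤ n1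
    · exact Or.inr hbn
    · left
      rw [hAiff]
      refine ⟨⟨⟨h1, fun j hj => ?_⟩, ?_⟩, hB⟩
      · rw [od_sub hj.le]
        apply up_of_lt
        · rw [← T_iter_sub hj.le]; exact h2 j hj
        · exact (Nat.pow_le_pow_right (by norm_num) (by omega)).trans (hbig n hbn j hj.le)
      · apply AK_of_bound le_rfl (T_iter_pos hn k)
        intro i
        rw [one_mul, ← Tn_eq, ← Function.iterate_add_apply]
        exact_mod_cast h3 (i + k)
  have i2 : cnt A N ≤ cnt (fun n => Bdd n ∧ PeakAt k s n) N +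
      (cnt (fun n => Bdd n ∧ ∃ i, K ≤ i ∧ n ≤ T^[i] n) N + cnt (fun n : ℕ => (n : ℝ) ≤ n1) N) := by
    refine (cnt_or N (Q := fun n => Bdd n ∧ PeakAt k s n)
      (R := fun n => (Bdd n ∧ ∃ i, K ≤ i ∧ n ≤ T^[i] n) ∨ (n : ℝ) ≤ n1) fun n hn _ hp => ?_).trans
      (add_le_add le_rfl (cnt_or N fun n _ _ h => h))
    rw [hAiff] at hp
    obtain ⟨⟨⟨h1, h2⟩, h3⟩, hB⟩ := hp
    by_cases hbn : (n : ℝ) ≤ n1
    · exact Or.inr (Or.inr hbn)
    by_cases hE : ∃ i, K ≤ i ∧ n ≤ T^[i] n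
    · exact Or.inr (Or.inl ⟨hB, hE⟩)
    left
    have hlt : ∀ j < k, T^[j] n < T^[k] n := by
      intro j hj
      have h4 := h2 j hj
      rw [od_sub hj.le] at h4
      rw [T_iter_sub hj.le]
      exact lt_of_up (T_iter_pos hn j) h4
    refine ⟨hB, h1, hlt, fun j => ?_⟩
    rcases Nat.lt_or_ge j k with hj | hj
    · exact (hlt j hj).le
    · rw [T_iter_sub hj]
      rcases Nat.lt_or_ge (j - k) K with h5 | h5
      · exact le_of_AK h3 ((Nat.pow_le_pow_right (by norm_num) (by omega)).trans (hbig n hbn k le_rfl)) h5.le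
      · by_contra hcon
        push Not at hcon
        apply hE
        refine ⟨j, by omega, ?_⟩
        rw [T_iter_sub hj]
        have h6 : n ≤ T^[k] n := by
          rcases Nat.eq_zero_or_pos k with h0 | h0
          · rw [h0]; simp
          · exact (hlt 0 h0).le
        omega
  have g6 : |cnt (fun n => Bdd n ∧ PeakAt k s n) N / N - cnt A N / N| ≤ 2 * (ε / 8) := by
    rw [← sub_div, abs_div, abs_of_pos hNR, div_le_iff₀ hNR, abs_le]
    constructor <;> linarith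
  rw [Real.dist_eq] at g1 ⊢
  calc |cnt (fun n => Bdd n ∧ PeakAt k s n) N / N - β * (varpi * (rising k s / 2 ^ k))|
      = |(cnt (fun n => Bdd n ∧ PeakAt k s n) N / N - cnt A N / N)
        + (cnt A N / N - β * (rK K 1) * (rising k s / 2 ^ k)) +
        (β * (rK K 1) * (rising k s / 2 ^ k) - β * (varpi * (rising k s / 2 ^ k)))| := by
        congr 1; ring
    _ ≤ 2 * (ε / 8) + ε / 4 + ε / 4 := by
        refine (abs_add_le _ _).trans (add_le_add ((abs_add_le _ _).trans (add_le_add g6 g1.le)) hK1.le)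
    _ < ε := by linarith

end Pool.Agent.H77.Col
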