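import Pool.Agent.H77.Col.FirstPass3

/-! The shape of the large excursions: words. -/

set_option autoImplicit false

namespace Pool.Agent.H77.Col

open Finset Filter Topology
open Pool.Agent.Helper894.Collatz (T od er sum_pow_od)
open Pool.Agent.H828R3.Exc (PP MM ge_iff MM_pos MM_children od_shift_le)
open Pool.Agent.W36.SL (sum_perm sum_range_two_mul T_two_mul T_two_mul_add sum_block MM_shift od_one)

/-- deviation from the proportion `3/4` of odd terms -/
def DvA (D : ℝ) (j n : ℕ) : Prop := D < |(od j n : ℝ) - 3 / 4 * j|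
/-- deviation from the proportion `1/2` of odd terms -/
def DvB (D : ℝ) (j n : ℕ) : Prop := D < |(od j n : ℝ) - 1 / 2 * j|

theorem exp_le_quad {z : ℝ} (hz : |z| ≤ 1) : Real.exp z ≤ 1 + z + z ^ 2 := by
  have h := Real.abs_exp_sub_one_sub_id_le hz
  rw [abs_le] at h
  linarith [h.2]

theorem baseA {t : ℝ} (ht : |t| ≤ 1) : (Real.exp (-(3 / 4 * t)) + 3 * Real.exp (t / 4)) / 4 ≤ Real.exp (3 / 16 * t ^ 2) := by
  have h1 : |(-(3 / 4 * t))| ≤ 1 := by
    rw [abs_neg, abs_mul, abs_of_pos (by norm_num : (0 : ℝ) < 3 / 4)]; linarith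
  have h2 : |t / 4| ≤ 1 := by
    rw [abs_div, abs_of_pos (by norm_num : (0 : ℝ) < 4)]; linarith
  have e1 := exp_le_quad h1
  have e2 := exp_le_quad h2
  have e3 := Real.add_one_le_exp (3 / 16 * t ^ 2)
  nlinarith

theorem mgfA (j : ℕ) {t : ℝ} (ht : |t| ≤ 1) :
    ∑ n ∈ range (2 ^ j), MM j n * Real.exp (t * ((od j n : ℝ) - 3 / 4 * j)) ≤ 2 ^ j * Real.exp (3 / 16 * t ^ 2 * j) := by
  have e : ∀ n ∈ range (2 ^ j), MM j n * Real.exp (t * ((od j n : ℝ) - 3 / 4 * j)) =
      (3 * Real.exp t) ^ od j n * (Real.exp (-(3 / 4 * t)) / 2) ^ j := by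
    intro n _
    unfold MM
    rw [mul_pow, div_pow, ← Real.exp_nat_mul, ← Real.exp_nat_mul]
    have : Real.exp (t * ((od j n : ℝ) - 3 / 4 * j)) = Real.exp ((od j n : ℝ) * t) * Real.exp ((j : ℝ) * (-(3 / 4 * t))) := by
      rw [← Real.exp_add]; congr 1; ring
    rw [this]; ring
  rw [sum_congr rfl e, ← sum_mul, sum_pow_od, ← mul_pow]
  have h1 : (1 + 3 * Real.exp t) * (Real.exp (-(3 / 4 * t)) / 2) =
      2 * ((Real.exp (-(3 / 4 * t)) + 3 * Real.exp (t / 4)) / 4) := by
    have : Real.exp (t / 4) = Real.exp t * Real.exp (-(3 / 4 * t)) := by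
      rw [← Real.exp_add]; congr 1; ring
    rw [this]; ring
  rw [h1, mul_pow]
  apply mul_le_mul_of_nonneg_left _ (by positivity)
  calc ((Real.exp (-(3 / 4 * t)) + 3 * Real.exp (t / 4)) / 4) ^ j ≤ (Real.exp (3 / 16 * t ^ 2)) ^ j :=
        pow_le_pow_left₀ (by positivity) (baseA ht) j
    _ = Real.exp (3 / 16 * t ^ 2 * j) := by rw [← Real.exp_nat_mul]; congr 1; ring

theorem mgfB (j : ℕ) (t : ℝ) :
    ∑ n ∈ range (2 ^ j), Real.exp (t * ((od j n : ℝ) - 1 / 2 * j)) ≤ 2 ^ j * Real.exp (1 / 8 * t ^ 2 * j) := by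
  have e : ∀ n ∈ range (2 ^ j), Real.exp (t * ((od j n : ℝ) - 1 / 2 * j)) =
      (Real.exp t) ^ od j n * (Real.exp (-(t / 2))) ^ j := by
    intro n _
    rw [← Real.exp_nat_mul, ← Real.exp_nat_mul, ← Real.exp_add]
    congr 1; ring
  rw [sum_congr rfl e, ← sum_mul, sum_pow_od, ← mul_pow]
  have h1 : (1 + Real.exp t) * (Real.exp (-(t / 2))) = 2 * Real.cosh (t / 2) := by
    rw [Real.cosh_eq]
    have : Real.exp (t / 2) = Real.exp t * Real.exp (-(t / 2)) := by
      rw [← Real.exp_add]; congr 1; ring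
    rw [this]; ring
  rw [h1, mul_pow]
  apply mul_le_mul_of_nonneg_left _ (by positivity)
  calc Real.cosh (t / 2) ^ j ≤ (Real.exp ((t / 2) ^ 2 / 2)) ^ j :=
        pow_le_pow_left₀ (Real.cosh_pos _).le (Real.cosh_le_exp_half_sq _) j
    _ = Real.exp (1 / 8 * t ^ 2 * j) := by rw [← Real.exp_nat_mul]; congr 1; ring

theorem ind_le {D x t : ℝ} (ht : 0 ≤ t) (h : D < |x|) :
    1 ≤ Real.exp (-(t * D)) * (Real.exp (t * x) + Real.exp (-t * x)) := by
  rw [mul_add, ← Real.exp_add, ← Real.exp_add]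
  rcases le_or_gt 0 x with hx | hx
  · rw [abs_of_nonneg hx] at h
    have h1 : 0 ≤ -(t * D) + t * x := by nlinarith
    have h2 := Real.one_le_exp h1
    have h3 := Real.exp_pos (-(t * D) + -t * x)
    linarith
  · rw [abs_of_neg hx] at h
    have h1 : 0 ≤ -(t * D) + -t * x := by nlinarith
    have h2 := Real.one_le_exp h1
    have h3 := Real.exp_pos (-(t * D) + t * x)
    linarith

open scoped Classical in
theorem chA (j : ℕ) (D : ℝ) {t : ℝ} (ht : 0 ≤ t) (ht1 : t ≤ 1) :
    ∑ n ∈ range (2 ^ j), (if DvA D j n then MM j n else 0) ≤ 2 ^ j * (2 * Real.exp (-(t * D) + 3 / 16 * t ^ 2 * j)) := by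
  have h1 : ∀ n ∈ range (2 ^ j), (if DvA D j n then MM j n else 0) ≤
      Real.exp (-(t * D)) * (MM j n * Real.exp (t * ((od j n : ℝ) - 3 / 4 * j)) +
        MM j n * Real.exp (-t * ((od j n : ℝ) - 3 / 4 * j))) := by
    intro n _
    have hM := MM_pos j n
    split_ifs with h
    · have := ind_le ht h
      calc MM j n = MM j n * 1 := (mul_one _).symm
        _ ≤ MM j n * _ := mul_le_mul_of_nonneg_left this hM.le
        _ = _ := by ring
    · positivity
  refine (sum_le_sum h1).trans ?_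
  rw [← mul_sum, sum_add_distrib]
  have a1 := mgfA j (t := t) (by rw [abs_of_nonneg ht]; exact ht1)
  have a2 := mgfA j (t := -t) (by rw [abs_neg, abs_of_nonneg ht]; exact ht1)
  have e : (-t) ^ 2 = t ^ 2 := by ring
  rw [e] at a2
  calc Real.exp (-(t * D)) * (_ + _) ≤ Real.exp (-(t * D)) * (2 ^ j * Real.exp (3 / 16 * t ^ 2 * j) +
        2 ^ j * Real.exp (3 / 16 * t ^ 2 * j)) :=
        mul_le_mul_of_nonneg_left (add_le_add a1 a2) (Real.exp_pos _).le
    _ = _ := by rw [Real.exp_add]; ring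

open scoped Classical in
theorem chB (j : ℕ) (D : ℝ) {t : ℝ} (ht : 0 ≤ t) :
    ∑ n ∈ range (2 ^ j), (if DvB D j n then (1 : ℝ) else 0) ≤ 2 ^ j * (2 * Real.exp (-(t * D) + 1 / 8 * t ^ 2 * j)) := by
  have h1 : ∀ n ∈ range (2 ^ j), (if DvB D j n then (1 : ℝ) else 0) ≤
      Real.exp (-(t * D)) * (Real.exp (t * ((od j n : ℝ) - 1 / 2 * j)) +
        Real.exp (-t * ((od j n : ℝ) - 1 / 2 * j))) := by
    intro n _
    split_ifs with h
    · exact ind_le ht h
    · positivity
  refine (sum_le_sum h1).trans ?_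
  rw [← mul_sum, sum_add_distrib]
  have a1 := mgfB j t
  have a2 := mgfB j (-t)
  have e : (-t) ^ 2 = t ^ 2 := by ring
  rw [e] at a2
  calc Real.exp (-(t * D)) * (_ + _) ≤ Real.exp (-(t * D)) * (2 ^ j * Real.exp (1 / 8 * t ^ 2 * j) +
        2 ^ j * Real.exp (1 / 8 * t ^ 2 * j)) :=
        mul_le_mul_of_nonneg_left (add_le_add a1 a2) (Real.exp_pos _).le
    _ = _ := by rw [Real.exp_add]; ring

theorem DvA_shift {D : ℝ} {j J : ℕ} (h : j ≤ J) (x c : ℕ) : DvA D j (x + 2 ^ J * c) ↔ DvA D j x := by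
  unfold DvA; rw [od_shift_le h]

theorem DvB_shift {D : ℝ} {j J : ℕ} (h : j ≤ J) (x c : ℕ) : DvB D j (x + 2 ^ J * c) ↔ DvB D j x := by
  unfold DvB; rw [od_shift_le h]

open scoped Classical in
theorem sum_MM_P (j d : ℕ) {P : ℕ → Prop} (hP : ∀ x c, P (x + 2 ^ j * c) ↔ P x) :
    ∑ n ∈ range (2 ^ (j + d)), (if P n then MM (j + d) n else 0) =
      2 ^ d * ∑ n ∈ range (2 ^ j), (if P n then MM j n else 0) := by
  induction d with
  | zero => simp
  | succ d ih =>
    rw [← add_assoc, pow_succ, mul_two, sum_range_add, ← sum_add_distrib, pow_succ, mul_comm (2 ^ d) 2,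
      mul_assoc, ← ih, mul_sum]
    apply sum_congr rfl
    intro x _
    have h1 : P (2 ^ (j + d) + x) ↔ P x := by
      rw [add_comm, pow_add]; exact hP x _
    have h2 := (MM_children (j + d) x).1
    rw [add_comm x] at h2
    by_cases h : P x
    · rw [if_pos h, if_pos (h1.2 h), if_pos h]
      exact h2
    · rw [if_neg h, if_neg (fun h' => h (h1.1 h')), if_neg h]
      ring

open scoped Classical in
theorem sum_T_P (k b : ℕ) {P : ℕ → Prop} (hP : ∀ x c, P (x + 2 ^ b * c) ↔ P x) :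
    ∑ n ∈ range (2 ^ (k + b)), (if P (T^[k] n) then MM k n else 0) =
      2 ^ k * ∑ m ∈ range (2 ^ b), (if P m then (1 : ℝ) else 0) := by
  induction k with
  | zero =>
    rw [pow_zero, one_mul, zero_add]
    apply sum_congr rfl
    intro n _
    have : MM 0 n = 1 := Pool.Agent.W36.SL.MM_zero n
    rw [this]; rfl
  | succ k ih =>
    have e : 2 ^ (k + 1 + b) = 2 * 2 ^ (k + b) := by rw [show k + 1 + b = (k + b) + 1 by ring, pow_succ]; ring
    rw [e, sum_range_two_mul, sum_add_distrib]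
    have M1 : ∀ m, MM (k + 1) (2 * m) = 1 / 2 * MM k m := by
      intro m
      unfold MM
      rw [od_one, T_two_mul]
      have : 2 * m % 2 = 0 := by omega
      rw [this, zero_add, pow_succ]
      field_simp
    have M2 : ∀ m, MM (k + 1) (2 * m + 1) = 3 / 2 * MM k (3 * m + 2) := by
      intro m
      unfold MM
      rw [od_one, T_two_mul_add]
      have : (2 * m + 1) % 2 = 1 := by omega
      rw [this, pow_add, pow_one, pow_succ 2]
      field_simp
    have e1 : ∑ m ∈ range (2 ^ (k + b)), (if P (T^[k + 1] (2 * m)) then MM (k + 1) (2 * m) else 0) =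
        1 / 2 * ∑ m ∈ range (2 ^ (k + b)), (if P (T^[k] m) then MM k m else 0) := by
      rw [mul_sum]
      apply sum_congr rfl
      intro m _
      rw [Function.iterate_succ_apply, T_two_mul, M1]
      split_ifs <;> ring
    have hper : ∀ x, (if P (T^[k] (x % 2 ^ (k + b))) then MM k (x % 2 ^ (k + b)) else 0) =
        (if P (T^[k] x) then MM k x else 0) := by
      intro x
      have hx := Nat.mod_add_div x (2 ^ (k + b))
      set y := x % 2 ^ (k + b)
      set c := x / 2 ^ (k + b)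
      have h1 : MM k x = MM k y := by rw [← hx]; exact MM_shift (by omega) y c
      have h2 : P (T^[k] x) ↔ P (T^[k] y) := by
        rw [← hx]
        have := (Pool.Agent.Helper894.Collatz.period k y (2 ^ b * c)).1
        rw [pow_add, mul_assoc, this]
        rw [show 3 ^ od k y * (2 ^ b * c) = 2 ^ b * (3 ^ od k y * c) by ring]
        exact hP _ _
      rw [h1]
      by_cases h : P (T^[k] y)
      · rw [if_pos h, if_pos (h2.2 h)]
      · rw [if_neg h, if_neg (fun h' => h (h2.1 h'))]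
    have e2 : ∑ m ∈ range (2 ^ (k + b)), (if P (T^[k + 1] (2 * m + 1)) then MM (k + 1) (2 * m + 1) else 0) =
        3 / 2 * ∑ m ∈ range (2 ^ (k + b)), (if P (T^[k] m) then MM k m else 0) := by
      rw [← sum_perm (k + b) (fun m => if P (T^[k] m) then MM k m else 0) hper, mul_sum]
      apply sum_congr rfl
      intro m _
      rw [Function.iterate_succ_apply, T_two_mul_add, M2]
      split_ifs <;> ring
    rw [e1, e2, ih, pow_succ]
    ring

end Pool.Agent.H77.Col
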