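import Pool.Agent.H77.Col.Shape

/-! The shape of the large excursions: the exceptional words, and the tent. -/

set_option autoImplicit false

namespace Pool.Agent.H77.Col

open Finset Filter Topology
open Pool.Agent.Helper894.Collatz (T od er sum_pow_od od_add)
open Pool.Agent.H828R3.Exc (PP MM ge_iff MM_pos MM_children od_shift_le)
open Pool.Agent.W36.SL (sum_perm sum_range_two_mul T_two_mul T_two_mul_add sum_block MM_shift od_one MM_zero MM_succ)

/-- the exceptional words -/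
def Bad (lam D : ℝ) (t K n : ℕ) : Prop :=
  ∃ k ≤ t, lam ≤ MM k n ∧ ((∃ j ≤ k, DvA D j n) ∨ ∃ i, k + i ≤ K ∧ DvB D i (T^[k] n))

theorem T_shift {k J : ℕ} (h : k ≤ J) (x c : ℕ) :
    T^[k] (x + 2 ^ J * c) = T^[k] x + 2 ^ (J - k) * (3 ^ od k x * c) := by
  obtain ⟨d, rfl⟩ := Nat.exists_eq_add_of_le h
  have := (Pool.Agent.Helper894.Collatz.period k x (2 ^ d * c)).1
  rw [pow_add, mul_assoc, this, Nat.add_sub_cancel_left]
  ring

theorem Bad_shift {lam D : ℝ} {t K : ℕ} (htK : t ≤ K) (x c : ℕ) : Bad lam D t K (x + 2 ^ K * c) ↔ Bad lam D t K x := by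
  unfold Bad
  have key : ∀ k ≤ t, (lam ≤ MM k (x + 2 ^ K * c) ∧ ((∃ j ≤ k, DvA D j (x + 2 ^ K * c)) ∨
      ∃ i, k + i ≤ K ∧ DvB D i (T^[k] (x + 2 ^ K * c)))) ↔
      (lam ≤ MM k x ∧ ((∃ j ≤ k, DvA D j x) ∨ ∃ i, k + i ≤ K ∧ DvB D i (T^[k] x))) := by
    intro k hk
    rw [MM_shift (hk.trans htK), T_shift (hk.trans htK)]
    apply and_congr_right
    intro _
    apply or_congr
    · constructor
      · rintro ⟨j, hj, h⟩
        exact ⟨j, hj, (DvA_shift (hj.trans (hk.trans htK)) _ _).1 h⟩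
      · rintro ⟨j, hj, h⟩
        exact ⟨j, hj, (DvA_shift (hj.trans (hk.trans htK)) _ _).2 h⟩
    · constructor
      · rintro ⟨i, hi, h⟩
        exact ⟨i, hi, (DvB_shift (by omega) _ _).1 h⟩
      · rintro ⟨i, hi, h⟩
        exact ⟨i, hi, (DvB_shift (by omega) _ _).2 h⟩
  constructor
  · rintro ⟨k, hk, h⟩
    exact ⟨k, hk, (key k hk).1 h⟩
  · rintro ⟨k, hk, h⟩
    exact ⟨k, hk, (key k hk).2 h⟩

open scoped Classical in
theorem markov {K : ℕ} {lam : ℝ} (hlam : 0 < lam) (F : ℕ → ℝ) (P : ℕ → Prop) {S : ℝ}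
    (hF : ∀ n, 0 ≤ F n) (h : ∑ n ∈ range (2 ^ K), (if P n then F n else 0) ≤ S) :
    (((range (2 ^ K)).filter fun n => lam ≤ F n ∧ P n).card : ℝ) ≤ S / lam := by
  rw [le_div_iff₀ hlam, ← nsmul_eq_mul]
  refine le_trans ?_ h
  calc ((range (2 ^ K)).filter fun n => lam ≤ F n ∧ P n).card • lam
      ≤ ∑ n ∈ (range (2 ^ K)).filter (fun n => lam ≤ F n ∧ P n), (if P n then F n else 0) := by
        apply card_nsmul_le_sum
        intro n hn
        rw [mem_filter] at hn
        rw [if_pos hn.2.2]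
        exact hn.2.1
    _ ≤ _ := by
        apply sum_le_sum_of_subset_of_nonneg (filter_subset _ _)
        intro n _ _
        split_ifs
        · exact hF n
        · exact le_rfl

open scoped Classical in
theorem cardA {j k K : ℕ} (hjk : j ≤ k) (hkK : k ≤ K) {D lam τ : ℝ} (hlam : 0 < lam) (ht : 0 ≤ τ) (ht1 : τ ≤ 1) :
    (((range (2 ^ K)).filter fun n => lam ≤ MM k n ∧ DvA D j n).card : ℝ) ≤
      2 ^ K * (2 * Real.exp (-(τ * D) + 3 / 16 * τ ^ 2 * j)) / lam := by
  apply markov hlam (fun n => MM k n) (DvA D j) (fun n => (MM_pos k n).le)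
  obtain ⟨d, rfl⟩ := Nat.exists_eq_add_of_le hjk
  obtain ⟨e, rfl⟩ := Nat.exists_eq_add_of_le hkK
  rw [sum_block (j + d) e (fun n => if DvA D j n then MM (j + d) n else 0) (fun x c => by
    rw [MM_shift le_rfl]
    by_cases h : DvA D j x
    · rw [if_pos h, if_pos ((DvA_shift (by omega) x c).2 h)]
    · rw [if_neg h, if_neg (fun h' => h ((DvA_shift (by omega) x c).1 h'))]),
    sum_MM_P j d (fun x c => DvA_shift le_rfl x c)]
  have h := chA j D ht ht1
  calc (2 : ℝ) ^ e * (2 ^ d * ∑ n ∈ range (2 ^ j), (if DvA D j n then MM j n else 0))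
      ≤ 2 ^ e * (2 ^ d * (2 ^ j * (2 * Real.exp (-(τ * D) + 3 / 16 * τ ^ 2 * j)))) := by
        apply mul_le_mul_of_nonneg_left _ (by positivity)
        exact mul_le_mul_of_nonneg_left h (by positivity)
    _ = _ := by rw [pow_add, pow_add]; ring

open scoped Classical in
theorem cardB {i k K : ℕ} (hikK : k + i ≤ K) {D lam τ : ℝ} (hlam : 0 < lam) (ht : 0 ≤ τ) :
    (((range (2 ^ K)).filter fun n => lam ≤ MM k n ∧ DvB D i (T^[k] n)).card : ℝ) ≤
      2 ^ K * (2 * Real.exp (-(τ * D) + 1 / 8 * τ ^ 2 * i)) / lam := by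
  apply markov hlam (fun n => MM k n) (fun n => DvB D i (T^[k] n)) (fun n => (MM_pos k n).le)
  obtain ⟨e, rfl⟩ := Nat.exists_eq_add_of_le hikK
  rw [sum_block (k + i) e (fun n => if DvB D i (T^[k] n) then MM k n else 0) (fun x c => by
    rw [MM_shift (by omega), T_shift (by omega)]
    by_cases h : DvB D i (T^[k] x)
    · rw [if_pos h, if_pos ((DvB_shift (by omega) _ _).2 h)]
    · rw [if_neg h, if_neg (fun h' => h ((DvB_shift (by omega) _ _).1 h'))]),
    sum_T_P k i (fun x c => DvB_shift le_rfl x c)]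
  have h := chB i D ht
  calc (2 : ℝ) ^ e * (2 ^ k * ∑ n ∈ range (2 ^ i), (if DvB D i n then (1 : ℝ) else 0))
      ≤ 2 ^ e * (2 ^ k * (2 ^ i * (2 * Real.exp (-(τ * D) + 1 / 8 * τ ^ 2 * i)))) := by
        apply mul_le_mul_of_nonneg_left _ (by positivity)
        exact mul_le_mul_of_nonneg_left h (by positivity)
    _ = _ := by rw [pow_add, pow_add]; ring

open scoped Classical in
theorem card_Bad {t K : ℕ} (htK : t ≤ K) {D lam τ E : ℝ} (hlam : 0 < lam) (ht : 0 ≤ τ) (ht1 : τ ≤ 1) (hE : 0 ≤ E)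
    (hEE : ∀ j ≤ K, 2 * Real.exp (-(τ * D) + 3 / 16 * τ ^ 2 * j) ≤ E) :
    (((range (2 ^ K)).filter fun n => Bad lam D t K n).card : ℝ) ≤
      ((t + 1) ^ 2 + (t + 1) * (K + 1)) * (2 ^ K * E / lam) := by
  have hsub : (range (2 ^ K)).filter (fun n => Bad lam D t K n) ⊆
      (range (t + 1)).biUnion (fun k => ((range (t + 1)).biUnion fun j =>
        if j ≤ k then (range (2 ^ K)).filter (fun n => lam ≤ MM k n ∧ DvA D j n) else ∅) ∪
        ((range (K + 1)).biUnion fun i =>
        if k + i ≤ K then (range (2 ^ K)).filter (fun n => lam ≤ MM k n ∧ DvB D i (T^[k] n)) else ∅)) := by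
    intro n hn
    rw [mem_filter] at hn
    obtain ⟨hn1, k, hk, hk2, h⟩ := hn
    rw [mem_biUnion]
    refine ⟨k, mem_range.2 (by omega), ?_⟩
    rw [mem_union, mem_biUnion, mem_biUnion]
    rcases h with ⟨j, hj, h⟩ | ⟨i, hi, h⟩
    · left
      refine ⟨j, mem_range.2 (by omega), ?_⟩
      rw [if_pos hj]
      exact mem_filter.2 ⟨hn1, hk2, h⟩
    · right
      refine ⟨i, mem_range.2 (by omega), ?_⟩
      rw [if_pos hi]
      exact mem_filter.2 ⟨hn1, hk2, h⟩
  have h0 : 0 ≤ 2 ^ K * E / lam := by positivity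
  have h1 : ∀ k ∈ range (t + 1), ∀ j ∈ range (t + 1),
      ((if j ≤ k then (range (2 ^ K)).filter (fun n => lam ≤ MM k n ∧ DvA D j n) else ∅).card : ℝ) ≤ 2 ^ K * E / lam := by
    intro k hk j hj
    rw [mem_range] at hk hj
    split_ifs with h
    · refine (cardA (K := K) h (by omega) hlam ht ht1).trans ?_
      apply div_le_div_of_nonneg_right _ hlam.le
      exact mul_le_mul_of_nonneg_left (hEE j (by omega)) (by positivity)
    · simpa using h0
  have h2 : ∀ k ∈ range (t + 1), ∀ i ∈ range (K + 1),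
      ((if k + i ≤ K then (range (2 ^ K)).filter (fun n => lam ≤ MM k n ∧ DvB D i (T^[k] n)) else ∅).card : ℝ) ≤
        2 ^ K * E / lam := by
    intro k hk i hi
    rw [mem_range] at hk hi
    split_ifs with h
    · refine (cardB (K := K) h hlam ht).trans ?_
      apply div_le_div_of_nonneg_right _ hlam.le
      apply mul_le_mul_of_nonneg_left _ (by positivity)
      refine le_trans ?_ (hEE i (by omega))
      have : Real.exp (-(τ * D) + 1 / 8 * τ ^ 2 * i) ≤ Real.exp (-(τ * D) + 3 / 16 * τ ^ 2 * i) := by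
        apply Real.exp_le_exp.2
        have : 0 ≤ τ ^ 2 * i := by positivity
        linarith
      linarith
    · simpa using h0
  have h3 : (((range (2 ^ K)).filter fun n => Bad lam D t K n).card : ℝ) ≤
      ∑ k ∈ range (t + 1), ((∑ j ∈ range (t + 1),
        ((if j ≤ k then (range (2 ^ K)).filter (fun n => lam ≤ MM k n ∧ DvA D j n) else ∅).card : ℝ)) +
        ∑ i ∈ range (K + 1),
        ((if k + i ≤ K then (range (2 ^ K)).filter (fun n => lam ≤ MM k n ∧ DvB D i (T^[k] n)) else ∅).card : ℝ)) := by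
    have h4 := (card_le_card hsub).trans (card_biUnion_le.trans (sum_le_sum fun k _ => (card_union_le _ _).trans
      (Nat.add_le_add card_biUnion_le card_biUnion_le)))
    exact_mod_cast h4
  refine h3.trans ?_
  have h5 : ∀ k ∈ range (t + 1), ((∑ j ∈ range (t + 1),
        ((if j ≤ k then (range (2 ^ K)).filter (fun n => lam ≤ MM k n ∧ DvA D j n) else ∅).card : ℝ)) +
        ∑ i ∈ range (K + 1),
        ((if k + i ≤ K then (range (2 ^ K)).filter (fun n => lam ≤ MM k n ∧ DvB D i (T^[k] n)) else ∅).card : ℝ)) ≤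
        (t + 1) * (2 ^ K * E / lam) + (K + 1) * (2 ^ K * E / lam) := by
    intro k hk
    have a1 := sum_le_sum (h1 k hk)
    have a2 := sum_le_sum (h2 k hk)
    rw [sum_const, card_range, nsmul_eq_mul] at a1 a2
    push_cast at a1 a2
    exact add_le_add a1 a2
  refine (sum_le_sum h5).trans (le_of_eq ?_)
  rw [sum_const, card_range, nsmul_eq_mul]
  push_cast
  ring

open scoped Classical in
theorem card_Bad_N {t K : ℕ} (N : ℕ) (htK : t ≤ K) {D lam τ E : ℝ} (hlam : 0 < lam) (ht : 0 ≤ τ) (ht1 : τ ≤ 1) (hE : 0 ≤ E)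
    (hEE : ∀ j ≤ K, 2 * Real.exp (-(τ * D) + 3 / 16 * τ ^ 2 * j) ≤ E) :
    (((range N).filter fun n => Bad lam D t K n).card : ℝ) ≤
      (N + 2 ^ K) * (((t + 1) ^ 2 + (t + 1) * (K + 1)) * (E / lam)) := by
  have h1 := (Pool.Agent.W36.SL.card_periodic (M := 2 ^ K) (by positivity) (fun n => Bad lam D t K n)
    (fun x c => Bad_shift htK x c) N).1
  have h2 := card_Bad htK (D := D) hlam ht ht1 hE hEE
  have h2J : (0 : ℝ) < 2 ^ K := by positivity
  push_cast at h1
  refine h1.trans ?_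
  calc ((N : ℝ) / 2 ^ K + 1) * (((range (2 ^ K)).filter fun n => Bad lam D t K n).card : ℝ)
      ≤ ((N : ℝ) / 2 ^ K + 1) * (((t + 1) ^ 2 + (t + 1) * (K + 1)) * (2 ^ K * E / lam)) :=
        mul_le_mul_of_nonneg_left h2 (by positivity)
    _ = _ := by field_simp

/-- the slope of the descents -/
noncomputable def nud : ℝ := Real.log (4 / 3) / 2

theorem nud_pos : 0 < nud := div_pos (Real.log_pos (by norm_num)) (by norm_num)

theorem nud_eq : nud = Real.log 2 - 1 / 2 * Real.log 3 := by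
  unfold nud
  rw [Real.log_div (by norm_num) (by norm_num), show (4 : ℝ) = 2 ^ 2 by norm_num, Real.log_pow]
  push_cast
  ring

/-- the tent -/
noncomputable def tent (L j : ℝ) : ℝ := min (mu * j) (L - nud * (j - L / mu))

theorem log_MM (j n : ℕ) : Real.log (MM j n) = od j n * Real.log 3 - j * Real.log 2 := by
  unfold MM
  rw [Real.log_div (by positivity) (by positivity), Real.log_pow, Real.log_pow]

theorem log_MM_A (j n : ℕ) : Real.log (MM j n) = mu * j + ((od j n : ℝ) - 3 / 4 * j) * Real.log 3 := by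
  rw [log_MM, mu_eq]; ring

theorem log_MM_B (k i n : ℕ) : Real.log (MM (k + i) n) = Real.log (MM k n) - nud * i +
    ((od i (T^[k] n) : ℝ) - 1 / 2 * i) * Real.log 3 := by
  rw [log_MM, log_MM, nud_eq, od_add]
  push_cast
  ring

theorem MM_step (k n : ℕ) : MM (k + 1) n ≤ 3 / 2 * MM k n := by
  rw [MM_succ]
  have := MM_pos k n
  split_ifs <;> linarith

theorem tent_word {lam D : ℝ} {t K n : ℕ} (hlam : 2 < lam) (h : ∃ k ≤ t, lam / 2 ≤ MM k n)
    (hB : ¬ Bad (lam / 2) D t K n) (hD : 0 ≤ D) {j : ℕ} (hj : j ≤ K) :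
    |Real.log (MM j n) - tent (Real.log lam) j| ≤ (2 + 2 * (nud / mu)) * (D * Real.log 3 + Real.log 2) := by
  classical
  have hex : ∃ k, lam / 2 ≤ MM k n := by obtain ⟨k, _, h⟩ := h; exact ⟨k, h⟩
  set k := Nat.find hex with hk
  have hk1 : lam / 2 ≤ MM k n := Nat.find_spec hex
  have hkt : k ≤ t := by
    obtain ⟨k', hk', h'⟩ := h
    exact (Nat.find_min' hex h').trans hk'
  have hk0 : k ≠ 0 := by
    intro h0
    rw [h0, MM_zero] at hk1
    linarith
  obtain ⟨k', hk'⟩ := Nat.exists_eq_succ_of_ne_zero hk0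
  have hlt : MM k' n < lam / 2 := by
    have := Nat.find_min hex (show k' < k by omega)
    exact not_le.1 this
  have hk2 : MM k n ≤ lam := by
    rw [hk']
    have := MM_step k' n
    linarith
  have hA : ∀ i ≤ k, |(od i n : ℝ) - 3 / 4 * i| ≤ D := by
    intro i hi
    by_contra hcon
    exact hB ⟨k, hkt, hk1, Or.inl ⟨i, hi, not_le.1 hcon⟩⟩
  have hBB : ∀ i, k + i ≤ K → |(od i (T^[k] n) : ℝ) - 1 / 2 * i| ≤ D := by
    intro i hi
    by_contra hcon
    exact hB ⟨k, hkt, hk1, Or.inr ⟨i, hi, not_le.1 hcon⟩⟩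
  set L := Real.log lam with hL
  have hl3 : 0 < Real.log 3 := Real.log_pos (by norm_num)
  have hl2 : 0 < Real.log 2 := Real.log_pos (by norm_num)
  have hmu := mu_pos
  have hnu := nud_pos
  set δ := D * Real.log 3 + Real.log 2 with hδ
  have hδ0 : 0 < δ := by rw [hδ]; positivity
  have hkL1 : L - Real.log 2 ≤ Real.log (MM k n) := by
    rw [hL, ← Real.log_div (by linarith) (by norm_num)]
    exact Real.log_le_log (by linarith) hk1
  have hkL2 : Real.log (MM k n) ≤ L := Real.log_le_log (MM_pos _ _) hk2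
  have hdev : ∀ i ≤ k, |((od i n : ℝ) - 3 / 4 * i) * Real.log 3| ≤ D * Real.log 3 := by
    intro i hi
    rw [abs_mul, abs_of_pos hl3]
    exact mul_le_mul_of_nonneg_right (hA i hi) hl3.le
  have hkk : |mu * k - L| ≤ δ := by
    have h1 := hdev k le_rfl
    have h2 := log_MM_A k n
    rw [abs_le] at h1 ⊢
    constructor <;> linarith
  set ρ := nud / mu with hρ
  have hρ0 : 0 < ρ := div_pos hnu hmu
  have hLmu : nud * (L / mu) = ρ * L := by rw [hρ]; ring
  have hjmu : ∀ y : ℝ, nud * y = ρ * (mu * y) := by intro y; rw [hρ]; field_simp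
  have htent : ∀ y : ℝ, tent L y = min (mu * y) (L + ρ * (L - mu * y)) := by
    intro y
    unfold tent
    congr 1
    rw [mul_sub, hLmu, hjmu y]; ring
  rw [htent]
  have hρδ : 0 ≤ ρ * δ := by positivity
  rw [abs_le] at hkk
  rcases le_or_gt j k with hjk | hjk
  · have h1 := hdev j hjk
    have h2 := log_MM_A j n
    have h3 : mu * j ≤ mu * k := by
      apply mul_le_mul_of_nonneg_left _ hmu.le
      exact_mod_cast hjk
    have h4 : mu * j - L ≤ δ := by linarith
    have h5 : ρ * (mu * j - L) ≤ ρ * δ := mul_le_mul_of_nonneg_left h4 hρ0.le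
    rw [abs_le] at h1
    rcases le_total (mu * (j : ℝ)) (L + ρ * (L - mu * j)) with h6 | h6
    · rw [min_eq_left h6, abs_le]
      constructor <;> linarith
    · rw [min_eq_right h6, abs_le]
      constructor <;> linarith
  · obtain ⟨i, rfl⟩ := Nat.exists_eq_add_of_lt hjk
    have h1 := hBB (i + 1) (by omega)
    have h2 := log_MM_B k (i + 1) n
    rw [show k + i + 1 = k + (i + 1) by ring] at hj ⊢
    have h3 : |((od (i + 1) (T^[k] n) : ℝ) - 1 / 2 * ((i + 1 : ℕ) : ℝ)) * Real.log 3| ≤ D * Real.log 3 := by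
      rw [abs_mul, abs_of_pos hl3]
      exact mul_le_mul_of_nonneg_right h1 hl3.le
    rw [abs_le] at h3
    set m : ℝ := ((i + 1 : ℕ) : ℝ) with hm
    have hm0 : 0 ≤ m := Nat.cast_nonneg _
    have hcast : ((k + (i + 1) : ℕ) : ℝ) = k + m := by push_cast [hm]; ring
    rw [hcast]
    have h4 : nud * m = ρ * (mu * m) := hjmu m
    have hmm : 0 ≤ mu * m := by positivity
    have h5 : ρ * (mu * k - L) ≤ ρ * δ := mul_le_mul_of_nonneg_left hkk.2 hρ0.le
    have h6 : -(ρ * δ) ≤ ρ * (mu * k - L) := by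
      have := mul_le_mul_of_nonneg_left hkk.1 hρ0.le
      linarith
    have h7 : 0 ≤ ρ * (mu * m) := by positivity
    rcases le_total (mu * ((k : ℝ) + m)) (L + ρ * (L - mu * (k + m))) with h8 | h8
    · rw [min_eq_left h8, abs_le]
      -- here `mu (k + m) ≤ L` essentially
      have h9 : mu * (k + m) ≤ L := by
        by_contra hcon
        push Not at hcon
        have : 0 ≤ ρ * (mu * (k + m) - L) := mul_nonneg hρ0.le (by linarith)
        linarith
      have h10 : mu * m ≤ δ := by linarith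
      have h11 : ρ * (mu * m) ≤ ρ * δ := mul_le_mul_of_nonneg_left h10 hρ0.le
      constructor <;> linarith
    · rw [min_eq_right h8, abs_le]
      constructor <;> linarith

end Pool.Agent.H77.Col
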