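import Pool.Agent.H77.Col.Shape2

/-! The shape of the large excursions: the integers. -/

set_option autoImplicit false

namespace Pool.Agent.H77.Col

open Finset Filter Topology
open Pool.Agent.Helper894.Collatz (T od er sum_pow_od od_add)
open Pool.Agent.H828R3.Exc (PP MM ge_iff MM_pos MM_children od_shift_le)
open Pool.Agent.W36.SL (s p q b s_mono s_le_one s_ge iter_le iter_ge card_PP_N card_Dip_N near log_bound ev_small Exc)

theorem MM_ge (j n : ℕ) : 1 / 2 ^ j ≤ MM j n := by
  unfold MM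
  apply div_le_div_of_nonneg_right _ (by positivity)
  exact one_le_pow₀ (by norm_num)

theorem exp_third : Real.exp (1 / 3) ≤ 2 := by
  have h1 := Real.exp_one_lt_d9
  have h2 : Real.exp (1 / 3) ^ 3 ≤ (2 : ℝ) ^ 3 := by
    rw [← Real.exp_nat_mul]
    have e : ((3 : ℕ) : ℝ) * (1 / 3) = 1 := by norm_num
    rw [e]
    norm_num
    linarith
  exact le_of_pow_le_pow_left₀ (by norm_num) (by norm_num) h2

theorem int_word {n K j : ℕ} (hn : 1 ≤ n) (hK : K * 2 ^ K ≤ n) (hj : j ≤ K) :
    |Real.log ((T^[j] n : ℕ) / n) - Real.log (MM j n)| ≤ Real.log 2 := by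
  have hnR : (0 : ℝ) < n := by exact_mod_cast hn
  have hM := MM_pos j n
  have h2K : (0 : ℝ) < 2 ^ K := by positivity
  set Y : ℝ := n / 2 ^ K with hY
  have hY0 : 0 < Y := by rw [hY]; positivity
  have h1 := iter_ge j n
  have h2 := iter_le hY0 n j (fun i hi => by
    refine le_trans ?_ (iter_ge i n)
    have h3 := MM_ge i n
    have h4 : (1 : ℝ) / 2 ^ K ≤ 1 / 2 ^ i :=
      one_div_le_one_div_of_le (by positivity) (pow_le_pow_right₀ (by norm_num) (by omega))
    rw [hY, div_eq_mul_one_div, mul_comm]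
    exact mul_le_mul_of_nonneg_right (h4.trans h3) hnR.le)
  have hR : (1 + 1 / (3 * Y)) ^ j ≤ 2 := by
    have h3 : 1 + 1 / (3 * Y) ≤ Real.exp (1 / (3 * Y)) := by
      have := Real.add_one_le_exp (1 / (3 * Y)); linarith
    calc (1 + 1 / (3 * Y)) ^ j ≤ (Real.exp (1 / (3 * Y))) ^ j := pow_le_pow_left₀ (by positivity) h3 j
      _ = Real.exp (j * (1 / (3 * Y))) := (Real.exp_nat_mul _ _).symm
      _ ≤ Real.exp (1 / 3) := by
          apply Real.exp_le_exp.2
          have h4 : (K : ℝ) * 2 ^ K ≤ n := by exact_mod_cast hK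
          have h5 : (j : ℝ) ≤ K := by exact_mod_cast hj
          rw [hY, mul_one_div, div_le_div_iff₀ (by positivity) (by norm_num)]
          have h6 : (K : ℝ) ≤ n / 2 ^ K := by rw [le_div_iff₀ h2K]; exact h4
          linarith
      _ ≤ 2 := exp_third
  have hT0 : (0 : ℝ) < (T^[j] n : ℕ) := lt_of_lt_of_le (by positivity) h1
  have h3 : ((T^[j] n : ℕ) : ℝ) / n ≤ MM j n * 2 := by
    rw [div_le_iff₀ hnR]
    calc ((T^[j] n : ℕ) : ℝ) ≤ MM j n * n * (1 + 1 / (3 * Y)) ^ j := h2
      _ ≤ MM j n * n * 2 := mul_le_mul_of_nonneg_left hR (by positivity)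
      _ = _ := by ring
  have h4 : MM j n ≤ ((T^[j] n : ℕ) : ℝ) / n := by rw [le_div_iff₀ hnR]; exact h1
  have h5 := Real.log_le_log hM h4
  have h6 := Real.log_le_log (by positivity) h3
  rw [Real.log_mul hM.ne' (by norm_num)] at h6
  have h7 : 0 < Real.log 2 := Real.log_pos (by norm_num)
  rw [abs_le]
  constructor <;> linarith

/-- the trajectory of `n` has the shape of the tent -/
def TentI (ε A lam : ℝ) (n : ℕ) : Prop :=
  ∀ j : ℕ, (j : ℝ) ≤ A * Real.log lam → |Real.log ((T^[j] n : ℕ) / n) - tent (Real.log lam) j| ≤ ε * Real.log lam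

theorem mu_ge' : 13 / 100 ≤ mu := by
  unfold mu
  have h : (13 : ℝ) / 25 ≤ Real.log (27 / 16) := by
    rw [Real.le_log_iff_exp_le (by norm_num)]
    have h1 := Real.exp_one_lt_d9
    have h2 : Real.exp (13 / 25) ^ 25 ≤ (27 / 16 : ℝ) ^ 25 := by
      rw [← Real.exp_nat_mul]
      have e : ((25 : ℕ) : ℝ) * (13 / 25) = ((13 : ℕ) : ℝ) * 1 := by norm_num
      rw [e, Real.exp_nat_mul]
      have h3 : Real.exp 1 ^ 13 ≤ (2.7182818286 : ℝ) ^ 13 := pow_le_pow_left₀ (Real.exp_pos 1).le h1.le 13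
      refine h3.trans ?_
      norm_num
    exact le_of_pow_le_pow_left₀ (by norm_num) (by norm_num) h2
  linarith

/-- the time horizon is at most `8 log lam` for large `lam` -/
theorem TT_le8 (u : ℝ) : ∀ᶠ lam in (atTop : Filter ℝ), (⌊TT u lam⌋₊ : ℝ) ≤ 8 * Real.log lam := by
  have hL : Tendsto (fun lam : ℝ => Real.log lam) atTop atTop := Real.tendsto_log_atTop
  have hsq : Tendsto (fun lam : ℝ => √(Real.log lam)) atTop atTop := Real.tendsto_sqrt_atTop.comp hL
  filter_upwards [hL.eventually_gt_atTop 0, hsq.eventually_ge_atTop (10 * |u * kap|)] with lam h1 h2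
  have h3 : TT u lam ≤ 8 * Real.log lam := by
    unfold TT
    have h4 : Real.log lam / mu ≤ 77 / 10 * Real.log lam := by
      rw [div_le_iff₀ mu_pos]
      have := mu_ge'
      nlinarith
    have h5 : 10 * (u * kap * √(Real.log lam)) ≤ √(Real.log lam) * √(Real.log lam) := by
      rw [← mul_assoc]
      apply mul_le_mul_of_nonneg_right _ (Real.sqrt_nonneg _)
      have := le_abs_self (u * kap)
      linarith
    rw [Real.mul_self_sqrt h1.le] at h5
    linarith
  rcases le_or_gt 0 (TT u lam) with h4 | h4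
  · exact (Nat.floor_le h4).trans h3
  · rw [Nat.floor_of_nonpos h4.le]
    simpa using h1.le

/-- `L^2 exp(-c L)` is small -/
theorem small_poly {c : ℝ} (hc : 0 < c) (M : ℝ) {e : ℝ} (he : 0 < e) :
    ∀ᶠ lam in (atTop : Filter ℝ), M * (Real.log lam ^ 2 * Real.exp (-(c * Real.log lam))) ≤ e := by
  have h1 := Real.tendsto_pow_mul_exp_neg_atTop_nhds_zero 2
  have h2 : Tendsto (fun lam : ℝ => c * Real.log lam) atTop atTop := Real.tendsto_log_atTop.const_mul_atTop hc
  have h3 := (h1.comp h2).const_mul (M / c ^ 2)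
  rw [mul_zero] at h3
  filter_upwards [h3.eventually (gt_mem_nhds he)] with lam h4
  refine le_of_eq_of_le ?_ h4.le
  simp only [Function.comp]
  field_simp

open scoped Classical in
/-- inclusion -/
theorem sub_fin {N N0 t K : ℕ} {lam Y D ε A : ℝ} (hY0 : 0 < Y) (hlam : 2 < lam) (hR : (1 + 1 / (3 * Y)) ^ t ≤ 2)
    (hD : 0 ≤ D) (hN0 : K * 2 ^ K ≤ N0) (hK : ∀ j : ℕ, (j : ℝ) ≤ A * Real.log lam → j ≤ K)
    (hε : Real.log 2 + (2 + 2 * (nud / mu)) * (D * Real.log 3 + Real.log 2) ≤ ε * Real.log lam) :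
    (Icc 1 N).filter (fun n => Exc lam Y n ∧ ¬ TentI ε A lam n) ⊆
      ((Icc 1 N).filter (Exc lam Y) \ (Icc 1 N).filter (ExcT t lam Y)) ∪
      ((range (N0 + 1)).filter fun n => PP (lam / 2) t n) ∪
      ((range (N + 1)).filter fun n => Bad (lam / 2) D t K n) := by
  intro n hn
  rw [mem_filter, mem_Icc] at hn
  obtain ⟨⟨hn1, hn2⟩, hexc, htent⟩ := hn
  rw [mem_union, mem_union]
  by_cases hT : ExcT t lam Y n
  swap
  · left; left
    rw [Finset.mem_sdiff, mem_filter, mem_filter, mem_Icc]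
    exact ⟨⟨⟨hn1, hn2⟩, hexc⟩, fun h => hT h.2⟩
  obtain ⟨k, hk, hk1, hk2⟩ := hT
  have hn0 : (0 : ℝ) < n := by exact_mod_cast hn1
  have hr1 : (1 : ℝ) ≤ 1 + 1 / (3 * Y) := by
    have : 0 < 1 / (3 * Y) := by positivity
    linarith
  have hM : lam / 2 ≤ MM k n := by
    have h1 := iter_le hY0 n k fun j hj => (hk2 j hj.le).le
    have h2 : (1 + 1 / (3 * Y)) ^ k ≤ 2 := (pow_le_pow_right₀ hr1 hk).trans hR
    have hM0 := MM_pos k n
    have h3 : lam * n < MM k n * n * 2 := by
      calc lam * n < (T^[k] n : ℕ) := hk1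
        _ ≤ MM k n * n * (1 + 1 / (3 * Y)) ^ k := h1
        _ ≤ _ := mul_le_mul_of_nonneg_left h2 (by positivity)
    have h4 : lam * n < (MM k n * 2) * n := by linarith
    have h5 := lt_of_mul_lt_mul_right h4 hn0.le
    linarith
  by_cases hB : Bad (lam / 2) D t K n
  · right
    exact mem_filter.2 ⟨mem_range.2 (by omega), hB⟩
  by_cases hnN : n ≤ N0
  · left; right
    exact mem_filter.2 ⟨mem_range.2 (by omega), k, hk, (ge_iff _ _ _).2 hM⟩
  exfalso
  apply htent
  intro j hj
  have hjK := hK j hj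
  have h1 := tent_word hlam ⟨k, hk, hM⟩ hB hD hjK
  have h2 := int_word hn1 (hN0.trans (by omega)) hjK
  rw [abs_le] at h1 h2 ⊢
  constructor <;> linarith

theorem Phi_large {e : ℝ} (he : 0 < e) : ∃ u : ℝ, 1 - e ≤ Phi u := by
  have htop : Tendsto Phi atTop (𝓝 1) := ProbabilityTheory.tendsto_cdf_atTop _
  obtain ⟨u, hu⟩ := (htop.eventually (lt_mem_nhds (show 1 - e < 1 by linarith))).exists
  exact ⟨u, hu.le⟩

open scoped Classical in
/-- THE SHAPE OF THE LARGE EXCURSIONS -/
theorem tent_law {θ θ' v A : ℝ} (hθ : 0 < θ) (hθθ' : θ ≤ θ') (hθ' : θ' < 1) (hv : v < θ / 21)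
    (hA : A * v * Real.log 2 < 1) {ε : ℝ} (hε : 0 < ε) :
    ∃ L0 x0 : ℝ, ∀ x Y lam : ℝ, x0 ≤ x → x ^ θ ≤ Y → Y ≤ x ^ θ' → L0 ≤ lam → lam ≤ x ^ v →
      (((Icc 1 ⌊x⌋₊).filter (fun n => Exc lam Y n ∧ ¬ TentI ε A lam n)).card : ℝ) ≤ ε * (x / lam) := by
  set C := Pool.Agent.W36.SL.C with hC
  have hCpos : 0 < C := Pool.Agent.W36.SL.C_pos
  have hl3 : 0 < Real.log 3 := Real.log_pos (by norm_num)
  have hl2 : 0 < Real.log 2 := Real.log_pos (by norm_num)
  have hl2' := Real.log_two_lt_d9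
  have hv21 : v < 1 / 21 := by linarith
  -- the parameters
  set e : ℝ := min 1 (ε / (7 + C)) with hedef
  have he : 0 < e := by rw [hedef]; positivity
  have he1 : e ≤ 1 := min_le_left _ _
  have heε : e * (7 + C) ≤ ε := by
    have : e ≤ ε / (7 + C) := min_le_right _ _
    rwa [le_div_iff₀ (by positivity)] at this
  set G0 : ℝ := 2 + 2 * (nud / mu) with hG0
  have hG0pos : 0 < G0 := by
    have := mu_pos; have := nud_pos
    rw [hG0]; positivity
  set η : ℝ := min 1 (ε / (2 * G0 * Real.log 3)) with hη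
  have hη0 : 0 < η := by rw [hη]; positivity
  have hη1 : η ≤ 1 := min_le_left _ _
  have hηε : G0 * (η * Real.log 3) ≤ ε / 2 := by
    have : η ≤ ε / (2 * G0 * Real.log 3) := min_le_right _ _
    rw [le_div_iff₀ (by positivity)] at this
    linarith
  obtain ⟨u, hu⟩ := Phi_large he
  set A' : ℝ := max A 8 with hA'
  have hA'8 : 8 ≤ A' := le_max_right _ _
  have hA'A : A ≤ A' := le_max_left _ _
  have ha : A' * v * Real.log 2 < 1 := by
    rcases max_choice A 8 with h | h
    · rw [hA', h]; exact hA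
    · rw [hA', h]
      have h1 : v * Real.log 2 ≤ 1 / 21 * Real.log 2 := mul_le_mul_of_nonneg_right hv21.le hl2.le
      linarith
  set a : ℝ := A' * v * Real.log 2 with hadef
  set δ : ℝ := 1 - a with hδ
  have hδ0 : 0 < δ := by rw [hδ]; linarith
  set B : ℝ := A' + 1 with hB
  have hB9 : 9 ≤ B := by rw [hB]; linarith
  set c : ℝ := η ^ 2 / (2 * B) with hc
  have hc0 : 0 < c := by rw [hc]; positivity
  have hL : Tendsto (fun lam : ℝ => Real.log lam) atTop atTop := Real.tendsto_log_atTop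
  -- the conditions on `lam`
  obtain ⟨L0, hL0⟩ := eventually_atTop.1 (((TT_le8 u).and (small_poly hc0 (24 * B ^ 2) he)).and
    ((hL.eventually_ge_atTop (2 * (Real.log 2 + G0 * Real.log 2) / ε)).and (eventually_ge_atTop (Real.exp 1))))
  obtain ⟨La, xa, ha1⟩ := Pool.Agent.W36.SL.uniform hθ hθθ' hθ' hv he
  obtain ⟨Lb, xb, hb1⟩ := first_passage_unif hθ hθθ' hθ' hv he
  have main : ∀ᶠ x in (atTop : Filter ℝ), ∀ Y lam : ℝ, x ^ θ ≤ Y → Y ≤ x ^ θ' →
      max L0 (max La Lb) ≤ lam → lam ≤ x ^ v →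
      (((Icc 1 ⌊x⌋₊).filter (fun n => Exc lam Y n ∧ ¬ TentI ε A lam n)).card : ℝ) ≤ ε * (x / lam) := by
    filter_upwards [eventually_ge_atTop (Real.exp 1), eventually_ge_atTop xa, eventually_ge_atTop xb,
      ev_small 1 hδ0 (3 / 2) (show 0 < e / 2 by linarith),
      ev_small 0 (show (0 : ℝ) < 1 by norm_num) 1 (show 0 < e / 8 by linarith),
      ev_small 0 hδ0 1 (show 0 < e / 8 by linarith),
      ev_small 1 hθ 1 (show (0 : ℝ) < 2 / 3 by norm_num)]
      with x hx1 hxa hxb hx2 hx3 hx4 hx7 Y lam hY1 hY2 hlam hlamx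
    rw [pow_one] at hx2 hx7
    rw [pow_zero, one_mul, one_mul] at hx3 hx4
    rw [one_mul] at hx7
    obtain ⟨⟨k1, k2⟩, k3, k4⟩ := hL0 lam ((le_max_left _ _).trans hlam)
    have hlam2 : 2 < lam := by
      have := Real.exp_one_gt_d9
      linarith
    have hlam0 : 0 < lam := by linarith
    have hxe : (2 : ℝ) ≤ x := by
      have := Real.exp_one_gt_d9
      linarith
    have hx0 : 0 < x := by linarith
    have hxone : 1 ≤ x := by linarith
    set L := Real.log lam with hLdef
    have hL1 : 1 ≤ L := by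
      rw [hLdef, ← Real.log_exp 1]; exact Real.log_le_log (Real.exp_pos 1) k4
    set Lx := Real.log x with hLx
    have hxθ : 1 ≤ x ^ θ := Real.one_le_rpow hxone hθ.le
    have hY0 : 0 < Y := by linarith
    set t := ⌊TT u lam⌋₊ with ht
    set K := ⌊A' * L⌋₊ with hK
    have hKL : (K : ℝ) ≤ A' * L := Nat.floor_le (by positivity)
    have htK : t ≤ K := Nat.le_floor (k1.trans (mul_le_mul_of_nonneg_right hA'8 (by linarith)))
    -- the size of `2 ^ K`
    have h2K : (2 : ℝ) ^ K ≤ x * x ^ (-δ) := by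
      have e1 : x * x ^ (-δ) = x ^ a := by
        have h1 := Real.rpow_add hx0 1 (-δ)
        rw [Real.rpow_one] at h1
        rw [← h1]
        congr 1
        rw [hδ]; ring
      rw [e1]
      calc (2 : ℝ) ^ K = Real.exp (K * Real.log 2) := by
            rw [← Real.rpow_natCast 2 K, Real.rpow_def_of_pos (by norm_num)]
            congr 1; ring
        _ ≤ Real.exp ((A' * L) * Real.log 2) := Real.exp_le_exp.2 (mul_le_mul_of_nonneg_right hKL hl2.le)
        _ ≤ Real.exp (a * Lx) := by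
            apply Real.exp_le_exp.2
            have h1 : L ≤ v * Lx := by
              have := Real.log_le_log hlam0 hlamx
              rwa [Real.log_rpow hx0] at this
            have h2 : A' * Real.log 2 * L ≤ A' * Real.log 2 * (v * Lx) :=
              mul_le_mul_of_nonneg_left h1 (by positivity)
            rw [hadef]
            linarith
        _ = x ^ a := by rw [Real.rpow_def_of_pos hx0]; congr 1; ring
    have hxδ0 : 0 < x ^ (-δ) := by positivity
    have h2Ke : (2 : ℝ) ^ K ≤ e / 8 * x := by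
      have := mul_le_mul_of_nonneg_left hx4 hx0.le
      linarith
    have hKLx : (K : ℝ) ≤ 3 / 2 * Lx := by
      apply log_bound hx0
      have : e / 8 * x ≤ x := by
        have h1 : e * x ≤ 1 * x := mul_le_mul_of_nonneg_right he1 hx0.le
        linarith
      linarith
    have hLx0 : 0 ≤ Lx := Real.log_nonneg hxone
    set N0 := ⌊e * x⌋₊ with hN0
    have hN0K : K * 2 ^ K ≤ N0 := by
      apply Nat.le_floor
      push_cast
      calc (K : ℝ) * 2 ^ K ≤ (3 / 2 * Lx) * (x * x ^ (-δ)) := mul_le_mul hKLx h2K (by positivity) (by positivity)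
        _ = 3 / 2 * (Lx * x ^ (-δ)) * x := by ring
        _ ≤ e / 2 * x := mul_le_mul_of_nonneg_right hx2 hx0.le
        _ ≤ e * x := mul_le_mul_of_nonneg_right (by linarith) hx0.le
    have htLx : (t : ℝ) ≤ 3 / 2 * Lx := le_trans (by exact_mod_cast htK) hKLx
    have hR : (1 + 1 / (3 * Y)) ^ t ≤ 2 := by
      have h1 : 1 + 1 / (3 * Y) ≤ Real.exp (1 / (3 * Y)) := by
        have := Real.add_one_le_exp (1 / (3 * Y)); linarith
      calc (1 + 1 / (3 * Y)) ^ t ≤ (Real.exp (1 / (3 * Y))) ^ t := pow_le_pow_left₀ (by positivity) h1 t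
        _ = Real.exp (t * (1 / (3 * Y))) := (Real.exp_nat_mul _ _).symm
        _ ≤ Real.exp (1 / 3) := by
            apply Real.exp_le_exp.2
            have h2 : 1 / (3 * Y) ≤ x ^ (-θ) / 3 := by
              rw [Real.rpow_neg hx0.le, ← one_div, div_div, mul_comm (x ^ θ)]
              apply one_div_le_one_div_of_le (by positivity)
              linarith
            calc (t : ℝ) * (1 / (3 * Y)) ≤ (3 / 2 * Lx) * (x ^ (-θ) / 3) :=
                  mul_le_mul htLx h2 (by positivity) (by positivity)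
              _ = 1 / 2 * (Lx * x ^ (-θ)) := by ring
              _ ≤ 1 / 3 := by linarith
        _ ≤ 2 := exp_third
    have hKj : ∀ j : ℕ, (j : ℝ) ≤ A * Real.log lam → j ≤ K := by
      intro j hj
      apply Nat.le_floor
      refine hj.trans ?_
      exact mul_le_mul_of_nonneg_right hA'A (by linarith)
    have hεL : Real.log 2 + (2 + 2 * (nud / mu)) * (η * L * Real.log 3 + Real.log 2) ≤ ε * Real.log lam := by
      rw [← hG0, ← hLdef]
      have h1 : G0 * (η * Real.log 3) * L ≤ ε / 2 * L := mul_le_mul_of_nonneg_right hηε (by linarith)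
      have h2 : Real.log 2 + G0 * Real.log 2 ≤ ε / 2 * L := by
        rw [div_le_iff₀ hε] at k3
        linarith
      linarith
    have hsub := card_le_card (sub_fin (N := ⌊x⌋₊) (N0 := N0) (t := t) (K := K) (lam := lam) (Y := Y) (D := η * L)
      (ε := ε) (A := A) hY0 hlam2 hR (by positivity) hN0K hKj hεL)
    have hTE : (Icc 1 ⌊x⌋₊).filter (ExcT t lam Y) ⊆ (Icc 1 ⌊x⌋₊).filter (Exc lam Y) := by
      intro n hn
      rw [mem_filter] at hn ⊢
      obtain ⟨hn1, k, hk, h⟩ := hn
      exact ⟨hn1, k, h⟩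
    have hcard : (((Icc 1 ⌊x⌋₊).filter (fun n => Exc lam Y n ∧ ¬ TentI ε A lam n)).card : ℝ) ≤
        ((((Icc 1 ⌊x⌋₊).filter (Exc lam Y)).card : ℝ) - (((Icc 1 ⌊x⌋₊).filter (ExcT t lam Y)).card : ℝ)) +
        (((range (N0 + 1)).filter fun n => PP (lam / 2) t n).card : ℝ) +
        (((range (⌊x⌋₊ + 1)).filter fun n => Bad (lam / 2) (η * L) t K n).card : ℝ) := by
      have h1 := hsub.trans ((card_union_le _ _).trans (Nat.add_le_add_right (card_union_le _ _) _))
      have h2 : (((((Icc 1 ⌊x⌋₊).filter (Exc lam Y)) \ ((Icc 1 ⌊x⌋₊).filter (ExcT t lam Y))).card : ℕ) : ℝ) =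
          (((Icc 1 ⌊x⌋₊).filter (Exc lam Y)).card : ℝ) - (((Icc 1 ⌊x⌋₊).filter (ExcT t lam Y)).card : ℝ) := by
        rw [card_sdiff_of_subset hTE, Nat.cast_sub (card_le_card hTE)]
      rw [← h2]
      exact_mod_cast h1
    have hxl : 0 ≤ x / lam := by positivity
    -- the late excursions
    have p1 : (((Icc 1 ⌊x⌋₊).filter (Exc lam Y)).card : ℝ) - (((Icc 1 ⌊x⌋₊).filter (ExcT t lam Y)).card : ℝ) ≤
        (2 + C) * e * (x / lam) := by
      have g1 := ha1 x Y lam hxa hY1 hY2 (((le_max_left _ _).trans (le_max_right _ _)).trans hlam) hlamx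
      have g2 := hb1 x Y lam hxb hY1 hY2 (((le_max_right _ _).trans (le_max_right _ _)).trans hlam) hlamx u
      rw [abs_le] at g1 g2
      have g3 : C * (1 - e) * (x / lam) ≤ C * Phi u * (x / lam) :=
        mul_le_mul_of_nonneg_right (mul_le_mul_of_nonneg_left hu hCpos.le) hxl
      linarith
    -- the small `n`
    have hN0x : (N0 : ℝ) ≤ e * x := Nat.floor_le (by positivity)
    have h1x : 1 ≤ e / 8 * x := by
      have h1 := mul_le_mul_of_nonneg_right hx3 hx0.le
      rw [Real.rpow_neg hx0.le, Real.rpow_one, inv_mul_cancel₀ hx0.ne'] at h1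
      exact h1
    have h2t : (2 : ℝ) ^ t ≤ e / 8 * x := (pow_le_pow_right₀ (by norm_num) htK).trans h2Ke
    have p2 : (((range (N0 + 1)).filter fun n => PP (lam / 2) t n).card : ℝ) ≤ 4 * e * (x / lam) := by
      have g1 := (card_PP_N t (N0 + 1) (lam / 2)).1
      push_cast at g1
      have g2 := s_ge t (lam / 2) (by linarith)
      have g3 : 1 - s t (lam / 2) ≤ 2 / lam := by
        have : 1 / (lam / 2) = 2 / lam := by field_simp
        rw [this] at g2; linarith
      have g4 : 0 ≤ 1 - s t (lam / 2) := by have := s_le_one t (lam / 2); linarith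
      have hex : 0 ≤ e * x := by positivity
      calc _ ≤ ((N0 : ℝ) + 1 + 2 ^ t) * (1 - s t (lam / 2)) := g1
        _ ≤ (2 * (e * x)) * (2 / lam) := mul_le_mul (by linarith) g3 g4 (by positivity)
        _ = _ := by ring
    -- the exceptional words
    have hBpos : 0 < B := by linarith
    have p3 : (((range (⌊x⌋₊ + 1)).filter fun n => Bad (lam / 2) (η * L) t K n).card : ℝ) ≤ e * (x / lam) := by
      have g1 := card_Bad_N (⌊x⌋₊ + 1) htK (D := η * L) (lam := lam / 2) (τ := η / B) (E := 2 * Real.exp (-(c * L)))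
        (by linarith) (by positivity) (by rw [div_le_one hBpos]; linarith) (by positivity) (by
          intro j hj
          apply mul_le_mul_of_nonneg_left _ (by norm_num)
          apply Real.exp_le_exp.2
          have hjL : (j : ℝ) ≤ B * L := by
            have h1 : (j : ℝ) ≤ K := by exact_mod_cast hj
            have h2 : A' * L ≤ B * L := mul_le_mul_of_nonneg_right (by rw [hB]; linarith) (by linarith)
            linarith
          have h3 : 3 / 16 * (η / B) ^ 2 * j ≤ 3 / 16 * (η / B) ^ 2 * (B * L) :=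
            mul_le_mul_of_nonneg_left hjL (by positivity)
          have h4 : 3 / 16 * (η / B) ^ 2 * (B * L) = 3 / 16 * (η ^ 2 / B * L) := by field_simp
          have h5 : η / B * (η * L) = η ^ 2 / B * L := by ring
          have h6 : c * L = 1 / 2 * (η ^ 2 / B * L) := by rw [hc]; field_simp
          have h7 : 0 ≤ η ^ 2 / B * L := by positivity
          rw [h5, h6]
          linarith)
      push_cast at g1
      have hN1 : ((⌊x⌋₊ : ℕ) : ℝ) ≤ x := Nat.floor_le hx0.le
      have hex1 : e / 8 * x ≤ x := by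
        have h1 : e * x ≤ 1 * x := mul_le_mul_of_nonneg_right he1 hx0.le
        linarith
      have g2 : ((⌊x⌋₊ : ℕ) : ℝ) + 1 + 2 ^ K ≤ 3 * x := by linarith
      have g3 : ((t : ℝ) + 1) ≤ B * L := by
        have : 9 * L ≤ B * L := mul_le_mul_of_nonneg_right hB9 (by linarith)
        linarith
      have g4 : ((K : ℝ) + 1) ≤ B * L := by rw [hB]; linarith
      have g5 : ((t : ℝ) + 1) ^ 2 + ((t : ℝ) + 1) * ((K : ℝ) + 1) ≤ 2 * B ^ 2 * L ^ 2 := by
        have a1 : ((t : ℝ) + 1) ^ 2 ≤ (B * L) ^ 2 := pow_le_pow_left₀ (by positivity) g3 2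
        have a2 : ((t : ℝ) + 1) * ((K : ℝ) + 1) ≤ (B * L) * (B * L) := mul_le_mul g3 g4 (by positivity) (by positivity)
        linarith
      calc _ ≤ (((⌊x⌋₊ : ℕ) : ℝ) + 1 + 2 ^ K) * ((((t : ℝ) + 1) ^ 2 + ((t : ℝ) + 1) * ((K : ℝ) + 1)) *
            (2 * Real.exp (-(c * L)) / (lam / 2))) := g1
        _ ≤ (3 * x) * ((2 * B ^ 2 * L ^ 2) * (2 * Real.exp (-(c * L)) / (lam / 2))) := by
            apply mul_le_mul g2 _ (by positivity) (by positivity)
            exact mul_le_mul_of_nonneg_right g5 (by positivity)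
        _ = 24 * B ^ 2 * (L ^ 2 * Real.exp (-(c * L))) * (x / lam) := by field_simp; ring
        _ ≤ e * (x / lam) := mul_le_mul_of_nonneg_right k2 hxl
    have hfin : (2 + C) * e * (x / lam) + 4 * e * (x / lam) + e * (x / lam) ≤ ε * (x / lam) := by
      have : e * (7 + C) * (x / lam) ≤ ε * (x / lam) := mul_le_mul_of_nonneg_right heε hxl
      linarith
    linarith
  obtain ⟨x0, hx0⟩ := eventually_atTop.1 main
  exact ⟨max L0 (max La Lb), x0, fun x Y lam hx h1 h2 h3 h4 => hx0 x hx Y lam h1 h2 h3 h4⟩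

end Pool.Agent.H77.Col
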