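import Pool.Agent.H77.Col.PeakDens
import Pool.Graph.R_seed8.Results.MP_0a5adf_nt.SharpLaw

/-! The law of the size of the maximum excursion from the positions of the maximum. -/

set_option autoImplicit false

namespace Pool.Agent.H77.Col

open Finset Filter Topology
open Pool.Agent.Helper894.Collatz (T od er od_add od_succ period iter_eq)
open Pool.Agent.H499R2.ND
open Pool.Agent.H320R2.PD

/-- the mass of the position `(k, s)` -/
noncomputable def mass (p : ℕ × ℕ) : ℝ := varpi * (rising p.1 p.2 / 2 ^ p.1)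

theorem mass_nonneg (p : ℕ × ℕ) : 0 ≤ mass p := by
  unfold mass; have := varpi_pos; positivity

theorem hasSum_tri {f : ℕ → ℕ → ℝ} (h0 : ∀ k s, 0 ≤ f k s) (h1 : ∀ k s, k < s → f k s = 0) {S : ℝ}
    (h : HasSum (fun k => ∑ s ∈ range (k + 1), f k s) S) : HasSum (fun p : ℕ × ℕ => f p.1 p.2) S := by
  have h2 : ∀ k, HasSum (fun s => f k s) (∑ s ∈ range (k + 1), f k s) := by
    intro k
    apply hasSum_sum_of_ne_finset_zero
    intro s hs
    rw [mem_range] at hs
    exact h1 k s (by omega)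
  have h3 : Summable (fun p : ℕ × ℕ => f p.1 p.2) := by
    rw [summable_prod_of_nonneg (fun p => h0 p.1 p.2)]
    refine ⟨fun k => (h2 k).summable, ?_⟩
    refine h.summable.congr fun k => ?_
    exact (h2 k).tsum_eq.symm
  have h4 : ∑' p : ℕ × ℕ, f p.1 p.2 = S := by
    rw [h3.tsum_prod, ← h.tsum_eq]
    exact tsum_congr fun k => (h2 k).tsum_eq
  rw [← h4]
  exact h3.hasSum

theorem rising_gt (k s : ℕ) (h : k < s) : rising k s = 0 := by rw [rising_eq]; exact wA_gt _ k s h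

theorem mass_hasSum : HasSum mass 1 := by
  have h := rs_sum
  have h1 : HasSum (fun k => ∑ s ∈ range (k + 1), varpi * ((rising k s : ℝ) / 2 ^ k)) 1 := by
    have h2 := h.1.hasSum.mul_left varpi
    rw [h.2, mul_inv_cancel₀ varpi_pos.ne'] at h2
    refine h2.congr_fun ?_ |> fun h => h
    intro k
    simp only [rs, Real.rpow_zero, mul_one, mul_sum]
  exact hasSum_tri (f := fun k s => varpi * ((rising k s : ℝ) / 2 ^ k))
    (fun k s => by have := varpi_pos; positivity) (fun k s hs => by rw [rising_gt k s hs]; simp) h1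

theorem peak_unique {p p' : ℕ × ℕ} {n : ℕ} (h : PeakAt p.1 p.2 n) (h' : PeakAt p'.1 p'.2 n) : p = p' := by
  have h1 : p.1 = p'.1 := by
    rcases lt_trichotomy p.1 p'.1 with h2 | h2 | h2
    · have := h'.2.1 _ h2
      have := h.2.2 p'.1
      omega
    · exact h2
    · have := h.2.1 _ h2
      have := h'.2.2 p.1
      omega
  have h2 : p.2 = p'.2 := by rw [← h.1, ← h'.1, h1]
  exact Prod.ext h1 h2

theorem cnt_split (P Q : ℕ → Prop) (N : ℕ) : cnt P N = cnt (fun n => P n ∧ Q n) N + cnt (fun n => P n ∧ ¬ Q n) N := by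
  classical
  rw [cnt_eq, cnt_eq, cnt_eq]
  have : ((Icc 1 N).filter P) = ((Icc 1 N).filter (fun n => P n ∧ Q n)) ∪ ((Icc 1 N).filter (fun n => P n ∧ ¬ Q n)) := by
    ext n
    rw [mem_union, mem_filter, mem_filter, mem_filter]
    tauto
  rw [this, card_union_of_disjoint]
  · push_cast; rfl
  · rw [disjoint_filter]
    intro n _ h1 h2
    exact h2.2 h1.2

theorem cnt_sum_le {F : Finset (ℕ × ℕ)} (L : ℕ → Prop) (N : ℕ) :
    ∑ p ∈ F, cnt (fun n => (Bdd n ∧ PeakAt p.1 p.2 n) ∧ L n) N ≤ cnt L N := by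
  classical
  have h1 : ∀ p ∈ F, cnt (fun n => (Bdd n ∧ PeakAt p.1 p.2 n) ∧ L n) N =
      (((Icc 1 N).filter (fun n => (Bdd n ∧ PeakAt p.1 p.2 n) ∧ L n)).card : ℝ) := fun p _ => cnt_eq _ _
  rw [sum_congr rfl h1, cnt_eq, ← Nat.cast_sum, ← card_biUnion]
  · apply Nat.cast_le.2
    apply card_le_card
    intro n hn
    rw [mem_biUnion] at hn
    obtain ⟨p, _, hn⟩ := hn
    rw [mem_filter] at hn ⊢
    exact ⟨hn.1, hn.2.2⟩
  · intro p _ p' _ hne
    rw [Function.onFun, Finset.disjoint_left]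
    intro n hn hn'
    rw [mem_filter] at hn hn'
    exact hne (peak_unique hn.2.1.2 hn'.2.1.2)

theorem lower {β : ℝ} (hβ : Dn Bdd β) {L : ℕ → Prop} (F : Finset (ℕ × ℕ))
    (hF : ∀ p ∈ F, Dn (fun n => (Bdd n ∧ PeakAt p.1 p.2 n) ∧ ¬ L n) 0) {ε : ℝ} (hε : 0 < ε) :
    ∀ᶠ N : ℕ in atTop, (β * ∑ p ∈ F, mass p - ε) * N ≤ cnt L N := by
  have h1 : Tendsto (fun N : ℕ => ∑ p ∈ F, (cnt (fun n => Bdd n ∧ PeakAt p.1 p.2 n) N / N -
      cnt (fun n => (Bdd n ∧ PeakAt p.1 p.2 n) ∧ ¬ L n) N / N)) atTop (𝓝 (∑ p ∈ F, (β * mass p - 0))) := by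
    apply tendsto_finsetSum
    intro p hp
    exact (peak_density hβ p.1 p.2).sub (hF p hp)
  have h2 : ∑ p ∈ F, (β * mass p - 0) = β * ∑ p ∈ F, mass p := by
    rw [mul_sum]; apply sum_congr rfl; intro p _; ring
  rw [h2] at h1
  have h3 := h1.eventually (lt_mem_nhds (show β * ∑ p ∈ F, mass p - ε < β * ∑ p ∈ F, mass p by linarith))
  filter_upwards [h3, eventually_gt_atTop 0] with N h4 hN
  have hNR : (0 : ℝ) < N := by exact_mod_cast hN
  have h5 := cnt_sum_le (F := F) L N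
  have h6 : ∑ p ∈ F, (cnt (fun n => Bdd n ∧ PeakAt p.1 p.2 n) N / N -
      cnt (fun n => (Bdd n ∧ PeakAt p.1 p.2 n) ∧ ¬ L n) N / N) =
      (∑ p ∈ F, cnt (fun n => (Bdd n ∧ PeakAt p.1 p.2 n) ∧ L n) N) / N := by
    rw [sum_div]
    apply sum_congr rfl
    intro p _
    rw [cnt_split (fun n => Bdd n ∧ PeakAt p.1 p.2 n) L N]
    ring
  rw [h6, lt_div_iff₀ hNR] at h4
  exact h4.le.trans h5

/-- a set which contains, up to density zero, or avoids each of the position classes has the density of the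
sum of the masses -/
theorem tight {β : ℝ} (hβ : Dn Bdd β) (hβ0 : 0 ≤ β) {L : ℕ → Prop} {good : ℕ × ℕ → Prop} [DecidablePred good]
    (h1 : ∀ p, good p → Dn (fun n => (Bdd n ∧ PeakAt p.1 p.2 n) ∧ ¬ L n) 0)
    (h2 : ∀ p, ¬ good p → Dn (fun n => (Bdd n ∧ PeakAt p.1 p.2 n) ∧ L n) 0) :
    Dn (fun n => Bdd n ∧ L n) (β * ∑' p, if good p then mass p else 0) := by
  classical
  have hs : Summable (fun p => if good p then mass p else 0) := by
    refine Summable.of_nonneg_of_le (fun p => ?_) (fun p => ?_) mass_hasSum.summable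
    · split_ifs
      · exact mass_nonneg p
      · exact le_rfl
    · split_ifs
      · exact le_rfl
      · exact mass_nonneg p
  have hs' : Summable (fun p => if good p then 0 else mass p) := by
    refine Summable.of_nonneg_of_le (fun p => ?_) (fun p => ?_) mass_hasSum.summable
    · split_ifs
      · exact le_rfl
      · exact mass_nonneg p
    · split_ifs
      · exact mass_nonneg p
      · exact le_rfl
  have hsum : (∑' p, if good p then mass p else 0) + (∑' p, if good p then 0 else mass p) = 1 := by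
    rw [← hs.tsum_add hs', ← mass_hasSum.tsum_eq]
    apply tsum_congr
    intro p
    split_ifs <;> ring
  set S := ∑' p, if good p then mass p else 0 with hS
  set S' := ∑' p, if good p then 0 else mass p with hS'
  unfold Dn
  rw [Metric.tendsto_atTop]
  intro ε hε
  obtain ⟨F, hF⟩ := (Metric.tendsto_atTop.1 hs.hasSum (ε / (4 * (β + 1))) (by positivity))
  obtain ⟨F', hF'⟩ := (Metric.tendsto_atTop.1 hs'.hasSum (ε / (4 * (β + 1))) (by positivity))
  have k1 := hF F le_rfl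
  have k2 := hF' F' le_rfl
  rw [Real.dist_eq, abs_lt] at k1 k2
  have e1 : ∑ p ∈ F, (if good p then mass p else 0) = ∑ p ∈ F.filter good, mass p := by rw [sum_filter]
  have e2 : ∑ p ∈ F', (if good p then 0 else mass p) = ∑ p ∈ F'.filter (fun p => ¬ good p), mass p := by
    rw [sum_filter]
    apply sum_congr rfl
    intro p _
    split_ifs <;> simp_all
  rw [e1] at k1
  rw [e2] at k2
  have l1 := lower hβ (L := fun n => Bdd n ∧ L n) (F.filter good) (fun p hp => by
    refine zd_mono (h1 p (mem_filter.1 hp).2) fun n _ hn => ⟨hn.1, fun h => hn.2 ⟨hn.1.1, h⟩⟩)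
    (ε := ε / 4) (by positivity)
  have l2 := lower hβ (L := fun n => Bdd n ∧ ¬ L n) (F'.filter fun p => ¬ good p) (fun p hp => by
    refine zd_mono (h2 p (mem_filter.1 hp).2) fun n _ hn => ⟨hn.1, ?_⟩
    by_contra h
    exact hn.2 ⟨hn.1.1, h⟩) (ε := ε / 4) (by positivity)
  have l3 := (Metric.tendsto_atTop.1 hβ (ε / 4) (by positivity))
  obtain ⟨N3, l3⟩ := l3
  obtain ⟨N1, l1⟩ := eventually_atTop.1 l1
  obtain ⟨N2, l2⟩ := eventually_atTop.1 l2
  refine ⟨max (max N1 N2) (max N3 1), fun N hN => ?_⟩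
  have g1 := l1 N ((le_max_left _ _).trans ((le_max_left _ _).trans hN))
  have g2 := l2 N ((le_max_right _ _).trans ((le_max_left _ _).trans hN))
  have g3 := l3 N ((le_max_left _ _).trans ((le_max_right _ _).trans hN))
  have g4 : 1 ≤ N := (le_max_right _ _).trans ((le_max_right _ _).trans hN)
  have hNR : (0 : ℝ) < N := by exact_mod_cast g4
  have g5 := cnt_split Bdd L N
  rw [Real.dist_eq, abs_lt] at g3 ⊢
  have g6 : β * (ε / (4 * (β + 1))) ≤ ε / 4 := by
    have e : ε / 4 - β * (ε / (4 * (β + 1))) = ε / (4 * (β + 1)) := by field_simp; ring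
    have : 0 < ε / (4 * (β + 1)) := by positivity
    linarith
  have g7 : β * S - ε / 4 ≤ β * ∑ p ∈ F.filter good, mass p := by
    have : β * (S - ε / (4 * (β + 1))) ≤ β * ∑ p ∈ F.filter good, mass p :=
      mul_le_mul_of_nonneg_left (by linarith) hβ0
    linarith
  have g8 : β * S' - ε / 4 ≤ β * ∑ p ∈ F'.filter (fun p => ¬ good p), mass p := by
    have : β * (S' - ε / (4 * (β + 1))) ≤ β * ∑ p ∈ F'.filter (fun p => ¬ good p), mass p :=
      mul_le_mul_of_nonneg_left (by linarith) hβ0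
    linarith
  have hSS : β * S + β * S' = β := by rw [← mul_add, hsum, mul_one]
  have g9 : cnt Bdd N / N < β + ε / 4 := by linarith
  rw [div_lt_iff₀ hNR] at g9
  have m1 : (β * S - ε / 4 - ε / 4) * N ≤ cnt (fun n => Bdd n ∧ L n) N :=
    (mul_le_mul_of_nonneg_right (by linarith) hNR.le).trans g1
  have m2 : (β * S' - ε / 4 - ε / 4) * N ≤ cnt (fun n => Bdd n ∧ ¬ L n) N :=
    (mul_le_mul_of_nonneg_right (by linarith) hNR.le).trans g2
  constructor
  · rw [lt_sub_iff_add_lt, lt_div_iff₀ hNR]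
    have : (-ε + β * S) * N < (β * S - ε / 4 - ε / 4) * N := mul_lt_mul_of_pos_right (by linarith) hNR
    linarith
  · rw [sub_lt_iff_lt_add, div_lt_iff₀ hNR]
    have e : cnt (fun n => Bdd n ∧ L n) N = cnt Bdd N - cnt (fun n => Bdd n ∧ ¬ L n) N := by linarith
    rw [e]
    have : (β + ε / 4) * N - (β * S' - ε / 4 - ε / 4) * N < (ε + β * S) * N := by
      rw [← sub_mul]
      exact mul_lt_mul_of_pos_right (by linarith) hNR
    linarith

/-- the limit law of `t(n) / n` -/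
noncomputable def tail (lam : ℝ) : ℝ := ∑' p : ℕ × ℕ, if lam * 2 ^ p.1 ≤ 3 ^ p.2 then mass p else 0

theorem size_density {β : ℝ} (hβ : Dn Bdd β) (hβ0 : 0 ≤ β) {lam : ℝ} (hl : 1 < lam) :
    Dn (fun n => Bdd n ∧ ∃ k, lam * n < (T^[k] n : ℕ)) (β * tail lam) := by
  classical
  apply tight hβ hβ0
  · intro p hp
    have h0 : Dn (fun _ : ℕ => False) 0 := by
      rw [zd_iff]
      intro ε hε
      filter_upwards with N
      have : Pool.Agent.H499R2.ND.cnt (fun _ : ℕ => False) N = 0 := by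
        unfold Pool.Agent.H499R2.ND.cnt; simp
      rw [this]; positivity
    refine zd_mono h0 fun n hn1 hn => ?_
    obtain ⟨⟨_, hP⟩, hn2⟩ := hn
    apply hn2
    refine ⟨p.1, ?_⟩
    have h1 := iter_eq p.1 n
    rw [hP.1] at h1
    have h2 : (2 : ℝ) ^ p.1 * (T^[p.1] n : ℕ) = 3 ^ p.2 * n + er p.1 n := by exact_mod_cast h1
    have hs : 1 ≤ p.2 := by
      by_contra h
      have h3 : p.2 = 0 := by omega
      rw [h3, pow_zero] at hp
      have : (1 : ℝ) ≤ 2 ^ p.1 := one_le_pow₀ (by norm_num)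
      nlinarith
    have h3 : 1 ≤ er p.1 n := er_pos (by rw [hP.1]; exact hs)
    have h4 : (1 : ℝ) ≤ er p.1 n := by exact_mod_cast h3
    have h5 : lam * 2 ^ p.1 * n ≤ 3 ^ p.2 * n := mul_le_mul_of_nonneg_right hp (Nat.cast_nonneg n)
    have h6 : (2 : ℝ) ^ p.1 * (lam * n) < 2 ^ p.1 * (T^[p.1] n : ℕ) := by rw [h2]; nlinarith
    exact lt_of_mul_lt_mul_left h6 (by positivity)
  · intro p hp
    push Not at hp
    obtain ⟨m, hm⟩ := exists_nat_ge ((3 : ℝ) ^ p.1 / (lam * 2 ^ p.1 - 3 ^ p.2))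
    refine zd_mono (zd_bdd m) fun n hn1 hn => ?_
    obtain ⟨⟨_, hP⟩, k, hk⟩ := hn
    by_contra hcon
    push Not at hcon
    have hpos : 0 < lam * 2 ^ p.1 - 3 ^ p.2 := by linarith
    rw [div_le_iff₀ hpos] at hm
    have h1 := iter_eq p.1 n
    rw [hP.1] at h1
    have h2 : (2 : ℝ) ^ p.1 * (T^[p.1] n : ℕ) = 3 ^ p.2 * n + er p.1 n := by exact_mod_cast h1
    have h3 : (er p.1 n : ℝ) ≤ 3 ^ p.1 := by
      have h9 : er p.1 n + 2 ^ p.1 ≤ 3 ^ p.1 := er_le p.1 n
      have h4 : er p.1 n ≤ 3 ^ p.1 := (Nat.le_add_right _ _).trans h9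
      exact_mod_cast h4
    have h4 : ((T^[k] n : ℕ) : ℝ) ≤ (T^[p.1] n : ℕ) := by exact_mod_cast hP.2.2 k
    have h5 : (2 : ℝ) ^ p.1 * (lam * n) < 2 ^ p.1 * (T^[p.1] n : ℕ) :=
      mul_lt_mul_of_pos_left (lt_of_lt_of_le hk h4) (by positivity)
    have h6 : (m : ℝ) * (lam * 2 ^ p.1 - 3 ^ p.2) < n * (lam * 2 ^ p.1 - 3 ^ p.2) :=
      mul_lt_mul_of_pos_right hcon hpos
    nlinarith

open Pool.Agent.W36.SL in
/-- the link with the limit of the proportions of the safe words -/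
theorem tail_eq {lam : ℝ} (hl : 1 < lam) : tail lam = Pool.Agent.W36.SL.p lam := by
  obtain ⟨β, h0, h1, h2, h3⟩ := Pool.Agent.H499R2.ND.Bdd_density
  obtain ⟨q', e1, e2, e3, e4⟩ := Pool.Agent.H499R2.ND.exc_law h3 hl.le
  have hq : q' = Pool.Agent.W36.SL.q lam := by
    refine tendsto_nhds_unique e1 ((Pool.Agent.W36.SL.s_tendsto lam).congr fun K => ?_)
    rw [Pool.Agent.Results.MP_0a5adf_nt.SharpLaw.s_eq hl K]
    exact (Pool.Agent.H499R2.ND.rK_words K lam).symm
  have h4 := size_density h3 h0.le hl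
  have h5 : Dn (fun n => Bdd n ∧ ∃ k, lam * n < (T^[k] n : ℕ)) (β - β * q') := by
    have h6 := h3.sub e4
    refine h6.congr fun N => ?_
    rw [← sub_div]
    congr 1
    rw [cnt_split Bdd (fun n => ∀ k, ((Tn^[k] n : ℕ) : ℝ) ≤ lam * n) N]
    have h7 : cnt (fun n => Bdd n ∧ ∀ k, ((Tn^[k] n : ℕ) : ℝ) ≤ lam * n) N =
        cnt (fun n => ∀ k, ((Tn^[k] n : ℕ) : ℝ) ≤ lam * n) N := by
      congr 1
      funext n
      apply propext
      exact ⟨fun h => h.2, fun h => ⟨⟨⌊lam * n⌋₊, fun k => Nat.le_floor (h k)⟩, h⟩⟩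
    rw [h7]
    have h8 : cnt (fun n => Bdd n ∧ ¬ ∀ k, ((Tn^[k] n : ℕ) : ℝ) ≤ lam * n) N =
        cnt (fun n => Bdd n ∧ ∃ k, lam * n < (T^[k] n : ℕ)) N := by
      congr 1
      funext n
      apply propext
      rw [Tn_eq]
      push Not
      rfl
    rw [h8]
    ring
  have h6 := tendsto_nhds_unique h4 h5
  unfold Pool.Agent.W36.SL.p
  rw [← hq]
  have h7 : β * (tail lam - (1 - q')) = 0 := by linarith
  rcases mul_eq_zero.1 h7 with h8 | h8
  · exact absurd h8 h0.ne'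
  · linarith

theorem tail_tendsto : Tendsto (fun lam => lam * tail lam) atTop (𝓝 Pool.Agent.W36.SL.C) := by
  refine Pool.Agent.W36.SL.p_tendsto.congr' ?_
  filter_upwards [eventually_gt_atTop 1] with lam hl
  rw [tail_eq hl]

end Pool.Agent.H77.Col
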