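import Mathlib

/-! The combinatorial Wiener-Hopf factorisation (Spitzer-Baxter) for words whose prefixes stay in a cone. -/

set_option autoImplicit false

namespace Pool.Agent.H77.Col

open Finset

/-- the number of 0-1 words of length `n` with `s` ones, all of whose nonempty prefixes satisfy `A` -/
def wA (A : ℕ → ℕ → Prop) [∀ n s, Decidable (A n s)] : ℕ → ℕ → ℕ
  | 0, s => if s = 0 then 1 else 0
  | n + 1, s => if A (n + 1) s then wA A n s + (if s = 0 then 0 else wA A n (s - 1)) else 0

section
variable (A : ℕ → ℕ → Prop) [∀ n s, Decidable (A n s)]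

theorem wA_zero (s : ℕ) : wA A 0 s = if s = 0 then 1 else 0 := rfl

theorem wA_succ (n s : ℕ) : wA A (n + 1) s =
    if A (n + 1) s then wA A n s + (if s = 0 then 0 else wA A n (s - 1)) else 0 := rfl

theorem wA_gt : ∀ n s, n < s → wA A n s = 0 := by
  intro n
  induction n with
  | zero => intro s hs; rw [wA_zero, if_neg (by omega)]
  | succ n ih =>
    intro s hs
    have h1 := ih s (by omega)
    have h2 := ih (s - 1) (by omega)
    rw [wA_succ, h1, h2]
    simp

theorem wA_le : ∀ n s, wA A n s ≤ n.choose s := by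
  intro n
  induction n with
  | zero => intro s; rw [wA_zero]; split_ifs with h <;> simp [h]
  | succ n ih =>
    intro s
    rw [wA_succ]
    rcases s with _ | s
    · have := ih 0
      simp at this ⊢
      split_ifs <;> omega
    · rw [Nat.choose_succ_succ']
      have h1 := ih (s + 1)
      have h2 := ih s
      simp only [Nat.add_sub_cancel, Nat.succ_ne_zero, if_false]
      split_ifs <;> omega

/-- the words which leave at their last letter -/
def hA : ℕ → ℕ → ℕ
  | 0, _ => 0
  | n + 1, s => if A (n + 1) s then 0 else wA A n s + (if s = 0 then 0 else wA A n (s - 1))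

theorem hA_succ (n s : ℕ) : hA A (n + 1) s =
    if A (n + 1) s then 0 else wA A n s + (if s = 0 then 0 else wA A n (s - 1)) := rfl

open Polynomial in
/-- the polynomial of a row -/
noncomputable def row (f : ℕ → ℤ) (n : ℕ) : Polynomial ℤ := ∑ s ∈ range (n + 1), monomial s (f s)

open Polynomial in
theorem coeff_row (f : ℕ → ℤ) (n s : ℕ) (h : n < s → f s = 0) : (row f n).coeff s = f s := by
  unfold row
  rw [finsetSum_coeff]
  simp only [coeff_monomial]
  rw [Finset.sum_ite_eq' (range (n + 1)) s f]
  split_ifs with h1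
  · rfl
  · rw [mem_range] at h1
    exact (h (by omega)).symm

noncomputable def FA : PowerSeries (Polynomial ℤ) := PowerSeries.mk fun n => row (fun s => (wA A n s : ℤ)) n
noncomputable def HA : PowerSeries (Polynomial ℤ) := PowerSeries.mk fun n => row (fun s => (hA A n s : ℤ)) n
noncomputable def aA : PowerSeries (Polynomial ℤ) := PowerSeries.mk fun n =>
  row (fun s => if 1 ≤ n ∧ A n s then (n.choose s : ℤ) else 0) n
noncomputable def bA : PowerSeries (Polynomial ℤ) := PowerSeries.mk fun n =>
  row (fun s => if 1 ≤ n ∧ ¬ A n s then (n.choose s : ℤ) else 0) n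

open Polynomial in
noncomputable def Xh : PowerSeries (Polynomial ℤ) := PowerSeries.X * PowerSeries.C (1 + X : Polynomial ℤ)

theorem hA_gt (n s : ℕ) (h : n < s) : hA A n s = 0 := by
  rcases n with _ | n
  · rfl
  · have h1 := wA_gt A n s (by omega)
    have h2 := wA_gt A n (s - 1) (by omega)
    rw [hA_succ, h1, h2]
    simp

theorem coeff_FA (n s : ℕ) : (PowerSeries.coeff n (FA A)).coeff s = wA A n s := by
  unfold FA
  rw [PowerSeries.coeff_mk, coeff_row]
  intro h
  rw [wA_gt A n s h]; rfl

theorem coeff_HA (n s : ℕ) : (PowerSeries.coeff n (HA A)).coeff s = hA A n s := by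
  unfold HA
  rw [PowerSeries.coeff_mk, coeff_row]
  intro h
  rw [hA_gt A n s h]; rfl

theorem coeff_aA (n s : ℕ) : (PowerSeries.coeff n (aA A)).coeff s =
    if 1 ≤ n ∧ A n s then (n.choose s : ℤ) else 0 := by
  unfold aA
  rw [PowerSeries.coeff_mk, coeff_row]
  intro h
  rw [Nat.choose_eq_zero_of_lt h]; simp

theorem coeff_bA (n s : ℕ) : (PowerSeries.coeff n (bA A)).coeff s =
    if 1 ≤ n ∧ ¬ A n s then (n.choose s : ℤ) else 0 := by
  unfold bA
  rw [PowerSeries.coeff_mk, coeff_row]
  intro h
  rw [Nat.choose_eq_zero_of_lt h]; simp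

open Polynomial in
theorem coeff_mul_Xh_zero (f : PowerSeries (Polynomial ℤ)) (s : ℕ) :
    (PowerSeries.coeff 0 (f * Xh)).coeff s = 0 := by
  unfold Xh
  rw [mul_left_comm, PowerSeries.coeff_zero_X_mul]
  simp

open Polynomial in
theorem coeff_mul_Xh_succ (f : PowerSeries (Polynomial ℤ)) (n s : ℕ) :
    (PowerSeries.coeff (n + 1) (f * Xh)).coeff s = (PowerSeries.coeff n f).coeff s +
      (if s = 0 then 0 else (PowerSeries.coeff n f).coeff (s - 1)) := by
  unfold Xh
  rw [mul_left_comm, PowerSeries.coeff_succ_X_mul, PowerSeries.coeff_mul_C, mul_add, mul_one]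
  rcases s with _ | s
  · simp
  · simp

open Polynomial in
theorem ext2 {f g : PowerSeries (Polynomial ℤ)}
    (h : ∀ n s, (PowerSeries.coeff n f).coeff s = (PowerSeries.coeff n g).coeff s) : f = g := by
  ext n s
  exact h n s

theorem F_eq : FA A * (1 - Xh) = 1 - HA A := by
  apply ext2
  intro n s
  rw [mul_sub, mul_one, map_sub, map_sub, Polynomial.coeff_sub, Polynomial.coeff_sub, coeff_FA, coeff_HA]
  rcases n with _ | n
  · rw [coeff_mul_Xh_zero, wA_zero]
    simp only [hA, PowerSeries.coeff_one]
    by_cases h : s = 0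
    · simp [h]
    · simp [h, Polynomial.coeff_one]
  · rw [coeff_mul_Xh_succ, coeff_FA, coeff_FA, wA_succ]
    simp only [hA, PowerSeries.coeff_one]
    by_cases h : A (n + 1) s
    · by_cases h0 : s = 0
      · subst h0; simp [h]
      · simp [h, h0]
    · by_cases h0 : s = 0
      · subst h0; simp [h]
      · simp [h, h0]

theorem ab_eq : (aA A + bA A) * (1 - Xh) = Xh := by
  have h1 : ∀ n s, (PowerSeries.coeff n (aA A + bA A)).coeff s = if 1 ≤ n then (n.choose s : ℤ) else 0 := by
    intro n s
    rw [map_add, Polynomial.coeff_add, coeff_aA, coeff_bA]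
    by_cases hn : 1 ≤ n <;> by_cases h : A n s <;> simp [hn, h]
  apply ext2
  intro n s
  rw [mul_sub, mul_one, map_sub, Polynomial.coeff_sub, h1]
  rcases n with _ | n
  · rw [coeff_mul_Xh_zero]
    have := coeff_mul_Xh_zero 1 s
    rw [one_mul] at this
    rw [this]; simp
  · rw [coeff_mul_Xh_succ, h1, h1]
    have h2 := coeff_mul_Xh_succ 1 n s
    rw [one_mul] at h2
    rw [h2]
    rcases s with _ | s
    · rcases n with _ | n
      · simp
      · simp [PowerSeries.coeff_one]
    · rcases n with _ | n
      · rcases s with _ | s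
        · simp [PowerSeries.coeff_one, Polynomial.coeff_one]
        · simp [PowerSeries.coeff_one, Polynomial.coeff_one]

      · rw [Nat.choose_succ_succ' (n + 1) s]
        simp [PowerSeries.coeff_one]
        ring

/-- the Euler operator -/
noncomputable def Eu (f : PowerSeries (Polynomial ℤ)) : PowerSeries (Polynomial ℤ) :=
  PowerSeries.mk fun n => (n : Polynomial ℤ) * PowerSeries.coeff n f

theorem coeff_Eu (f : PowerSeries (Polynomial ℤ)) (n : ℕ) :
    PowerSeries.coeff n (Eu f) = n * PowerSeries.coeff n f := by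
  unfold Eu
  rw [PowerSeries.coeff_mk]

theorem Eu_mul (f g : PowerSeries (Polynomial ℤ)) : Eu (f * g) = Eu f * g + f * Eu g := by
  apply PowerSeries.ext
  intro n
  rw [coeff_Eu, map_add, PowerSeries.coeff_mul, PowerSeries.coeff_mul, PowerSeries.coeff_mul,
    ← sum_add_distrib, mul_sum]
  apply sum_congr rfl
  rintro ⟨i, j⟩ hij
  rw [HasAntidiagonal.mem_antidiagonal] at hij
  simp only at hij ⊢
  rw [coeff_Eu, coeff_Eu, ← hij]
  push_cast
  ring

theorem Eu_sub (f g : PowerSeries (Polynomial ℤ)) : Eu (f - g) = Eu f - Eu g := by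
  apply PowerSeries.ext
  intro n
  rw [coeff_Eu, map_sub, map_sub, coeff_Eu, coeff_Eu]; ring

theorem Eu_one : Eu 1 = 0 := by
  apply PowerSeries.ext
  intro n
  rw [coeff_Eu, PowerSeries.coeff_one]
  rcases n with _ | n <;> simp

theorem Eu_Xh : Eu Xh = Xh := by
  apply PowerSeries.ext
  intro n
  rw [coeff_Eu]
  unfold Xh
  rcases n with _ | _ | n
  · simp
  · simp
  · rw [PowerSeries.coeff_succ_X_mul]
    simp

/-- SPITZER-BAXTER, formal version -/
theorem spitzer_formal (hA1 : ∀ n m s t, 1 ≤ n → 1 ≤ m → A n s → A m t → A (n + m) (s + t))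
    (hA2 : ∀ n m s t, 1 ≤ n → 1 ≤ m → ¬ A n s → ¬ A m t → ¬ A (n + m) (s + t)) :
    Eu (FA A) = aA A * FA A := by
  have key : (Eu (FA A) - aA A * FA A) * (1 - Xh) = -(Eu (HA A) - bA A * (1 - HA A)) := by
    have h1 := F_eq A
    have h2 : Eu (FA A * (1 - Xh)) = Eu (1 - HA A) := by rw [h1]
    rw [Eu_mul, Eu_sub, Eu_sub, Eu_one, Eu_Xh] at h2
    have h3 := ab_eq A
    linear_combination h2 - FA A * h3 + bA A * h1
  have hsupp1 : ∀ n s, ¬ A n s → (PowerSeries.coeff n (Eu (FA A) - aA A * FA A)).coeff s = 0 := by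
    intro n s hns
    rw [map_sub, Polynomial.coeff_sub, coeff_Eu]
    have e1 : ((n : Polynomial ℤ) * PowerSeries.coeff n (FA A)).coeff s = 0 := by
      rw [Polynomial.coeff_natCast_mul, coeff_FA]
      rcases n with _ | n
      · simp
      · rw [wA_succ, if_neg hns]; simp
    have e2 : (PowerSeries.coeff n (aA A * FA A)).coeff s = 0 := by
      rw [PowerSeries.coeff_mul, Polynomial.finsetSum_coeff]
      apply sum_eq_zero
      rintro ⟨i, j⟩ hij
      rw [HasAntidiagonal.mem_antidiagonal] at hij
      rw [Polynomial.coeff_mul]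
      apply sum_eq_zero
      rintro ⟨p, q⟩ hpq
      rw [HasAntidiagonal.mem_antidiagonal] at hpq
      simp only at hij hpq ⊢
      rw [coeff_aA, coeff_FA]
      by_cases h1 : 1 ≤ i ∧ A i p
      · rw [if_pos h1]
        rcases Nat.eq_zero_or_pos j with h2 | h2
        · subst h2
          rw [wA_zero]
          by_cases h3 : q = 0
          · exfalso
            apply hns
            have : n = i := by omega
            have h4 : s = p := by omega
            rw [this, h4]; exact h1.2
          · simp [h3]
        · obtain ⟨j, rfl⟩ : ∃ j', j = j' + 1 := ⟨j - 1, by omega⟩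
          rw [wA_succ]
          by_cases h3 : A (j + 1) q
          · exfalso
            apply hns
            rw [← hij, ← hpq]
            exact hA1 _ _ _ _ h1.1 h2 h1.2 h3
          · simp [h3]
      · rw [if_neg h1]; simp
    rw [e1, e2, sub_zero]
  have hsupp2 : ∀ n s, (1 ≤ n → A n s) → (PowerSeries.coeff n (Eu (HA A) - bA A * (1 - HA A))).coeff s = 0 := by
    intro n s hns
    rw [map_sub, Polynomial.coeff_sub, coeff_Eu]
    have e1 : ((n : Polynomial ℤ) * PowerSeries.coeff n (HA A)).coeff s = 0 := by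
      rw [Polynomial.coeff_natCast_mul, coeff_HA]
      rcases n with _ | n
      · simp
      · rw [hA_succ, if_pos (hns (by omega))]; simp
    have e2 : (PowerSeries.coeff n (bA A * (1 - HA A))).coeff s = 0 := by
      rw [PowerSeries.coeff_mul, Polynomial.finsetSum_coeff]
      apply sum_eq_zero
      rintro ⟨i, j⟩ hij
      rw [HasAntidiagonal.mem_antidiagonal] at hij
      rw [Polynomial.coeff_mul]
      apply sum_eq_zero
      rintro ⟨p, q⟩ hpq
      rw [HasAntidiagonal.mem_antidiagonal] at hpq
      simp only at hij hpq ⊢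
      rw [coeff_bA, map_sub, Polynomial.coeff_sub, coeff_HA]
      by_cases h1 : 1 ≤ i ∧ ¬ A i p
      · rw [if_pos h1]
        have h1n : A n s := hns (by omega)
        rcases Nat.eq_zero_or_pos j with h2 | h2
        · subst h2
          by_cases h3 : q = 0
          · exfalso
            apply h1.2
            have : i = n := by omega
            have h4 : p = s := by omega
            rw [this, h4]; exact h1n
          · simp [h3, hA, Polynomial.coeff_one]
        · obtain ⟨j, rfl⟩ : ∃ j', j = j' + 1 := ⟨j - 1, by omega⟩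
          have h4 : (PowerSeries.coeff (j + 1) (1 : PowerSeries (Polynomial ℤ))).coeff q = 0 := by
            simp [PowerSeries.coeff_one]
          rw [h4, hA_succ]
          by_cases h3 : A (j + 1) q
          · simp [h3]
          · exfalso
            rw [← hij, ← hpq] at h1n
            exact hA2 _ _ _ _ h1.1 h2 h1.2 h3 h1n
      · rw [if_neg h1]; simp
    rw [e1, e2, sub_zero]
  have hzero : ∀ n, ∀ s, (PowerSeries.coeff n (Eu (FA A) - aA A * FA A)).coeff s = 0 := by
    intro n
    induction n with
    | zero =>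
      intro s
      have h1 := congrArg (fun f => (PowerSeries.coeff 0 f).coeff s) key
      simp only [mul_sub, mul_one] at h1
      rw [map_sub, Polynomial.coeff_sub, coeff_mul_Xh_zero, sub_zero, map_neg, Polynomial.coeff_neg] at h1
      have h2 := hsupp2 0 s (fun h => by omega)
      rw [mul_sub, mul_one] at h2
      rw [h1, h2, neg_zero]
    | succ n ih =>
      intro s
      by_cases h : A (n + 1) s
      · have h1 := congrArg (fun f => (PowerSeries.coeff (n + 1) f).coeff s) key
        rw [mul_sub, mul_one, map_sub, Polynomial.coeff_sub, coeff_mul_Xh_succ, map_neg,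
          Polynomial.coeff_neg, hsupp2 (n + 1) s (fun _ => h), ih s] at h1
        rw [ih (s - 1)] at h1
        simpa using h1
      · exact hsupp1 (n + 1) s h
  have : Eu (FA A) - aA A * FA A = 0 := ext2 fun n s => by rw [hzero n s]; simp
  exact sub_eq_zero.1 this

/-- the row sums -/
noncomputable def wsum (v : ℝ) (n : ℕ) : ℝ := ∑ s ∈ range (n + 1), (wA A n s : ℝ) * v ^ s
noncomputable def asum (v : ℝ) (n : ℕ) : ℝ := ∑ s ∈ range (n + 1), (if A n s then (n.choose s : ℝ) * v ^ s else 0)

open Polynomial in
theorem eval_row (f : ℕ → ℤ) (n : ℕ) (v : ℝ) :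
    (row f n).eval₂ (Int.castRingHom ℝ) v = ∑ s ∈ range (n + 1), (f s : ℝ) * v ^ s := by
  unfold row
  rw [eval₂_finsetSum]
  simp [eval₂_monomial]

/-- SPITZER-BAXTER -/
theorem spitzer (hA1 : ∀ n m s t, 1 ≤ n → 1 ≤ m → A n s → A m t → A (n + m) (s + t))
    (hA2 : ∀ n m s t, 1 ≤ n → 1 ≤ m → ¬ A n s → ¬ A m t → ¬ A (n + m) (s + t)) (v : ℝ) (n : ℕ) :
    (n : ℝ) * wsum A v n = ∑ i ∈ range n, asum A v (i + 1) * wsum A v (n - 1 - i) := by
  have h := congrArg (fun f => (PowerSeries.coeff n f).eval₂ (Int.castRingHom ℝ) v) (spitzer_formal A hA1 hA2)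
  rw [coeff_Eu, Polynomial.eval₂_mul, Polynomial.eval₂_natCast, PowerSeries.coeff_mul,
    Polynomial.eval₂_finsetSum] at h
  have hF : ∀ n, (PowerSeries.coeff n (FA A)).eval₂ (Int.castRingHom ℝ) v = wsum A v n := by
    intro n
    unfold FA
    rw [PowerSeries.coeff_mk, eval_row]
    unfold wsum
    simp
  have ha : ∀ n, (PowerSeries.coeff n (aA A)).eval₂ (Int.castRingHom ℝ) v = if 1 ≤ n then asum A v n else 0 := by
    intro n
    unfold aA
    rw [PowerSeries.coeff_mk, eval_row]
    split_ifs with h1
    · unfold asum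
      apply sum_congr rfl
      intro s _
      by_cases h2 : A n s <;> simp [h1, h2]
    · simp [h1]
  simp only [Polynomial.eval₂_mul, hF, ha] at h
  rw [h]
  rcases n with _ | n
  · simp
  · rw [Nat.sum_antidiagonal_eq_sum_range_succ (fun i j => (if 1 ≤ i then asum A v i else 0) * wsum A v j),
      sum_range_succ']
    simp only [Nat.sub_zero]
    rw [if_neg (by omega), zero_mul, add_zero]
    apply sum_congr rfl
    intro i hi
    rw [mem_range] at hi
    rw [if_pos (by omega)]
    congr 2
    omega

end

end Pool.Agent.H77.Col
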